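import Pool.Agent.H96.W4.CD

/-!
# Existence of the data of a curve with an inseparable part
-/

set_option autoImplicit false
set_option linter.unusedSectionVars false

namespace Pool.Agent.H96.W4

open MvPolynomial IsLocalRing Pool.Agent.H96.VL Pool.Agent.H96.W Pool.Agent.H96.W0
open Pool.Agent.H96.W2 (wp wp_sub wp_le val_const_le val_const Scalar)

/-- **The data of a curve exist.** -/
theorem nonempty_cd_ne (p : ℕ) [Fact p.Prime] (k F : Type) [Field k] [Finite k] [Field F]
    [Algebra (ZMod p) F] [Algebra k F] [Algebra.EssFiniteType (ZMod p) F]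
    (htr : Algebra.trdeg (ZMod p) F = 1) {m₁ m₂ r : ℕ} (Λ : Matrix (Fin m₁) (Fin m₁) k)
    (f : Fin m₁ → F) (e : F) (D : Fin m₂ → k) (hD : D ≠ 0) (he : ∀ a : F, a ^ p ≠ e)
    (h : Fin r → F) (hh : ∀ b, h b ≠ 0)
    (hf : ∀ W : ValuationSubring F, W ≠ ⊤ → Sc p Λ f e D W) :
    ∃ M : ℕ, ∀ Lo : ℕ, 1 ≤ Lo → Nonempty (CD p k F Λ f e D h M Lo) := by
  classical
  have hc := charP_F p F
  obtain ⟨x, hx, i1, i2, i3, i4⟩ := exists_sep (ZMod p) F htr
  have hx0 : x ≠ 0 := by
    rintro rfl
    exact hx (isAlgebraic_zero)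
  have hx' : Transcendental (ZMod p) x⁻¹ := by
    intro h
    apply hx
    have := h.inv
    rwa [inv_inv] at this
  obtain ⟨A₀, hA₀⟩ := exists_chart (k := ZMod p) x hx
  obtain ⟨A₁, hA₁⟩ := exists_chart (k := ZMod p) x⁻¹ hx'
  have hA : ∀ w : F, w ∈ pring p (⊤ : Subring F) e := fun w => mem_pring_top x e he w
  have d0 := hA₀.ded
  have e0 := hA₀.frac
  have t0 := hA₀.finiteType
  have d1 := hA₁.ded
  have e1 := hA₁.frac
  have t1 := hA₁.finiteType
  have htop : ∀ {W : ValuationSubring F} {w : F}, w ≠ 0 → W.valuation w < 1 → W ≠ ⊤ := by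
    rintro W w hw hlt rfl
    have h1 : (⊤ : ValuationSubring F).valuation w⁻¹ ≤ 1 :=
      (ValuationSubring.valuation_le_one_iff _ _).mpr trivial
    rw [map_inv₀] at h1
    have h2 : 0 < (⊤ : ValuationSubring F).valuation w := by
      rw [Valuation.pos_iff]; exact hw
    exact absurd h1 (not_le.mpr ((one_lt_inv₀ h2).mpr hlt))
  obtain ⟨b₁, hb₁, hsm⟩ := exists_smooth (R := A₀) hA
  obtain ⟨b₂, hb₂, hden⟩ := exists_den_finset (R := A₀) (F := F) (Finset.univ.image f ∪
    (Finset.univ.image h ∪ Finset.univ.image fun b => (h b)⁻¹))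
  -- the special set of the first chart
  set X : A₀ := ⟨x, hA₀.mem⟩ with hX
  have hXF : algebraMap A₀ F X = x := rfl
  set ξ : A₁ := ⟨x⁻¹, hA₁.mem⟩ with hξ
  have hξF : algebraMap A₁ F ξ = x⁻¹ := rfl
  have hX0 : X ≠ 0 := by
    intro h
    have : x = 0 := congrArg (fun z : A₀ => (z : F)) h
    exact hx0 this
  have hξ0 : ξ ≠ 0 := by
    intro h
    have : x⁻¹ = 0 := congrArg (fun z : A₁ => (z : F)) h
    exact hx0 (inv_eq_zero.mp this)
  set b₀ : A₀ := b₁ * b₂ with hb₀
  have hb₀0 : b₀ ≠ 0 := mul_ne_zero hb₁ hb₂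
  have hb₀1 : ∀ W : ValuationSubring F, Le A₀ W → W.valuation (algebraMap A₀ F b₀) = 1 →
      W.valuation (algebraMap A₀ F b₁) = 1 ∧ W.valuation (algebraMap A₀ F b₂) = 1 := by
    intro W hW hv
    rw [hb₀, map_mul, map_mul] at hv
    have h1 := hW b₁
    have h2 := hW b₂
    constructor
    · apply le_antisymm h1
      rw [← hv]
      exact mul_le_of_le_one_right' h2
    · apply le_antisymm h2
      rw [← hv]
      exact mul_le_of_le_one_left' h1
  have hbf : ∀ W : ValuationSubring F, Le A₀ W → W.valuation (algebraMap A₀ F b₀) = 1 → ∀ a,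
      W.valuation (f a) ≤ 1 := fun W hW hv a => hden W hW (hb₀1 W hW hv).2 _
    (Finset.mem_union_left _ (Finset.mem_image_of_mem _ (Finset.mem_univ _)))
  have hbh : ∀ W : ValuationSubring F, Le A₀ W → W.valuation (algebraMap A₀ F b₀) = 1 → ∀ a,
      W.valuation (h a) = 1 := by
    intro W hW hv a
    have h1 := hden W hW (hb₀1 W hW hv).2 (h a) (Finset.mem_union_right _ (Finset.mem_union_left _
      (Finset.mem_image_of_mem _ (Finset.mem_univ _))))
    have h2 := hden W hW (hb₀1 W hW hv).2 (h a)⁻¹ (Finset.mem_union_right _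
      (Finset.mem_union_right _ (Finset.mem_image.mpr ⟨a, Finset.mem_univ _, rfl⟩)))
    have h3 : 0 < W.valuation (h a) := by rw [Valuation.pos_iff]; exact hh a
    rw [map_inv₀] at h2
    exact le_antisymm h1 ((inv_le_one₀ h3).mp h2)
  set b : A₀ := X * b₀ with hb
  have hb0 : b ≠ 0 := mul_ne_zero hX0 hb₀0
  have hb0' : algebraMap A₀ F b ≠ 0 := algebraMap_ne_zero hb0
  obtain ⟨K, b1, hb1⟩ := exists_pow_den (R := A₁) ξ (algebraMap A₀ F b) (by
    intro W hW hv
    rw [hξF, map_inv₀, inv_eq_one] at hv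
    exact hA₀.le hv.le b)
  rw [hξF] at hb1
  have hb10 : b1 ≠ 0 := by
    rintro rfl
    rw [map_zero] at hb1
    exact mul_ne_zero (pow_ne_zero _ (inv_ne_zero hx0)) hb0' hb1
  set c : A₁ := ξ * b1 with hcdef
  have hc0 : c ≠ 0 := mul_ne_zero hξ0 hb10
  have hc0' : algebraMap A₁ F c ≠ 0 := algebraMap_ne_zero hc0
  obtain ⟨M0, hM0⟩ := exists_gauge4 (R := A₀) (k := k) (Λ := Λ) hb0 (f := f) (h := h) hh hD hA he
    (fun W _ hv => hf W (htop hb0' hv))
  obtain ⟨M1, hM1⟩ := exists_gauge4 (R := A₁) (k := k) (Λ := Λ) hc0 (f := f) (h := h) hh hD hA he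
    (fun W _ hv => hf W (htop hc0' hv))
  refine ⟨max M0 M1, fun Lo hLo => ?_⟩
  obtain ⟨g0, q0, hg0, hq0, hgood0⟩ := hM0 0 (fun _ => True) 0 0
  obtain ⟨g, q, hg, hq, hgood1⟩ := hM1 Lo (fun W => ¬ W.valuation x ≤ 1) g0 q0
  -- regularity where `v(x) = 1`
  have hregc : ∀ (w : F) (hw : ∃ (N : ℕ) (s : A₁), algebraMap A₁ F c ^ N * w = algebraMap A₁ F s)
      (W : ValuationSubring F), Le A₁ W → ¬ W.valuation (algebraMap A₁ F c) < 1 →
      W.valuation w ≤ 1 := by
    rintro w ⟨N, s, hs⟩ W hLe hcv
    have hc1 : W.valuation (algebraMap A₁ F c) = 1 := le_antisymm (hLe c) (not_lt.mp hcv)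
    have h3 := congrArg W.valuation hs
    rw [map_mul, map_pow, hc1, one_pow, one_mul] at h3
    rw [h3]
    exact hLe s
  have hunif : ∀ (W : ValuationSubring F), Le A₁ W → W.valuation (algebraMap A₁ F c) < 1 →
      ∃ t : F, Unif W t := by
    intro W hLe hcv
    have hq : cen W hLe ≠ ⊥ := by
      intro h0
      have h1 : c ∈ cen W hLe := hcv
      rw [h0] at h1
      exact hc0 h1
    obtain ⟨t, ht⟩ := exists_place hLe hq
    exact ⟨_, ht.unif⟩
  have hregq : ∀ W : ValuationSubring F, W.valuation x = 1 → W.valuation q ≤ 1 := by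
    intro W hv
    have hLe := hA₁.le (W := W) ((val_inv_le hx0).mpr hv.ge)
    by_cases hcv : W.valuation (algebraMap A₁ F c) < 1
    · obtain ⟨t, ht⟩ := hunif W hLe hcv
      refine ((hgood1 W hLe hcv _ ht).2 (not_not.mpr hv.le)).2.trans ?_
      exact pow_le_one' ht.lt.le _
    · exact hregc q hq W hLe hcv
  have hregg : ∀ a (W : ValuationSubring F), W.valuation x = 1 → W.valuation (g a) ≤ 1 := by
    intro a W hv
    have hLe := hA₁.le (W := W) ((val_inv_le hx0).mpr hv.ge)
    by_cases hcv : W.valuation (algebraMap A₁ F c) < 1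
    · obtain ⟨t, ht⟩ := hunif W hLe hcv
      exact ((hgood1 W hLe hcv _ ht).2 (not_not.mpr hv.le)).1 a
    · exact hregc (g a) (hg a) W hLe hcv
  obtain ⟨N1, hN1⟩ := exists_tw_bd hx0 hA₀ hA₁ hregq
  obtain ⟨N2, hN2⟩ := exists_common (Finset.univ : Finset (Fin m₁)) (fun a j =>
      (∀ W : ValuationSubring F, W.valuation x ≤ 1 → W.valuation (x ^ j * g a) ≤ 1) ∧
      ∀ W : ValuationSubring F, 1 ≤ W.valuation x → W.valuation (g a / x ^ j) ≤ 1)
    (fun a _ => exists_tw_bd hx0 hA₀ hA₁ (hregg a))
  obtain ⟨N3, hN3⟩ := exists_T' hx0 hA₀ hA₁ (algebraMap A₀ F b₀) b₀.2 (algebraMap_ne_zero hb₀0)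
  set n := max N3 (max N1 N2 + 1) with hn
  obtain ⟨T, hT0, hT⟩ := hN3 n (le_max_left _ _)
  obtain ⟨S0, hS00, hS0A, hS0⟩ := hA₀.exists_gens
  obtain ⟨S1, hS10, hS1A, hS1⟩ := hA₁.exists_gens
  have hLoN : max N1 N2 + Lo ≤ Lo * n := by
    have h1 : max N1 N2 + 1 ≤ n := le_max_right _ _
    calc max N1 N2 + Lo ≤ Lo * max N1 N2 + Lo * 1 := by
          rw [mul_one]
          exact Nat.add_le_add_right (Nat.le_mul_of_pos_left _ hLo) _
      _ = Lo * (max N1 N2 + 1) := by ring
      _ ≤ Lo * n := Nat.mul_le_mul_left _ h1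
  have hN1n : N1 ≤ Lo * n := by
    have := le_max_left N1 N2
    omega
  have hN2n : N2 ≤ Lo * n := by
    have := le_max_right N1 N2
    omega
  refine ⟨⟨x, g0, fun a => g0 a + g a, q0, q0 + q, n,
    {{1, x}} ∪ (S0.image fun e => {1, x, e}) ∪ (S1.image fun e => {1, x, e * x}), T, hx0, ?_, hT0,
    ?_, ?_⟩⟩
  · intro s hs
    rw [Finset.mem_union, Finset.mem_union, Finset.mem_singleton, Finset.mem_image,
      Finset.mem_image] at hs
    rcases hs with (rfl | ⟨e, he, rfl⟩) | ⟨e, he, rfl⟩
    · refine ⟨?_, ⟨1, by simp⟩⟩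
      rw [Finset.mem_insert, Finset.mem_singleton]
      rintro (h | h)
      · exact zero_ne_one h
      · exact hx0 h.symm
    · refine ⟨?_, ⟨1, by simp⟩⟩
      rw [Finset.mem_insert, Finset.mem_insert, Finset.mem_singleton]
      rintro (h | h | h)
      · exact zero_ne_one h
      · exact hx0 h.symm
      · exact hS00 e he h.symm
    · refine ⟨?_, ⟨1, by simp⟩⟩
      rw [Finset.mem_insert, Finset.mem_insert, Finset.mem_singleton]
      rintro (h | h | h)
      · exact zero_ne_one h
      · exact hx0 h.symm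
      · exact mul_ne_zero (hS10 e he) hx0 h.symm
  · intro W R hR hs w hw
    by_cases hW : W.valuation x ≤ 1
    · have hLe := hA₀.le hW
      refine hA₀.detect hLe hR hS0 (fun e he => ?_) hw
      have h1 := hs {1, x, e} (by
        rw [Finset.mem_union, Finset.mem_union]
        exact Or.inl (Or.inr (Finset.mem_image_of_mem (fun e => ({1, x, e} : Finset F)) he)))
      have h2 := prin_pair hR h1 (w := 1) (u := e) (by simp) (by simp) (by
        intro g hg
        rw [Finset.mem_insert, Finset.mem_insert, Finset.mem_singleton] at hg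
        rw [map_one]
        rcases hg with rfl | rfl | rfl
        · rw [map_one]
        · exact hW
        · exact hLe ⟨_, hS0A _ he⟩)
      rwa [div_one] at h2
    · have hv := (val_inv_lt hx0).mpr hW
      have hLe := hA₁.le hv.le
      refine hA₁.detect hLe hR hS1 (fun e he => ?_) hw
      have h1 := hs {1, x, e * x} (by
        rw [Finset.mem_union, Finset.mem_union]
        exact Or.inr (Finset.mem_image_of_mem (fun e => ({1, x, e * x} : Finset F)) he))
      have h2 := prin_pair hR h1 (w := x) (u := e * x) (by simp) (by simp) (by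
        intro g hg
        rw [Finset.mem_insert, Finset.mem_insert, Finset.mem_singleton] at hg
        rcases hg with rfl | rfl | rfl
        · rw [map_one]; exact (not_le.mp hW).le
        · exact le_rfl
        · rw [map_mul]
          exact mul_le_of_le_one_left' (hLe ⟨_, hS1A _ he⟩))
      rwa [mul_div_cancel_right₀ _ hx0] at h2
  · intro W
    obtain ⟨τ, h1, h2, h3, h4⟩ := hT W
    have hτ' : τ = 1 ∨ Unif W τ := by
      by_cases hW : W.valuation x ≤ 1
      · rcases h3 hW with ⟨h5, -⟩ | ⟨h5, -⟩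
        · exact Or.inl h5
        · exact Or.inr h5
      · exact Or.inr (h4 hW)
    refine ⟨τ, hτ', h1, h2, ?_, ?_, ?_⟩
    · -- the first condition
      intro hW
      refine ⟨fun a => ?_, ?_⟩
      · rw [add_sub_cancel_left]
        exact (hN2 _ hN2n a (Finset.mem_univ _)).1 W hW
      rw [add_sub_cancel_left]
      rcases h3 hW with ⟨hτ, hx1, -⟩ | ⟨hτ, hsp⟩
      · rw [hτ, map_one, one_pow, map_mul, map_pow, hx1, one_pow, one_mul]
        exact hregq W hx1
      · rcases eq_or_lt_of_le hW with hx1 | hx1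
        · rw [map_mul, map_pow, hx1, one_pow, one_mul]
          have hLe := hA₁.le (W := W) ((val_inv_le hx0).mpr hx1.ge)
          refine ((hgood1 W hLe ?_ τ hτ).2 (not_not.mpr hW)).2
          rw [hcdef, map_mul, ← hb1, hξF, map_mul, map_mul, map_pow, map_inv₀, hx1, inv_one, one_pow,
            one_mul, one_mul]
          exact hsp
        · have h5 : x ^ (Lo * n) * q = x ^ (Lo * n - N1) * (x ^ N1 * q) := by
            rw [← mul_assoc, ← pow_add]
            congr 2
            omega
          rw [h5, map_mul, map_pow]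
          calc W.valuation x ^ (Lo * n - N1) * W.valuation (x ^ N1 * q) ≤
                W.valuation τ ^ (Lo * n - N1) * 1 :=
                mul_le_mul' (pow_le_pow_left' (hτ.max _ hx1) _) ((hN1 N1 le_rfl).1 W hW)
            _ = W.valuation τ ^ (Lo * n - N1) := mul_one _
            _ ≤ W.valuation τ ^ Lo := pow_le_pow_right_of_le_one' hτ.lt.le (by
                have := le_max_left N1 N2
                omega)
    · -- the second condition
      intro hW
      have hW' := (not_le.mp hW).le
      refine ⟨fun a => ?_, ?_⟩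
      · rw [add_sub_cancel_left]
        exact (hN2 _ hN2n a (Finset.mem_univ _)).2 W hW'
      have hτ := h4 hW
      have hv := (val_inv_lt hx0).mpr hW
      rw [add_sub_cancel_left]
      have h5 : q / x ^ (Lo * n) = x⁻¹ ^ (Lo * n - N1) * (q / x ^ N1) := by
        have h6 : x ^ (Lo * n) = x ^ (Lo * n - N1) * x ^ N1 := by
          rw [← pow_add]
          congr 1
          omega
        rw [h6, inv_pow, ← div_div, div_eq_mul_inv q, mul_comm q, mul_div_assoc]
      rw [h5, map_mul, map_pow]
      calc W.valuation x⁻¹ ^ (Lo * n - N1) * W.valuation (q / x ^ N1) ≤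
            W.valuation τ ^ (Lo * n - N1) * 1 :=
            mul_le_mul' (pow_le_pow_left' (hτ.max _ hv) _) ((hN1 N1 le_rfl).2 W hW')
        _ = W.valuation τ ^ (Lo * n - N1) := mul_one _
        _ ≤ W.valuation τ ^ Lo := pow_le_pow_right_of_le_one' hτ.lt.le (by
            have := le_max_left N1 N2
            omega)
    · by_cases hW : W.valuation x ≤ 1
      · have hgg : (fun a => gg x (g0 a) (g0 a + g a) W) = g0 := by
          funext a; exact gg_le hW
        rw [hgg, gg_le hW]
        have hLe := hA₀.le hW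
        rcases h3 hW with ⟨hτ, hx1, hb1v⟩ | ⟨hτ, hsp⟩
        · have hbd : ∀ (w : F) (hw : ∃ (N : ℕ) (s : A₀), algebraMap A₀ F b ^ N * w =
              algebraMap A₀ F s) (W : ValuationSubring F), Le A₀ W →
              W.valuation (algebraMap A₀ F b) = 1 → W.valuation w ≤ 1 := by
            rintro w ⟨N, s, hs⟩ W hW hv
            have h5 := congrArg W.valuation hs
            rw [map_mul, map_pow, hv, one_pow, one_mul] at h5
            rw [h5]
            exact hW s
          have hbv : W.valuation (algebraMap A₀ F b) = 1 := by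
            rw [hb, map_mul, map_mul, hXF, hx1, hb1v, one_mul]
          obtain ⟨h5, h6⟩ := hsm W hLe (hb₀1 W hLe hb1v).1
          have hq0v := hbd q0 hq0 W hLe hbv
          refine ⟨0, e - q0 ^ p, 0, 0, ⟨by rw [abs_zero]; positivity,
            Or.inr (Or.inl ⟨rfl, hτ, rfl, ?_⟩), fun _ => rfl, fun a => ?_, fun a => ?_,
            fun a => ?_⟩, fun E hE => ?_⟩
          · refine (W.valuation.map_sub _ _).trans (max_le h5 ?_)
            rw [map_pow]
            exact pow_le_one' hq0v _
          · rw [Pi.zero_apply, map_zero, zero_mul, sub_zero]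
            exact (W.valuation.map_sub _ _).trans (max_le (hbf W hLe hb1v a)
              (wp_le (fun a => hbd (g0 a) (hg0 a) W hLe hbv) a))
          · rw [Pi.zero_apply, abs_zero]; positivity
          · rw [Pi.zero_apply, neg_zero, zpow_zero, mul_one]
            exact hbh W hLe hb1v a
          · by_cases hq : cen W hLe = ⊥
            · obtain ⟨n', y, G, l, h7, h8, h9⟩ := exists_presE_triv (p := p) (W := W) hA₀.nf
                (fun w hw => triv_of_cen_eq_bot hLe hq hw) hb0
                (fun W hW hv => hsm W hW (hb₀1 W hW (by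
                  apply le_antisymm (hW b₀)
                  rw [← hv, hb, map_mul, map_mul]
                  exact mul_le_of_le_one_left' (hW X))).1) (hbd q0 hq0) E
              exact ⟨n', y, G, l, h7, h8, fun h => by
                rw [hτ] at h
                exact absurd h not_unif_one, fun _ _ => h9⟩
            · obtain ⟨n', y, G, l, h7, h8, h9⟩ := exists_presE (p := p) hLe hq h5 hq0v h6 E hE
              exact ⟨n', y, G, l, h7, h8, fun h => by
                rw [hτ] at h
                exact absurd h not_unif_one, fun _ _ => h9⟩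
        · have hbv : W.valuation (algebraMap A₀ F b) < 1 := by
            rw [hb, map_mul, hXF]; exact hsp
          obtain ⟨ε, c, κ, h5⟩ := (hgood0 W hLe hbv τ hτ).1 trivial
          have h6 : (fun a => (0 : Fin m₁ → F) a + g0 a) = g0 := by
            funext a; exact zero_add _
          rw [h6, zero_add] at h5
          refine ⟨ε, e - q0 ^ p, c, κ, h5.mono (le_max_left _ _), fun E hE => ?_⟩
          obtain ⟨m, y, G, l, h7, h8, h9⟩ := hA₀.exists_pres hLe (Or.inr hτ) E hE
          exact ⟨m, y, G, l, h7, h8, h9, fun _ h => by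
            rw [h] at hτ
            exact absurd hτ not_unif_one⟩
      · have hgg : (fun a => gg x (g0 a) (g0 a + g a) W) = fun a => g0 a + g a := by
          funext a; exact gg_gt hW
        rw [hgg, gg_gt hW]
        have hτ := h4 hW
        have hv := (val_inv_lt hx0).mpr hW
        have hLe := hA₁.le hv.le
        have hcv : W.valuation (algebraMap A₁ F c) < 1 := by
          rw [hcdef, map_mul, map_mul, hξF]
          exact (mul_le_of_le_one_right' (hLe b1)).trans_lt hv
        obtain ⟨ε, c, κ, h5⟩ := (hgood1 W hLe hcv τ hτ).1 hW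
        refine ⟨ε, e - (q0 + q) ^ p, c, κ, h5.mono (le_max_right _ _), fun E hE => ?_⟩
        obtain ⟨m, y, G, l, h7, h8, h9⟩ := hA₁.exists_pres hLe (Or.inr hτ) E hE
        exact ⟨m, y, G, l, h7, h8, h9, fun _ h => by
          rw [h] at hτ
          exact absurd hτ not_unif_one⟩

/-- **The data of a curve exist.** -/
theorem nonempty_cd4 (p : ℕ) [Fact p.Prime] (k F : Type) [Field k] [Finite k] [Field F]
    [Algebra (ZMod p) F] [Algebra k F] [Algebra.EssFiniteType (ZMod p) F]
    (htr : Algebra.trdeg (ZMod p) F = 1) {m₁ m₂ r : ℕ} (Λ : Matrix (Fin m₁) (Fin m₁) k)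
    (f : Fin m₁ → F) (e : F) (D : Fin m₂ → k) (he : D ≠ 0 → ∀ a : F, a ^ p ≠ e)
    (h : Fin r → F) (hh : ∀ b, h b ≠ 0)
    (hf : ∀ W : ValuationSubring F, W ≠ ⊤ → Sc p Λ f e D W) :
    ∃ M : ℕ, ∀ Lo : ℕ, 1 ≤ Lo → Nonempty (CD p k F Λ f e D h M Lo) := by
  by_cases hD : D = 0
  · exact nonempty_cd_zero p k F htr Λ f e D hD h hh hf
  · exact nonempty_cd_ne p k F htr Λ f e D hD (he hD) h hh hf

end Pool.Agent.H96.W4
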