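import Pool.Agent.H96.W4.Glob3
import Pool.Agent.H96.W2.Glob4

/-!
# Models of covers of products of curves
-/

set_option autoImplicit false
set_option linter.unusedSectionVars false

namespace Pool.Agent.H96.W4

open MvPolynomial IsLocalRing Pool.Agent.H96.Reg Pool.Agent.H96.VL Pool.Agent.H96.W
open Pool.Agent.H96.W2 (wp val_const_le val_const BX mem_BX resK compat_resK CompatA)
open scoped Pointwise

variable {p : ℕ} [Fact p.Prime] {k K : Type} [Field k] [Fintype k] [DecidableEq k] [CharP k p]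
    [Field K] [Algebra k K]
    [Algebra (ZMod p) k] {I : Type} [Fintype I] [DecidableEq I] {F : I → Type}
    [∀ i, Field (F i)] [∀ i, Algebra (ZMod p) (F i)] [∀ i, Algebra k (F i)]
    [∀ i, Algebra (F i) K] [∀ i, IsScalarTower k (F i) K]
    [∀ i, IsScalarTower (ZMod p) k (F i)] {m₁ m₂ r M : ℕ}

variable {G : GD p k K I F m₁ m₂ r M} {V : ValuationSubring K} {R : Subring K}

/-- The ring of the chart. -/
theorem base_vloc (lg : LG G V) {M' : ℕ} {C : Cone (Ix k I m₁ m₂ r)} (h : Ctx lg.L M' C) :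
    Base lg (vloc V (Algebra.adjoin ℤ
      (Set.range (Sum.elim (fun j => mon lg.L.τ (C.b j)) lg.L.Y)))) := by
  set B := Algebra.adjoin ℤ (Set.range (Sum.elim (fun j => mon lg.L.τ (C.b j)) lg.L.Y)) with hB
  have hR : VLocal V (vloc V B) := by
    apply vlocal_vloc
    apply adjoin_val_le
    rintro _ ⟨j | l, rfl⟩
    · exact h.hb j
    · exact lg.L.vY l
  have hbR : ∀ j, mon lg.L.τ (C.b j) ∈ vloc V B := fun j =>
    subset_vloc (Algebra.subset_adjoin ⟨Sum.inl j, rfl⟩)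
  have hYR : ∀ l, lg.L.Y l ∈ vloc V B := fun l =>
    subset_vloc (Algebra.subset_adjoin ⟨Sum.inr l, rfl⟩)
  have hk : ∀ c : k, algebraMap k K c ∈ vloc V B := fun c => hYR (Sum.inr (Sum.inr c))
  have hpoly : ∀ i (P : MvPolynomial (Fin (lg.L.n i + 1)) k),
      aeval (lg.L.y i) P ∈ vloc V B := by
    intro i P
    induction P using MvPolynomial.induction_on with
    | C a => rw [aeval_C]; exact hk a
    | add P Q hP hQ => rw [map_add]; exact Subring.add_mem _ hP hQ
    | mul_X P b hP => rw [map_mul, aeval_X]; exact Subring.mul_mem _ hP (hYR (Sum.inl ⟨i, b⟩))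
  have hmon : ∀ u : Ix k I m₁ m₂ r → ℤ, (∀ j, 0 ≤ C.r j ⬝ᵥ u) → mon lg.L.τ u ∈ vloc V B := by
    intro u hu
    refine h.hC.mem (Q := {u | mon lg.L.τ u ∈ vloc V B}) (fun u hu v hv => ?_) ?_ hbR hu
    · show mon lg.L.τ (u + v) ∈ vloc V B
      rw [mon_add lg.L.τ_ne_zero]
      exact Subring.mul_mem _ hu hv
    · show mon lg.L.τ 0 ∈ vloc V B
      rw [mon_zero]; exact Subring.one_mem _
  refine ⟨hR, hk, fun i w hw => ?_, fun c => hYR (Sum.inr (Sum.inl c)), fun c j hj => ?_,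
    fun α => ?_⟩
  · obtain ⟨a, s, h1, h2⟩ := lg.gen i w hw
    rw [h2]
    exact hR.div_mem (hpoly i a) (hpoly i s) h1
  · -- the quotient is a monomial of constant sign
    obtain ⟨u, hu, hu'⟩ : ∃ u ∈ BX (Ix k I m₁ m₂ r) M', mon lg.L.τ u = lg.L.tt j ^ Q p M := by
      cases j with
      | none => exact ⟨0, Pool.Agent.H96.W2.zero_mem_BX, by rw [mon_zero, lg.L.tt_none, one_pow]⟩
      | some i =>
        exact ⟨(Q p M : ℤ) • Pi.single (Sum.inl i) 1, Pool.Agent.H96.W2.single_mem_BX _ h.Q_le, by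
          rw [mon_smul, mon_single, zpow_natCast]; rfl⟩
    have h1 : mon lg.L.τ (u - LD.Ec p I M r c) = lg.L.tt j ^ Q p M / lg.L.ω c := by
      rw [mon_sub lg.L.τ_ne_zero, hu', lg.L.mon_Ec]
    have h2 : V.valuation (mon lg.L.τ (u - LD.Ec p I M r c)) ≤ 1 := by
      rw [h1, map_div₀]
      have h3 : 0 < V.valuation (lg.L.ω c) := by rw [Valuation.pos_iff]; exact lg.L.ω_ne_zero c
      exact (div_le_one₀ h3).mpr (lg.L.vtt_le_ω hj)
    rw [← h1]
    rcases h.hS _ hu _ (Ec_mem h c) with h3 | h3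
    · exact hmon _ h3
    · have h4 := hmon _ h3
      rw [mon_neg] at h4
      have h5 : V.valuation (mon lg.L.τ (u - LD.Ec p I M r c))⁻¹ = 1 := by
        apply le_antisymm (hR.le _ h4)
        rw [map_inv₀]
        refine (one_le_inv₀ ?_).mpr h2
        rw [Valuation.pos_iff]
        exact mon_ne_zero lg.L.τ_ne_zero _
      have h6 := hR.inv _ h4 h5
      rwa [inv_inv] at h6
  · rw [← mon_single (τ := lg.L.τ) (Sum.inr α)]
    refine hmon _ fun j => ?_
    rw [dotProduct_single_one]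
    exact h.hC.pos _ _

/-- The field is generated by the chart. -/
theorem isAlgebraic_chart (lg : LG G V) {C : Cone (Ix k I m₁ m₂ r)}
    (hC : IsCone C) :
    Algebra.IsAlgebraic (Algebra.adjoin k
      (Set.range (Sum.elim (fun j => mon lg.L.τ (C.b j)) lg.L.Y))) K := by
  set X := Set.range (Sum.elim (fun j => mon lg.L.τ (C.b j)) lg.L.Y) with hX
  set E := (Subfield.closure X) with hE
  have hbR : ∀ j, mon lg.L.τ (C.b j) ∈ E := fun j => Subfield.subset_closure ⟨Sum.inl j, rfl⟩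
  have hYR : ∀ l, lg.L.Y l ∈ E := fun l => Subfield.subset_closure ⟨Sum.inr l, rfl⟩
  have hk : ∀ a : k, algebraMap k K a ∈ E := fun a => hYR (Sum.inr (Sum.inr a))
  have hpoly : ∀ i (P : MvPolynomial (Fin (lg.L.n i + 1)) k), aeval (lg.L.y i) P ∈ E := by
    intro i P
    induction P using MvPolynomial.induction_on with
    | C a => rw [aeval_C]; exact hk a
    | add P Q hP hQ => rw [map_add]; exact E.add_mem hP hQ
    | mul_X P b hP => rw [map_mul, aeval_X]; exact E.mul_mem hP (hYR (Sum.inl ⟨i, b⟩))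
  have hF1 : ∀ i (w : F i), (WV V (F i)).valuation w ≤ 1 → algebraMap (F i) K w ∈ E := by
    intro i w hw
    obtain ⟨a, s, -, h2⟩ := lg.gen i w hw
    rw [h2]
    exact E.div_mem (hpoly i a) (hpoly i s)
  have hF : ∀ i (w : F i), algebraMap (F i) K w ∈ E := by
    intro i w
    rcases le_total ((WV V (F i)).valuation w) 1 with hw | hw
    · exact hF1 i w hw
    · have h1 : (WV V (F i)).valuation w⁻¹ ≤ 1 := by
        rw [map_inv₀]; exact inv_le_one_of_one_le₀ hw
      have h2 := E.inv_mem (hF1 i _ h1)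
      rwa [map_inv₀, inv_inv] at h2
  have hτ : ∀ α, lg.L.τ α ∈ E := by
    intro α
    rw [← mon_single (τ := lg.L.τ) α]
    refine hC.mem (Q := {u | mon lg.L.τ u ∈ E}) (fun u hu v hv => ?_) ?_ hbR (fun j => ?_)
    · show mon lg.L.τ (u + v) ∈ E
      rw [mon_add lg.L.τ_ne_zero]
      exact E.mul_mem hu hv
    · show mon lg.L.τ 0 ∈ E
      rw [mon_zero]; exact E.one_mem
    · rw [dotProduct_single_one]
      exact hC.pos _ _
  have hpt : ∏ i, lg.L.t i ^ Q p M ∈ E := prod_mem fun i _ => E.pow_mem (hτ (Sum.inl i)) _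
  have hz' : ∀ c, lg.L.z c ∈ E := by
    intro c
    have h3 : lg.L.ω c ∈ E := by
      have h4 := E.div_mem (hτ (Sum.inr (Sum.inl c))) hpt
      rwa [lg.L.τ_c, mul_div_cancel_right₀ _ lg.L.prodt_ne_zero] at h4
    rw [← lg.L.Y_mul c]
    exact E.mul_mem (hYR (Sum.inr (Sum.inl c))) h3
  have hz : ∀ a, G.z a ∈ E := by
    intro a
    have h1 := hz' (Pi.single (Sum.inl a) 1)
    rw [lg.z_eq, GD.zs, zl_single_inl] at h1
    have h3 : G.z a = (G.z a - G.gs (G.σV V) a) + G.gs (G.σV V) a := by ring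
    rw [h3]
    exact E.add_mem h1 (sum_mem fun i _ => hF i _)
  have hy : ∀ b, G.y b ∈ E := by
    intro b
    have h1 := hz' (Pi.single (Sum.inr b) 1)
    rw [lg.z_eq, GD.zs, zl_single_inr] at h1
    have h3 : G.y b = (G.y b - G.qs (G.σV V) b) + G.qs (G.σV V) b := by ring
    rw [h3]
    exact E.add_mem h1 (sum_mem fun i _ => E.mul_mem (hk _) (hF i _))
  have hw : ∀ b, G.w b ∈ E := by
    intro b
    have h3 := E.div_mem (hτ (Sum.inr (Sum.inr b))) hpt
    rwa [lg.L.τ_w, mul_div_cancel_right₀ _ lg.L.prodt_ne_zero, lg.w_eq] at h3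
  have htop := G.gen E.toSubring (fun x hx _ => E.inv_mem hx) hk hF hz hy hw
  have hE' : E = ⊤ := by
    rw [eq_top_iff]
    intro x _
    have : x ∈ E.toSubring := by rw [htop]; trivial
    exact this
  have hcl : Subfield.closure (Algebra.adjoin ℤ X : Set K) = ⊤ := by
    rw [eq_top_iff, ← hE', hE]
    exact Subfield.closure_mono Algebra.subset_adjoin
  have hfr := isFractionRing_of_closure _ hcl
  have halg : Algebra.IsAlgebraic (Algebra.adjoin ℤ X) K :=
    IsLocalization.isAlgebraic K (nonZeroDivisors (Algebra.adjoin ℤ X))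
  have hle : ∀ x ∈ Algebra.adjoin ℤ X, x ∈ Algebra.adjoin k X := by
    intro x hx
    exact adjoin_le_of (R := (Algebra.adjoin k X).toSubring)
      (fun x hx => Algebra.subset_adjoin hx) x hx
  let j : Algebra.adjoin ℤ X →+* Algebra.adjoin k X :=
    { toFun := fun x => ⟨x, hle _ x.2⟩
      map_one' := rfl
      map_mul' := fun _ _ => rfl
      map_zero' := rfl
      map_add' := fun _ _ => rfl }
  let i1 : Algebra (Algebra.adjoin ℤ X) (Algebra.adjoin k X) := j.toAlgebra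
  have i2 : IsScalarTower (Algebra.adjoin ℤ X) (Algebra.adjoin k X) K :=
    IsScalarTower.of_algebraMap_eq fun x => rfl
  exact Algebra.IsAlgebraic.extendScalars (R := Algebra.adjoin ℤ X) (fun x y hxy =>
    Subtype.ext (congrArg (fun z : Algebra.adjoin k X => (z : K)) hxy))

/-- **Models of covers of products of curves.** -/
theorem GD.hasCharts (G : GD p k K I F m₁ m₂ r M)
    (htr : (Fintype.card I : Cardinal.{0}) ≤ Algebra.trdeg k K) :
    Pool.Agent.H19.OG.HasCharts K := by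
  classical
  set M' : ℕ := max (max M (max p (p * Q p M))) (Finset.univ.sup fun b =>
    max (G.Nw b) (G.Nw b * Q p M)) with hM'
  obtain ⟨𝒞, Ls, hE, hSgn⟩ := exists_eng (ι := Ix k I m₁ m₂ r)
    (Finset.image₂ (fun u v => u - v) (BX (Ix k I m₁ m₂ r) M') (BX (Ix k I m₁ m₂ r) M'))
  have hLs : ∀ S ∈ Ls, S.Nonempty := by
    intro S hS
    obtain ⟨C, hC, h1, h2, h3⟩ := hE.cov Set.univ ⟨fun _ _ _ _ => trivial, fun _ => Or.inl trivial,
      fun _ => trivial⟩
    obtain ⟨u, hu, -⟩ := h3 Set.univ ⟨fun _ h => h, fun _ _ _ _ => trivial, trivial,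
      fun _ => trivial, fun _ _ _ => trivial⟩ (fun _ => trivial) S hS
    exact ⟨u, hu⟩
  set ε : Ix k I m₁ m₂ r → ℤ := fun _ => 1 with hε
  have hε1 : ∀ α, ε α = 1 ∨ ε α = -1 := fun α => Or.inl rfl
  set 𝔖 : Finset (Finset K) := (Finset.univ.biUnion fun i => (G.cd i).base.image
      (fun s => s.image (algebraMap (F i) K))) ∪ ((Finset.univ.image G.sC) ∪
      (Finset.univ.image fun α => G.ss (Sum.inr α) ∪ G.sL (Sum.inr α))) ∪
      ({Pool.Agent.H96.W2.GData.sK k K} ∪ Ls.toFinset.image (eset G.ss G.sL ε)) with h𝔖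
  have hm1 : ∀ i, ∀ s ∈ (G.cd i).base, s.image (algebraMap (F i) K) ∈ 𝔖 := by
    intro i s hs
    exact Finset.mem_union_left _ (Finset.mem_union_left _ (Finset.mem_biUnion.mpr
      ⟨i, Finset.mem_univ _, Finset.mem_image_of_mem _ hs⟩))
  have hm2 : ∀ c, G.sC c ∈ 𝔖 := fun c => Finset.mem_union_left _ (Finset.mem_union_right _
    (Finset.mem_union_left _ (Finset.mem_image_of_mem _ (Finset.mem_univ _))))
  have hm2' : ∀ α, G.ss (Sum.inr α) ∪ G.sL (Sum.inr α) ∈ 𝔖 := fun α =>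
    Finset.mem_union_left _ (Finset.mem_union_right _
      (Finset.mem_union_right _ (Finset.mem_image.mpr ⟨α, Finset.mem_univ _, rfl⟩)))
  have hm0 : Pool.Agent.H96.W2.GData.sK k K ∈ 𝔖 := Finset.mem_union_right _
    (Finset.mem_union_left _ (Finset.mem_singleton_self _))
  have hm3 : ∀ S ∈ Ls, eset G.ss G.sL ε S ∈ 𝔖 := fun S hS => Finset.mem_union_right _
    (Finset.mem_union_right _ (Finset.mem_image_of_mem _ (List.mem_toFinset.mpr hS)))
  have hcase : ∀ s ∈ 𝔖, (∃ i, ∃ s' ∈ (G.cd i).base, s = s'.image (algebraMap (F i) K)) ∨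
      (∃ c, s = G.sC c) ∨ (∃ α, s = G.ss (Sum.inr α) ∪ G.sL (Sum.inr α)) ∨
      s = Pool.Agent.H96.W2.GData.sK k K ∨ ∃ S ∈ Ls, s = eset G.ss G.sL ε S := by
    intro s hs
    rcases Finset.mem_union.mp hs with hs | hs
    · rcases Finset.mem_union.mp hs with hs | hs
      · obtain ⟨i, -, hs⟩ := Finset.mem_biUnion.mp hs
        obtain ⟨s', hs', rfl⟩ := Finset.mem_image.mp hs
        exact Or.inl ⟨i, s', hs', rfl⟩
      · rcases Finset.mem_union.mp hs with hs | hs
        · obtain ⟨c, -, rfl⟩ := Finset.mem_image.mp hs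
          exact Or.inr (Or.inl ⟨c, rfl⟩)
        · obtain ⟨c, -, rfl⟩ := Finset.mem_image.mp hs
          exact Or.inr (Or.inr (Or.inl ⟨c, rfl⟩))
    · rcases Finset.mem_union.mp hs with hs | hs
      · exact Or.inr (Or.inr (Or.inr (Or.inl (Finset.mem_singleton.mp hs))))
      · obtain ⟨S, hS, rfl⟩ := Finset.mem_image.mp hs
        exact Or.inr (Or.inr (Or.inr (Or.inr ⟨S, List.mem_toFinset.mp hS, rfl⟩)))
  -- detection
  have hdet : ∀ (V : ValuationSubring K) (lg : LG G V) (R : Subring K), VLocal V R →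
      (∀ s ∈ 𝔖, Prin R s) → Base lg R := fun V lg R hR hs =>
    base_of_prin lg hR (hs _ hm0) (fun i s hs' => hs _ (hm1 i s hs')) (fun c => hs _ (hm2 c))
      fun c => hs _ (hm2' c)
  -- nonzero elements
  obtain ⟨lg₀⟩ := nonempty_lg G (⊤ : ValuationSubring K)
  have hself := base_self lg₀
  have hne : ∀ {s : Finset K} {T : K}, Gen (⊤ : ValuationSubring K).toSubring s T →
      ∃ g ∈ s, g ≠ 0 := by
    intro s T h
    obtain ⟨g, hg, -, h0⟩ := h.ex
    exact ⟨g, hg, h0⟩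
  refine hasCharts_of_sets 𝔖 ?_ ?_ ?_
  · intro s hs
    rcases hcase s hs with ⟨i, s', hs', rfl⟩ | ⟨c, rfl⟩ | ⟨α, rfl⟩ | rfl | ⟨S, hS, rfl⟩
    · obtain ⟨h0, g, hg⟩ := (G.cd i).zero_base s' hs'
      exact ⟨_, Finset.mem_image_of_mem _ hg, (map_ne_zero _).mpr (by rintro rfl; exact h0 hg)⟩
    · exact hne (gen_sC lg₀ hself.b0 hself.b1 c (hself.bz c) (hself.bt c))
    · obtain ⟨g, hg, h0⟩ := hne (gen_sL (G := G) hself.b1 (Sum.inr α))
      exact ⟨g, Finset.mem_union_right _ hg, h0⟩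
    · exact ⟨1, Pool.Agent.H96.W2.GData.mem_sK.mpr ⟨1, one_ne_zero, map_one _⟩, one_ne_zero⟩
    · exact eset_ne (fun α => hne (hself.gen_ss α)) (fun α => hne (gen_sL (G := G) hself.b1 α))
        (hLs S hS)
  · intro R hinv hs
    have hall : ∀ x : K, (⊤ : ValuationSubring K).valuation x ≤ 1 := fun x =>
      (ValuationSubring.valuation_le_one_iff _ _).mpr trivial
    have hR : VLocal (⊤ : ValuationSubring K) R := ⟨fun x _ => hall x, fun x hx h1 => hinv x hx (by
      rintro rfl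
      rw [map_zero] at h1
      exact zero_ne_one h1)⟩
    have hb := hdet ⊤ lg₀ R hR hs
    have hF : ∀ i (w : F i), algebraMap (F i) K w ∈ R := fun i w => hb.b1 i w (wv_le_one.mpr (hall _))
    have ht : ∀ i, lg₀.L.t i ∈ R := fun i => by rw [lg₀.t_eq]; exact hF i _
    have hpt : (∏ i, lg₀.L.t i ^ Q p M)⁻¹ ∈ R := hinv _ (Subring.prod_mem _ fun i _ =>
      R.pow_mem (ht i) _) lg₀.L.prodt_ne_zero
    have hz' : ∀ c, lg₀.L.z c ∈ R := by
      intro c
      have hω : lg₀.L.ω c ∈ R := by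
        have h4 := R.mul_mem (hb.bτ (Sum.inl c)) hpt
        rwa [lg₀.L.τ_c, mul_assoc, mul_inv_cancel₀ lg₀.L.prodt_ne_zero, mul_one] at h4
      rw [← lg₀.L.Y_mul]
      exact R.mul_mem (hb.bz _) hω
    refine G.gen R hinv hb.b0 hF (fun a => ?_) (fun b => ?_) fun b => ?_
    · have h1 := hz' (Pi.single (Sum.inl a) 1)
      rw [lg₀.z_eq, GD.zs, zl_single_inl] at h1
      have h3 : G.z a = (G.z a - G.gs (G.σV ⊤) a) + G.gs (G.σV ⊤) a := by ring
      rw [h3]
      exact R.add_mem h1 (Subring.sum_mem _ fun i _ => hF i _)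
    · have h1 := hz' (Pi.single (Sum.inr b) 1)
      rw [lg₀.z_eq, GD.zs, zl_single_inr] at h1
      have h3 : G.y b = (G.y b - G.qs (G.σV ⊤) b) + G.qs (G.σV ⊤) b := by ring
      rw [h3]
      exact R.add_mem h1 (Subring.sum_mem _ fun i _ => R.mul_mem (hb.b0 _) (hF i _))
    · have h4 := R.mul_mem (hb.bτ (Sum.inr b)) hpt
      rwa [lg₀.L.τ_w, mul_assoc, mul_inv_cancel₀ lg₀.L.prodt_ne_zero, mul_one, lg₀.w_eq] at h4
  · intro V
    obtain ⟨lg⟩ := nonempty_lg G V
    obtain ⟨S⟩ := nonempty_ed lg.L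
    obtain ⟨C, hC𝒞, hCb, hCdet, hCprin⟩ := hE.cov _ (tot_of_val lg.L.τ_ne_zero lg.L.vτ)
    have hC := hE.cone C hC𝒞
    have hb : ∀ j, V.valuation (mon lg.L.τ (C.b j)) ≤ 1 := hCb
    have hCtx : Ctx lg.L M' C := ⟨hC, hb, fun u hu u' hu' => hSgn C hC𝒞 _
      (Finset.mem_image₂_of_mem hu hu'), (le_max_left _ _).trans (le_max_left _ _),
      (le_max_left _ _).trans ((le_max_right _ _).trans (le_max_left _ _)),
      (le_max_right _ _).trans ((le_max_right _ _).trans (le_max_left _ _)), fun b => by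
        have h1 : max (G.Nw b) (G.Nw b * Q p M) ≤ M' := (Finset.le_sup
          (f := fun b => max (G.Nw b) (G.Nw b * Q p M)) (Finset.mem_univ b)).trans
          (le_max_right _ _)
        exact ⟨(le_max_left _ _).trans h1, (le_max_right _ _).trans h1⟩⟩
    have hbase := base_vloc lg hCtx
    let _ : Algebra k (ResidueField V) := (resK k V (val_const_le V)).toAlgebra
    refine ⟨_, hbase.loc, ?_, ?_, isRegular_local S (compat_resK V (val_const_le V)) hCtx
      (isAlgebraic_chart lg hC) htr⟩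
    · intro s hs
      rcases hcase s hs with ⟨i, s', hs', rfl⟩ | ⟨c, rfl⟩ | ⟨α, rfl⟩ | rfl | ⟨S', hS', rfl⟩
      · exact hbase.prin_base i hs'
      · exact ⟨_, gen_sC lg hbase.b0 hbase.b1 c (hbase.bz c) (hbase.bt c)⟩
      · exact hbase.prin_s2 α
      · exact Pool.Agent.H96.W2.GData.prin_sK hbase.b0
      · rw [prin_eset_iff hε1 lg.L.τ_ne_zero hbase.gen_ss (gen_sL (G := G) hbase.b1)]
        exact hCprin _ (loc_of_vlocal lg.L.τ_ne_zero hbase.loc hbase.τ_mem)
          (fun j => subset_vloc (Algebra.subset_adjoin ⟨Sum.inl j, rfl⟩)) S' hS'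
    · intro R' hR' hs
      have hbase' := hdet V lg R' hR' hs
      apply vloc_le hR'
      apply adjoin_le_of
      rintro _ ⟨j | ⟨i, b⟩ | c | c, rfl⟩
      · exact hCdet _ (loc_of_vlocal lg.L.τ_ne_zero hR' hbase'.τ_mem) (fun S' hS' => by
          rw [← prin_eset_iff hε1 lg.L.τ_ne_zero hbase'.gen_ss (gen_sL (G := G) hbase'.b1)]
          exact hs _ (hm3 S' hS')) j
      · show lg.L.y i b ∈ R'
        rw [lg.y_eq]
        exact hbase'.b1 i _ (lg.y_le i b)
      · exact hbase'.bz c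
      · exact hbase'.b0 c

end Pool.Agent.H96.W4
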