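import Pool.Agent.H96.W4.Pres4
import Pool.Agent.H96.W2.CD

/-!
# The data attached to functions on a curve
-/

set_option autoImplicit false
set_option linter.unusedSectionVars false

namespace Pool.Agent.H96.W4

open MvPolynomial IsLocalRing Pool.Agent.H96.VL Pool.Agent.H96.W Pool.Agent.H96.W0
open Pool.Agent.H96.W2 (wp wp_sub wp_le val_const_le val_const Scalar)

/-- The hypothesis at a place. -/
def Sc (p : ℕ) {k F : Type} [Field k] [Field F] [Algebra k F] {m₁ m₂ : ℕ}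
    (Λ : Matrix (Fin m₁) (Fin m₁) k) (f : Fin m₁ → F) (e : F) (D : Fin m₂ → k)
    (W : ValuationSubring F) : Prop :=
  ∃ (φ : F) (c : Fin m₁ → k) (g : Fin m₁ → F),
    (W.valuation φ ≤ 1 ∨ ∀ y : F, W.valuation (y ^ p * φ) ≠ 1) ∧ (D ≠ 0 → ∃ q, φ = e - q ^ p) ∧
    ∀ a, W.valuation (f a - wp p Λ g a - algebraMap k F (c a) * φ) ≤ 1

/-- The local form of the functions at a place. -/
structure LF (p : ℕ) {k F : Type} [Field k] [Field F] [Algebra k F] {m₁ m₂ r : ℕ}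
    (Λ : Matrix (Fin m₁) (Fin m₁) k) (f : Fin m₁ → F) (e : F) (D : Fin m₂ → k) (h : Fin r → F)
    (g : Fin m₁ → F) (q : F) (M : ℕ) (W : ValuationSubring F) (τ : F)
    (ε : ℤ) (φ : F) (c : Fin m₁ → k) (κ : Fin r → ℤ) : Prop where
  εM : |ε| ≤ M
  ty : (c = 0 ∧ D = 0 ∧ ε = 0 ∧ W.valuation φ ≤ 1) ∨
    (ε = 0 ∧ τ = 1 ∧ c = 0 ∧ W.valuation φ ≤ 1) ∨
    (¬ (p : ℤ) ∣ ε ∧ W.valuation (φ * τ ^ (-ε)) = 1 ∧ Unif W τ ∧ (0 < ε → c = 0))
  φD : D ≠ 0 → φ = e - q ^ p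
  reg : ∀ a, W.valuation (f a - wp p Λ g a - algebraMap k F (c a) * φ) ≤ 1
  κM : ∀ b, |κ b| ≤ M
  κ1 : ∀ b, W.valuation (h b * τ ^ (-κ b)) = 1

theorem LF.mono {p : ℕ} {k F : Type} [Field k] [Field F] [Algebra k F] {m₁ m₂ r : ℕ}
    {Λ : Matrix (Fin m₁) (Fin m₁) k} {f : Fin m₁ → F} {e : F} {D : Fin m₂ → k} {h : Fin r → F}
    {g : Fin m₁ → F} {q : F} {M M' : ℕ} {W : ValuationSubring F} {τ : F}
    {ε : ℤ} {φ : F} {c : Fin m₁ → k} {κ : Fin r → ℤ}
    (H : LF p Λ f e D h g q M W τ ε φ c κ) (hM : M ≤ M') : LF p Λ f e D h g q M' W τ ε φ c κ :=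
  ⟨H.εM.trans (by exact_mod_cast hM), H.ty, H.φD, H.reg,
    fun b => (H.κM b).trans (by exact_mod_cast hM), H.κ1⟩

theorem LF.le {p : ℕ} {k F : Type} [Field k] [Field F] [Algebra k F] {m₁ m₂ r : ℕ}
    {Λ : Matrix (Fin m₁) (Fin m₁) k} {f : Fin m₁ → F} {e : F} {D : Fin m₂ → k} {h : Fin r → F}
    {g : Fin m₁ → F} {q : F} {M : ℕ} {W : ValuationSubring F} {τ : F}
    {ε : ℤ} {φ : F} {c : Fin m₁ → k} {κ : Fin r → ℤ}
    (H : LF p Λ f e D h g q M W τ ε φ c κ) : W.valuation (φ * τ ^ (-ε)) ≤ 1 := by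
  rcases H.ty with ⟨-, -, h1, h2⟩ | ⟨h1, -, -, h2⟩ | ⟨-, h2, -⟩
  · rw [h1, neg_zero, zpow_zero, mul_one]; exact h2
  · rw [h1, neg_zero, zpow_zero, mul_one]; exact h2
  · exact h2.le

/-- The data attached to the functions on a curve with function field `F`. -/
structure CD (p : ℕ) [Fact p.Prime] (k F : Type) [Field k] [Field F] [Algebra (ZMod p) F]
    [Algebra k F] {m₁ m₂ r : ℕ} (Λ : Matrix (Fin m₁) (Fin m₁) k) (f : Fin m₁ → F) (e : F)
    (D : Fin m₂ → k) (h : Fin r → F) (M Lo : ℕ) where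
  x : F
  g0 : Fin m₁ → F
  g1 : Fin m₁ → F
  q0 : F
  q1 : F
  N : ℕ
  base : Finset (Finset F)
  T : Finset F
  x0 : x ≠ 0
  zero_base : ∀ s ∈ base, 0 ∉ s ∧ s.Nonempty
  zero_T : 0 ∉ T
  detect : ∀ (W : ValuationSubring F) (R : Subring F), VLocal W R → (∀ s ∈ base, Prin R s) →
    ∀ w, W.valuation w ≤ 1 → w ∈ R
  loc : ∀ W : ValuationSubring F, ∃ τ : F, (τ = 1 ∨ Unif W τ) ∧
    (∀ g ∈ T, W.valuation g ≤ W.valuation (τ * tw x N W)) ∧
    (∃ g ∈ T, W.valuation g = W.valuation (τ * tw x N W)) ∧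
    (W.valuation x ≤ 1 → (∀ a, W.valuation (x ^ (Lo * N) * (g1 a - g0 a)) ≤ 1) ∧
      W.valuation (x ^ (Lo * N) * (q1 - q0)) ≤ W.valuation τ ^ Lo) ∧
    (¬ W.valuation x ≤ 1 → (∀ a, W.valuation ((g1 a - g0 a) / x ^ (Lo * N)) ≤ 1) ∧
      W.valuation ((q1 - q0) / x ^ (Lo * N)) ≤ W.valuation τ ^ Lo) ∧
    ∃ ε φ c κ, LF p Λ f e D h (fun a => gg x (g0 a) (g1 a) W) (gg x q0 q1 W) M W τ ε φ c κ ∧
      ∀ E : Finset F, (∀ s ∈ E, W.valuation s ≤ 1) → ∃ (n : ℕ) (y : Fin (n + 1) → F)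
        (G : Fin (n + 1) → MvPolynomial (Fin (n + 1)) (ZMod p)) (l : Fin (n + 1)),
        Pres W n y G l ∧ (∀ s ∈ E, ∃ b, y b = s) ∧ (Unif W τ → y l = τ) ∧
          (D ≠ 0 → τ = 1 → y l = φ)

/-- Monotonicity. -/
def CD.mono {p : ℕ} [Fact p.Prime] {k F : Type} [Field k] [Field F] [Algebra (ZMod p) F]
    [Algebra k F] {m₁ m₂ r : ℕ} {Λ : Matrix (Fin m₁) (Fin m₁) k} {f : Fin m₁ → F} {e : F}
    {D : Fin m₂ → k} {h : Fin r → F} {M M' Lo : ℕ} (H : CD p k F Λ f e D h M Lo) (hM : M ≤ M') :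
    CD p k F Λ f e D h M' Lo where
  x := H.x
  g0 := H.g0
  g1 := H.g1
  q0 := H.q0
  q1 := H.q1
  N := H.N
  base := H.base
  T := H.T
  x0 := H.x0
  zero_base := H.zero_base
  zero_T := H.zero_T
  detect := H.detect
  loc := by
    intro W
    obtain ⟨τ, h0, h1, h2, h3, h4, ε, φ, c, κ, h5, h6⟩ := H.loc W
    exact ⟨τ, h0, h1, h2, h3, h4, ε, φ, c, κ, h5.mono hM, h6⟩

/-- The data without inseparable part. -/
theorem nonempty_cd_zero (p : ℕ) [Fact p.Prime] (k F : Type) [Field k] [Finite k] [Field F]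
    [Algebra (ZMod p) F] [Algebra k F] [Algebra.EssFiniteType (ZMod p) F]
    (htr : Algebra.trdeg (ZMod p) F = 1) {m₁ m₂ r : ℕ} (Λ : Matrix (Fin m₁) (Fin m₁) k)
    (f : Fin m₁ → F) (e : F) (D : Fin m₂ → k) (hD : D = 0) (h : Fin r → F) (hh : ∀ b, h b ≠ 0)
    (hf : ∀ W : ValuationSubring F, W ≠ ⊤ → Sc p Λ f e D W) :
    ∃ M : ℕ, ∀ Lo : ℕ, 1 ≤ Lo → Nonempty (CD p k F Λ f e D h M Lo) := by
  obtain ⟨C⟩ := Pool.Agent.H96.W2.nonempty_cdata p k F htr Λ f h hh (fun W hW => by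
    obtain ⟨φ, c, g, h1, -, h3⟩ := hf W hW
    exact ⟨φ, c, g, h1, h3⟩)
  refine ⟨C.M, fun Lo hLo => ⟨⟨C.x, C.g0, C.g1, 0, 0, C.N, C.base, C.T, C.x0, C.zero_base, C.zero_T,
    C.detect, fun W => ?_⟩⟩⟩
  obtain ⟨τ, h1, h2, h3, e', φ, c, κ, h4⟩ := C.unif W
  have hLN : Lo * C.N = (Lo - 1) * C.N + C.N := by
    obtain ⟨L, rfl⟩ := Nat.exists_eq_add_of_le' hLo
    rw [Nat.add_sub_cancel]; ring
  refine ⟨τ, h1, h2, h3, fun hW => ⟨fun a => ?_, ?_⟩, fun hW => ⟨fun a => ?_, ?_⟩, -(e' : ℤ), φ, c, κ,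
    ⟨?_, ?_, fun h => absurd hD h, h4.reg, h4.κM, h4.κ1⟩, fun E hE => ?_⟩
  · rw [hLN, pow_add, mul_assoc, map_mul, map_pow]
    exact mul_le_one' (pow_le_one' hW _) (C.h_le W hW a)
  · rw [sub_zero, mul_zero, map_zero]; exact zero_le
  · have hW' := (not_le.mp hW).le
    rw [hLN, pow_add, mul_comm (C.x ^ ((Lo - 1) * C.N)), ← div_div, map_div₀, map_pow]
    exact div_le_one_of_le₀ ((C.h_gt W hW' a).trans (one_le_pow₀ hW')) zero_le
  · rw [sub_zero, zero_div, map_zero]; exact zero_le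
  · rw [abs_neg, Nat.abs_cast]; exact_mod_cast h4.eM
  · by_cases he : e' = 0
    · left
      refine ⟨h4.e0 he, hD, by rw [he]; simp, ?_⟩
      have h5 := h4.le
      rwa [he, pow_zero, mul_one] at h5
    · right; right
      obtain ⟨h5, h6, h7⟩ := h4.e1 he
      refine ⟨fun h8 => h5 ?_, by rw [neg_neg, zpow_natCast]; exact h6, h7, fun h8 => ?_⟩
      · rw [dvd_neg] at h8
        exact_mod_cast h8
      · exfalso
        have : (0 : ℤ) ≤ e' := Int.natCast_nonneg _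
        omega
  · obtain ⟨n, y, G, l, h5, h6, h7⟩ := C.pres W τ h1 E hE
    exact ⟨n, y, G, l, h5, h6, h7, fun h => absurd hD h⟩

section Loc

variable {p : ℕ} [Fact p.Prime] {k : Type} [Field k] [Finite k] {R F : Type} [CommRing R]
  [IsDedekindDomain R] [Field F] [Algebra R F] [IsFractionRing R F] [Algebra k F] [CharP F p]
  [Algebra (ZMod p) R] [Algebra.FiniteType (ZMod p) R]
  {m₁ m₂ r : ℕ} {Λ : Matrix (Fin m₁) (Fin m₁) k} {W : ValuationSubring F}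

/-- The local form at a place. -/
theorem exists_loc4 {t : R} (ht : Place W t) {f : Fin m₁ → F} {e : F} {D : Fin m₂ → k}
    {h : Fin r → F} (hh : ∀ b, h b ≠ 0) (hD : D ≠ 0)
    (hA : algebraMap R F t ∈ pring p (⊤ : Subring F) e) (he : ∀ a : F, a ^ p ≠ e)
    (hf : Sc p Λ f e D W) :
    ∃ (g : Fin m₁ → F) (q : F) (M : ℕ), ∀ (g' : Fin m₁ → F) (q' : F),
      (∀ a, W.valuation (g' a - g a) ≤ 1) → ∀ τ, Unif W τ →
      W.valuation (q' - q) ≤ W.valuation τ ^ (M + 1) →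
      ∃ ε c κ, LF p Λ f e D h g' q' M W τ ε (e - q' ^ p) c κ := by
  have hp : p.Prime := Fact.out
  have hvt := ht.vt0
  obtain ⟨g, q, ε, c, hpε, hε, hε0, hreg⟩ : ∃ (g : Fin m₁ → F) (q : F) (ε : ℤ) (c : Fin m₁ → k),
      ¬ (p : ℤ) ∣ ε ∧ W.valuation (e - q ^ p) = W.valuation (algebraMap R F t) ^ ε ∧
      (0 < ε → c = 0) ∧ ∀ a, W.valuation (f a - wp p Λ g a - algebraMap k F (c a) * (e - q ^ p)) ≤
        1 := by
    obtain ⟨φ, c₁, g₁, h1, h2, h3⟩ := hf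
    obtain ⟨q₁, rfl⟩ := h2 hD
    by_cases hφ : W.valuation (e - q₁ ^ p) ≤ 1
    · obtain ⟨q₂, ε₂, h4, h5⟩ := exists_local_gauge ht hA he
      refine ⟨g₁, q₂, ε₂, 0, h4, h5, fun _ => rfl, fun a => ?_⟩
      have h6 : f a - wp p Λ g₁ a - algebraMap k F ((0 : Fin m₁ → k) a) * (e - q₂ ^ p) =
          (f a - wp p Λ g₁ a - algebraMap k F (c₁ a) * (e - q₁ ^ p)) +
            algebraMap k F (c₁ a) * (e - q₁ ^ p) := by
        rw [Pi.zero_apply, map_zero]; ring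
      rw [h6]
      refine (W.valuation.map_add _ _).trans (max_le (h3 a) ?_)
      rw [map_mul]
      exact mul_le_one' (val_const_le W _) hφ
    · rw [not_le] at hφ
      have hφ0 : e - q₁ ^ p ≠ 0 := by
        intro h0
        rw [h0, map_zero] at hφ
        exact absurd hφ (not_lt.mpr zero_le_one)
      obtain ⟨z, hz⟩ := exists_zpow ht hφ0
      refine ⟨g₁, q₁, z, c₁, ?_, hz, fun hz0 => ?_, h3⟩
      · rintro ⟨e', rfl⟩
        rcases h1 with h1 | h1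
        · exact absurd h1 (not_le.mpr hφ)
        · apply h1 (algebraMap R F t ^ (-e'))
          rw [map_mul, map_pow, map_zpow₀, hz, ← zpow_natCast, ← zpow_mul, ← zpow_add₀ hvt.ne']
          have : -e' * (p : ℤ) + (p : ℤ) * e' = 0 := by ring
          rw [this, zpow_zero]
      · exfalso
        rw [hz] at hφ
        have h4 := (vzpow_le ht (m := z) (n := 0)).mpr hz0.le
        rw [zpow_zero] at h4
        exact absurd hφ (not_lt.mpr h4)
  choose κ hκ using fun b => exists_zpow ht (hh b)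
  have hκ' : ∀ τ, Unif W τ → ∀ b, W.valuation (h b * τ ^ (-κ b)) = 1 := by
    intro τ hτ b
    rw [map_mul, map_zpow₀, unif_eq hτ ht.unif, hκ, ← zpow_add₀ hvt.ne', add_neg_cancel, zpow_zero]
  set M₀ : ℕ := Finset.univ.sup fun b => (κ b).natAbs with hM₀
  have hκM : ∀ b, |κ b| ≤ (M₀ : ℤ) := by
    intro b
    rw [Int.abs_eq_natAbs]
    exact_mod_cast Finset.le_sup (f := fun b => (κ b).natAbs) (Finset.mem_univ b)
  refine ⟨g, q, max M₀ ε.natAbs, fun g' q' hg' τ hτ hq' => ⟨ε, c, κ, ?_⟩⟩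
  have hττ : W.valuation τ = W.valuation (algebraMap R F t) := unif_eq hτ ht.unif
  have h1 : e - q' ^ p = (e - q ^ p) - (q' - q) ^ p := by
    rw [sub_pow_char]; ring
  have h2 : W.valuation ((q' - q) ^ p) < W.valuation (e - q ^ p) := by
    rw [hε, map_pow]
    calc W.valuation (q' - q) ^ p ≤ (W.valuation τ ^ (max M₀ ε.natAbs + 1)) ^ p :=
          pow_le_pow_left' hq' _
      _ = W.valuation (algebraMap R F t) ^ ((max M₀ ε.natAbs + 1) * p) := by
          rw [hττ, ← pow_mul]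
      _ = W.valuation (algebraMap R F t) ^ (((max M₀ ε.natAbs + 1) * p : ℕ) : ℤ) :=
          (zpow_natCast _ _).symm
      _ < W.valuation (algebraMap R F t) ^ ε := by
        rw [vzpow_lt ht]
        have h8 : ε.natAbs + 1 ≤ (max M₀ ε.natAbs + 1) * p := by
          calc ε.natAbs + 1 ≤ max M₀ ε.natAbs + 1 := Nat.add_le_add_right (le_max_right _ _) _
            _ ≤ (max M₀ ε.natAbs + 1) * p := Nat.le_mul_of_pos_right _ hp.pos
        omega
  have h3 : W.valuation (e - q' ^ p) = W.valuation (algebraMap R F t) ^ ε := by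
    rw [h1, W.valuation.map_sub_eq_of_lt_left h2, hε]
  refine ⟨?_, Or.inr (Or.inr ⟨hpε, ?_, hτ, hε0⟩), fun _ => rfl, fun a => ?_,
    fun b => (hκM b).trans (by exact_mod_cast le_max_left _ _), hκ' τ hτ⟩
  · rw [Int.abs_eq_natAbs]
    exact_mod_cast le_max_right _ _
  · rw [map_mul, h3, map_zpow₀, hττ, ← zpow_add₀ hvt.ne', add_neg_cancel, zpow_zero]
  · have h4 : f a - wp p Λ g' a - algebraMap k F (c a) * (e - q' ^ p) =
        (f a - wp p Λ g a - algebraMap k F (c a) * (e - q ^ p)) - wp p Λ (fun b => g' b - g b) a +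
          algebraMap k F (c a) * (q' - q) ^ p := by
      rw [wp_sub, h1]; ring
    have h5 : W.valuation ((q' - q) ^ p) ≤ 1 := by
      rw [map_pow]
      exact pow_le_one' (hq'.trans (pow_le_one' hτ.lt.le _)) _
    rw [h4]
    refine (W.valuation.map_add _ _).trans (max_le ((W.valuation.map_sub _ _).trans
      (max_le (hreg a) (wp_le hg' a))) ?_)
    rw [map_mul]
    exact mul_le_one' (val_const_le W _) h5

/-- **Global gauges.** -/
theorem exists_gauge4 {b : R} (hb : b ≠ 0) {f : Fin m₁ → F} {e : F} {D : Fin m₂ → k}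
    {h : Fin r → F} (hh : ∀ b, h b ≠ 0) (hD : D ≠ 0)
    (hA : ∀ w : F, w ∈ pring p (⊤ : Subring F) e) (he : ∀ a : F, a ^ p ≠ e)
    (hf : ∀ W : ValuationSubring F, Le R W → W.valuation (algebraMap R F b) < 1 →
      Sc p Λ f e D W) :
    ∃ M : ℕ, ∀ (Lo : ℕ) (P : ValuationSubring F → Prop) (g₀ : Fin m₁ → F) (q₀ : F),
      ∃ (g : Fin m₁ → F) (q : F),
        (∀ a, ∃ (N : ℕ) (s : R), algebraMap R F b ^ N * g a = algebraMap R F s) ∧
        (∃ (N : ℕ) (s : R), algebraMap R F b ^ N * q = algebraMap R F s) ∧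
        ∀ W : ValuationSubring F, Le R W → W.valuation (algebraMap R F b) < 1 → ∀ t, Unif W t →
          (P W → ∃ ε c κ, LF p Λ f e D h (fun a => g₀ a + g a) (q₀ + q) M W t ε
            (e - (q₀ + q) ^ p) c κ) ∧
          (¬ P W → (∀ a, W.valuation (g a) ≤ 1) ∧ W.valuation q ≤ W.valuation t ^ Lo) := by
  classical
  have hloc : ∀ W : ValuationSubring F, ∃ (g : Fin m₁ → F) (q : F) (M : ℕ), Le R W →
      W.valuation (algebraMap R F b) < 1 → ∀ (g' : Fin m₁ → F) (q' : F),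
      (∀ a, W.valuation (g' a - g a) ≤ 1) → ∀ τ, Unif W τ →
      W.valuation (q' - q) ≤ W.valuation τ ^ (M + 1) →
      ∃ ε c κ, LF p Λ f e D h g' q' M W τ ε (e - q' ^ p) c κ := by
    intro W
    by_cases hW : Le R W ∧ W.valuation (algebraMap R F b) < 1
    · have hq0 : cen W hW.1 ≠ ⊥ := by
        intro h0
        have h1 : b ∈ cen W hW.1 := hW.2
        rw [h0] at h1
        exact hb h1
      obtain ⟨t, ht⟩ := exists_place hW.1 hq0
      obtain ⟨g, q, M, hM⟩ := exists_loc4 (h := h) ht hh hD (hA _) he (hf W hW.1 hW.2)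
      exact ⟨g, q, M, fun _ _ => hM⟩
    · exact ⟨0, 0, 0, fun h1 h2 => absurd ⟨h1, h2⟩ hW⟩
  choose gW qW MW hW using hloc
  set s := (finite_special (F := F) hb).toFinset with hs
  have hmem : ∀ W : {W : ValuationSubring F // Le R W}, W ∈ s ↔
      W.1.valuation (algebraMap R F b) < 1 := by
    intro W
    rw [hs, Set.Finite.mem_toFinset]
    rfl
  refine ⟨s.sup fun W => MW W.1, fun Lo P g₀ q₀ => ?_⟩
  set M := s.sup fun W => MW W.1 with hM
  obtain ⟨q, Nq, sq, hq1, hq2⟩ := exists_approx hb (fun W => if P W then qW W - q₀ else 0)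
    (max Lo (M + 1))
  have happ : ∀ a, ∃ (h : F) (N : ℕ) (e : R), algebraMap R F b ^ N * h = algebraMap R F e ∧
      ∀ W : ValuationSubring F, Le R W → W.valuation (algebraMap R F b) < 1 → ∀ t, Unif W t →
        W.valuation (h - (if P W then gW W a - g₀ a else 0)) ≤ W.valuation t ^ 0 := fun a =>
    exists_approx hb (fun W => if P W then gW W a - g₀ a else 0) 0
  choose g Ng sg hg1 hg2 using happ
  refine ⟨g, q, fun a => ⟨Ng a, sg a, hg1 a⟩, ⟨Nq, sq, hq1⟩, fun W hWR hbW t ht => ⟨fun hP => ?_,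
    fun hP => ⟨fun a => ?_, ?_⟩⟩⟩
  · have hle : MW W ≤ M := Finset.le_sup (f := fun W : {W : ValuationSubring F // Le R W} =>
      MW W.1) ((hmem ⟨W, hWR⟩).mpr hbW)
    have h3 := hq2 W hWR hbW t ht
    simp only [if_pos hP] at h3
    obtain ⟨ε, c, κ, h4⟩ := hW W hWR hbW (fun a => g₀ a + g a) (q₀ + q) (fun a => by
      have h5 := hg2 a W hWR hbW t ht
      rw [if_pos hP, pow_zero] at h5
      have h6 : g₀ a + g a - gW W a = g a - (gW W a - g₀ a) := by ring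
      rw [h6]
      exact h5) t ht (by
      have h6 : q₀ + q - qW W = q - (qW W - q₀) := by ring
      rw [h6]
      refine h3.trans (pow_le_pow_right_of_le_one' ht.lt.le ?_)
      exact (Nat.add_le_add_right hle 1).trans (le_max_right _ _))
    exact ⟨ε, c, κ, h4.mono hle⟩
  · have h5 := hg2 a W hWR hbW t ht
    rwa [if_neg hP, pow_zero, sub_zero] at h5
  · have h3 := hq2 W hWR hbW t ht
    simp only [if_neg hP] at h3
    rw [sub_zero] at h3
    exact h3.trans (pow_le_pow_right_of_le_one' ht.lt.le (le_max_left _ _))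

end Loc

/-- Bounds by powers of `x`. -/
theorem exists_tw_bd {p : ℕ} [Fact p.Prime] {F : Type} [Field F] [Algebra (ZMod p) F] {x : F}
    {A₀ A₁ : Subalgebra (ZMod p) F} (hx0 : x ≠ 0) (hA₀ : IsChart x A₀) (hA₁ : IsChart x⁻¹ A₁)
    {w : F} (hw : ∀ W : ValuationSubring F, W.valuation x = 1 → W.valuation w ≤ 1) :
    ∃ n : ℕ, ∀ j, n ≤ j → (∀ W : ValuationSubring F, W.valuation x ≤ 1 →
      W.valuation (x ^ j * w) ≤ 1) ∧
      ∀ W : ValuationSubring F, 1 ≤ W.valuation x → W.valuation (w / x ^ j) ≤ 1 := by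
  have d0 := hA₀.ded
  have e0 := hA₀.frac
  have d1 := hA₁.ded
  have e1 := hA₁.frac
  set X : A₀ := ⟨x, hA₀.mem⟩ with hX
  have hXF : algebraMap A₀ F X = x := rfl
  set ξ : A₁ := ⟨x⁻¹, hA₁.mem⟩ with hξ
  have hξF : algebraMap A₁ F ξ = x⁻¹ := rfl
  obtain ⟨N1, c1', hh1⟩ := exists_pow_den (R := A₀) X w (by
    intro W hW hv
    rw [hXF] at hv
    exact hw W hv)
  rw [hXF] at hh1
  obtain ⟨N2, c2, hh2⟩ := exists_pow_den (R := A₁) ξ w (by
    intro W hW hv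
    rw [hξF, map_inv₀, inv_eq_one] at hv
    exact hw W hv)
  rw [hξF] at hh2
  refine ⟨max N1 N2, fun j hj => ⟨fun W hW => ?_, fun W hW => ?_⟩⟩
  · have h1 : x ^ j * w = x ^ (j - N1) * (x ^ N1 * w) := by
      rw [← mul_assoc, ← pow_add]
      congr 2
      have := le_max_left N1 N2
      omega
    rw [h1, hh1, map_mul, map_pow]
    exact mul_le_one' (pow_le_one' hW _) (hA₀.le hW c1')
  · have h1 : w / x ^ j = x⁻¹ ^ (j - N2) * (x⁻¹ ^ N2 * w) := by
      rw [← mul_assoc, ← pow_add]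
      have h6 : j - N2 + N2 = j := by
        have := le_max_right N1 N2
        omega
      rw [h6, inv_pow, div_eq_mul_inv, mul_comm]
    have h2 := (val_inv_le hx0).mpr hW
    rw [h1, hh2, map_mul, map_pow]
    exact mul_le_one' (pow_le_one' h2 _) (hA₁.le h2 c2)

end Pool.Agent.H96.W4
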