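import Pool.Agent.H96.W.Ech

/-!
# Echelon data with coordinates and functions as pivots
-/

set_option autoImplicit false
set_option linter.unusedSectionVars false

namespace Pool.Agent.H96.W4

open Pool.Agent.H96.W

/-- Dual vectors. -/
theorem exists_dual {k κ σ : Type} [Field k] [DecidableEq κ] [Fintype σ] [DecidableEq σ]
    (J : Finset κ) (v : κ → σ → k) (h : LinearIndepOn k v (J : Set κ)) :
    ∃ μ : κ → σ → k, ∀ j ∈ J, ∀ j' ∈ J, μ j ⬝ᵥ v j' = if j = j' then 1 else 0 := by
  have hinj : Function.Injective (Fintype.linearCombination k (fun j : J => v j)) := by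
    have h1 : LinearIndependent k (fun j : J => v j) := h
    exact h1.fintypeLinearCombination_injective
  obtain ⟨φ, hφ⟩ := LinearMap.exists_leftInverse_of_injective _
    (LinearMap.ker_eq_bot.mpr hinj)
  refine ⟨fun j a => if hj : j ∈ J then φ (Pi.single a 1) ⟨j, hj⟩ else 0, fun j hj j' hj' => ?_⟩
  have h1 : φ (v j') = Pi.single ⟨j', hj'⟩ 1 := by
    have h2 := LinearMap.congr_fun hφ (Pi.single (⟨j', hj'⟩ : J) (1 : k))
    rw [LinearMap.comp_apply, Fintype.linearCombination_apply_single, one_smul] at h2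
    exact h2
  have h2 : v j' = ∑ a, v j' a • (Pi.single a (1 : k) : σ → k) := by
    funext b
    rw [Finset.sum_apply, Finset.sum_eq_single b]
    · simp
    · intro c _ hc
      rw [Pi.smul_apply, Pi.single_eq_of_ne (Ne.symm hc), smul_zero]
    · intro h; exact absurd (Finset.mem_univ _) h
  have h3 : φ (v j') ⟨j, hj⟩ = ∑ a, φ (Pi.single a 1) ⟨j, hj⟩ * v j' a := by
    conv_lhs => rw [h2]
    rw [map_sum, Finset.sum_apply]
    refine Finset.sum_congr rfl fun a _ => ?_
    rw [map_smul, Pi.smul_apply, smul_eq_mul, mul_comm]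
  rw [dotProduct]
  simp only [dif_pos hj]
  rw [← h3, h1, Pi.single_apply]
  simp only [Subtype.mk.injEq]

/-- The functionals. -/
def ell {k I σ : Type} [Field k] [Fintype σ] (a : (σ → k) → (σ → k) → k)
    (P : (σ → k) →ₗ[k] (σ → k)) (δ : I → σ → k) (d : σ → k) : (σ → k) ⊕ I → k :=
  Sum.elim (fun b => a (P d) b) fun i => d ⬝ᵥ δ i

variable {k I σ : Type} [Field k] [Fintype I] [DecidableEq I] [Fintype σ] [DecidableEq σ]

/-- **The echelon data.** -/
theorem exists_echelon4 [Finite k] {Γ Γ' : Type} [LinearOrder Γ] [LinearOrder Γ']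
    (P : (σ → k) →ₗ[k] (σ → k)) (δ : I → σ → k) (psz : (σ → k) ⊕ I → Γ')
    (C₀ K₀ : Submodule k (σ → k)) (sz : (σ → k) → Γ)
    (hK : ∀ d, P d ∈ C₀ → (∀ i, d ⬝ᵥ δ i = 0) → d ∈ K₀)
    (hfin : Module.finrank k K₀ ≤ Module.finrank k C₀) :
    ∃ (B : Finset (σ → k)) (a : (σ → k) → (σ → k) → k)
      (J : Finset ((σ → k) ⊕ I)) (μ : (σ → k) ⊕ I → σ → k),
      (∀ c b, a c b ≠ 0 → b ∈ B ∧ sz b ≤ sz c) ∧
      (∀ c, c - ∑ b ∈ B, a c b • b ∈ C₀) ∧
      (∀ c ∈ C₀, ∀ b, a c b = 0) ∧
      (∀ b, Sum.inl b ∈ J → b ∈ B) ∧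
      (∀ j ∈ J, ell a P δ (μ j) j = 1) ∧ (∀ j ∈ J, ∀ j' ∈ J, j ≠ j' → ell a P δ (μ j) j' = 0) ∧
      (∀ j ∈ J, ∀ b, a (P (μ j)) b ≠ 0 → psz (Sum.inl b) ≤ psz j) ∧
      (∀ j ∈ J, ∀ i, μ j ⬝ᵥ δ i ≠ 0 → psz (Sum.inr i) ≤ psz j) ∧
      B.card ≤ J.card := by
  classical
  let _ := Fintype.ofFinite k
  obtain ⟨B, -, hB1, hB2⟩ := exists_greedy (k := k) (Finset.univ : Finset (σ → k)) sz
    (fun c => C₀.mkQ c)
  have hinj : Function.Injective (Fintype.linearCombination k (fun j : B => C₀.mkQ (j : σ → k))) := by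
    have h1 : LinearIndependent k (fun j : B => C₀.mkQ (j : σ → k)) := hB1
    exact h1.fintypeLinearCombination_injective
  obtain ⟨φ, hφ⟩ := LinearMap.exists_leftInverse_of_injective _ (LinearMap.ker_eq_bot.mpr hinj)
  -- the coefficients
  set a : (σ → k) → (σ → k) → k := fun c b =>
    if hb : b ∈ B then φ (C₀.mkQ c) ⟨b, hb⟩ else 0 with ha
  have hrep : ∀ c, ∃ v : B → k, (∀ b, v b ≠ 0 → sz b ≤ sz c) ∧
      C₀.mkQ c = Fintype.linearCombination k (fun j : B => C₀.mkQ (j : σ → k)) v := by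
    intro c
    have h1 := hB2 c (Finset.mem_univ _)
    set Bc := B.filter fun b => sz b ≤ sz c with hBc
    have h2 : {b | b ∈ B ∧ sz b ≤ sz c} = (Bc : Set (σ → k)) := by
      ext b; simp [hBc]
    rw [h2, Submodule.mem_span_image_finset_iff_exists_fun'] at h1
    obtain ⟨w, hw⟩ := h1
    refine ⟨fun b => if sz (b : σ → k) ≤ sz c then w b else 0, fun b hb => ?_, ?_⟩
    · by_contra h3
      exact hb (if_neg h3)
    · rw [Fintype.linearCombination_apply]
      have h3 : ∑ b : B, (if sz (b : σ → k) ≤ sz c then w b else 0) • C₀.mkQ (b : σ → k) =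
          ∑ b ∈ B, (if sz b ≤ sz c then w b else 0) • C₀.mkQ b :=
        Finset.sum_coe_sort B (fun b => (if sz b ≤ sz c then w b else 0) • C₀.mkQ b)
      rw [h3, ← hw, hBc, Finset.sum_filter]
      refine Finset.sum_congr rfl fun b _ => ?_
      split_ifs
      · rfl
      · rw [zero_smul]
  have hφv : ∀ v : B → k,
      φ (Fintype.linearCombination k (fun j : B => C₀.mkQ (j : σ → k)) v) = v := fun v =>
    LinearMap.congr_fun hφ v
  have ha1 : ∀ c b, a c b ≠ 0 → b ∈ B ∧ sz b ≤ sz c := by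
    intro c b hb
    by_cases hbB : b ∈ B
    · refine ⟨hbB, ?_⟩
      obtain ⟨v, hv1, hv2⟩ := hrep c
      have h1 : a c b = v ⟨b, hbB⟩ := by
        show (if hb : b ∈ B then φ (C₀.mkQ c) ⟨b, hb⟩ else 0) = _
        rw [dif_pos hbB, hv2, hφv]
      rw [h1] at hb
      exact hv1 _ hb
    · exfalso
      apply hb
      show (if hb : b ∈ B then φ (C₀.mkQ c) ⟨b, hb⟩ else 0) = _
      rw [dif_neg hbB]
  have ha2 : ∀ c, c - ∑ b ∈ B, a c b • b ∈ C₀ := by
    intro c
    rw [← Submodule.Quotient.mk_eq_zero C₀]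
    show C₀.mkQ (c - ∑ b ∈ B, a c b • b) = 0
    obtain ⟨v, hv1, hv2⟩ := hrep c
    rw [map_sub, map_sum, sub_eq_zero, hv2, Fintype.linearCombination_apply,
      ← Finset.sum_coe_sort B]
    refine Finset.sum_congr rfl fun b _ => ?_
    rw [map_smul]
    congr 1
    show _ = (if hb : (b : σ → k) ∈ B then φ (C₀.mkQ c) ⟨b, hb⟩ else 0)
    rw [dif_pos b.2, hv2, hφv]
  have ha3 : ∀ c ∈ C₀, ∀ b, a c b = 0 := by
    intro c hc b
    by_cases hb : b ∈ B
    · have h1 : a c b = φ (C₀.mkQ c) ⟨b, hb⟩ := dif_pos hb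
      rw [h1, Submodule.mkQ_apply, (Submodule.Quotient.mk_eq_zero C₀).mpr hc, map_zero]
      rfl
    · exact dif_neg hb
  -- linearity
  have halin : ∀ b, ∀ d : σ → k, a (P d) b = d ⬝ᵥ fun e => a (P (Pi.single e 1)) b := by
    intro b d
    by_cases hb : b ∈ B
    · have h1 : ∀ c, a c b = φ (C₀.mkQ c) ⟨b, hb⟩ := fun c => dif_pos hb
      rw [h1, dotProduct]
      have h2 : d = ∑ e, d e • (Pi.single e (1 : k) : σ → k) := by
        funext b
        rw [Finset.sum_apply, Finset.sum_eq_single b]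
        · simp
        · intro c _ hc
          rw [Pi.smul_apply, Pi.single_eq_of_ne (Ne.symm hc), smul_zero]
        · intro h; exact absurd (Finset.mem_univ _) h
      conv_lhs => rw [h2]
      rw [map_sum, map_sum, map_sum, Finset.sum_apply]
      refine Finset.sum_congr rfl fun e _ => ?_
      rw [map_smul, map_smul, map_smul, Pi.smul_apply, smul_eq_mul, h1]
    · have h1 : ∀ c, a c b = 0 := fun c => dif_neg hb
      rw [h1, dotProduct]
      exact (Finset.sum_eq_zero fun e _ => by rw [h1, mul_zero]).symm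
  set D' : (σ → k) ⊕ I → σ → k :=
    Sum.elim (fun b e => a (P (Pi.single e 1)) b) δ with hD'
  have hell : ∀ d s, d ⬝ᵥ D' s = ell a P δ d s := by
    rintro d (b | i)
    · exact (halin b d).symm
    · rfl
  set S : Finset ((σ → k) ⊕ I) := B.image Sum.inl ∪ Finset.univ.image Sum.inr with hS
  have hSl : ∀ b, Sum.inl b ∈ S ↔ b ∈ B := by
    intro b; simp [hS]
  have hSr : ∀ i, Sum.inr i ∈ S := by
    intro i; simp [hS]
  obtain ⟨J, hJ0, hJ1, hJ2⟩ := exists_greedy (k := k) S (fun i => OrderDual.toDual (psz i)) D'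
  obtain ⟨μ, hμ⟩ := exists_dual J D' hJ1
  -- the common kernel
  let lam : (σ → k) →ₗ[k] (J → k) :=
    { toFun := fun c j => c ⬝ᵥ D' j
      map_add' := fun c c' => by funext j; exact add_dotProduct _ _ _
      map_smul' := fun a c => by funext j; exact smul_dotProduct _ _ _ }
  have hkS : ∀ c ∈ LinearMap.ker lam, ∀ s ∈ S, c ⬝ᵥ D' s = 0 := by
    intro c hc i hi
    have h1 := hJ2 i hi
    have h2 : ∀ v ∈ Submodule.span k (D' '' {b | b ∈ J ∧
        OrderDual.toDual (psz b) ≤ OrderDual.toDual (psz i)}), c ⬝ᵥ v = 0 := by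
      intro v hv
      induction hv using Submodule.span_induction with
      | mem x hx =>
        obtain ⟨j, hj, rfl⟩ := hx
        have h1 : lam c = 0 := hc
        exact congrFun h1 ⟨j, hj.1⟩
      | zero => exact dotProduct_zero _
      | add x y _ _ hx hy => rw [dotProduct_add, hx, hy, add_zero]
      | smul a x _ hx => rw [dotProduct_smul, hx, smul_zero]
    exact h2 _ h1
  have hker : LinearMap.ker lam ≤ K₀ := by
    intro c hc
    refine hK c ?_ fun i => hkS c hc (Sum.inr i) (hSr i)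
    have h1 := ha2 (P c)
    have h2 : ∑ b ∈ B, a (P c) b • b = 0 := Finset.sum_eq_zero fun b hb => by
      have h3 := hkS c hc (Sum.inl b) ((hSl b).mpr hb)
      rw [hell] at h3
      have h4 : a (P c) b = 0 := h3
      rw [h4, zero_smul]
    rwa [h2, sub_zero] at h1
  have hmax : ∀ j ∈ J, ∀ s ∈ S, μ j ⬝ᵥ D' s ≠ 0 → psz s ≤ psz j := by
    intro j hj i hi hne
    by_contra hlt
    apply hne
    have h1 := hJ2 i hi
    have h2 : ∀ v ∈ Submodule.span k (D' '' {b | b ∈ J ∧
        OrderDual.toDual (psz b) ≤ OrderDual.toDual (psz i)}), μ j ⬝ᵥ v = 0 := by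
      intro v hv
      induction hv using Submodule.span_induction with
      | mem x hx =>
        obtain ⟨j', hj', rfl⟩ := hx
        rw [hμ j hj j' hj'.1, if_neg]
        rintro rfl
        exact hlt hj'.2
      | zero => exact dotProduct_zero _
      | add x y _ _ hx hy => rw [dotProduct_add, hx, hy, add_zero]
      | smul a x _ hx => rw [dotProduct_smul, hx, smul_zero]
    exact h2 _ h1
  refine ⟨B, a, J, μ, ha1, ha2, ha3, fun b hb => (hSl b).mp (hJ0 hb), ?_, ?_, ?_, ?_, ?_⟩
  · intro j hj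
    rw [← hell]
    exact (hμ j hj j hj).trans (if_pos rfl)
  · intro j hj j' hj' hne
    rw [← hell]
    exact (hμ j hj j' hj').trans (if_neg hne)
  · intro j hj b hne
    refine hmax j hj (Sum.inl b) ((hSl b).mpr (ha1 _ _ hne).1) ?_
    rw [hell]
    exact hne
  · intro j hj i hne
    refine hmax j hj (Sum.inr i) (hSr i) ?_
    rw [hell]
    exact hne
  · have h2 := Submodule.finrank_quotient_add_finrank C₀
    have h3 : B.card ≤ Module.finrank k ((σ → k) ⧸ C₀) := by
      have h4 : LinearIndependent k (fun b : B => C₀.mkQ (b : σ → k)) := hB1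
      have := h4.fintype_card_le_finrank
      rwa [Fintype.card_coe] at this
    have h1 := LinearMap.finrank_range_add_finrank_ker lam
    have h4 : Module.finrank k (LinearMap.range lam) ≤ J.card := by
      have := Submodule.finrank_le (LinearMap.range lam)
      rwa [Module.finrank_pi, Fintype.card_coe] at this
    have h5 := Submodule.finrank_mono hker
    omega

end Pool.Agent.H96.W4
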