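import Pool.Agent.H96.W4.Glob4
import Pool.Agent.H96.W2.Final

/-!
# Covers of products of curves in block form
-/

set_option autoImplicit false
set_option linter.unusedSectionVars false

namespace Pool.Agent.H96.W4

open Pool.Agent.H19.OG Pool.Agent.H96.W
open Pool.Agent.H96.W2 (wp trdeg_zmod val_const val_const_le)

/-- **Models of fields generated by independent function fields of curves, Artin–Schreier elements,
inseparable elements and Kummer elements.** -/
theorem hasCharts_block (p : ℕ) [Fact p.Prime] (k : Type) [Field k] [Finite k] [CharP k p]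
    (K : Type) [Field K] [Algebra k K] (n m₁ m₂ r : ℕ)
    (F : Fin n → IntermediateField k K)
    (hF : ∀ i, (F i).FG ∧ Algebra.trdeg k (F i) = 1)
    (htr : Algebra.trdeg k K = n) (Λ : Matrix (Fin m₁) (Fin m₁) k) (hΛ : IsUnit Λ.det)
    (f : ∀ i, Fin m₁ → F i) (e : ∀ i, F i) (D : Fin n → Fin m₂ → k)
    (he : ∀ i, D i ≠ 0 → ∀ a : F i, a ^ p ≠ e i)
    (h : ∀ i, Fin r → F i) (z : Fin m₁ → K) (y : Fin m₂ → K) (w : Fin r → K) (N : Fin r → ℕ)
    (hf : ∀ i (W : ValuationSubring (F i)), W ≠ ⊤ → Sc p Λ (f i) (e i) (D i) W)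
    (hz : ∀ a, z a ^ p - ∑ b, algebraMap k K (Λ a b) * z b = ∑ i, (f i a : K))
    (hy : ∀ b, y b ^ p = ∑ i, algebraMap k K (D i b) * (e i : K))
    (hh : ∀ i b, h i b ≠ 0) (hN : ∀ b, ¬ p ∣ N b)
    (hw : ∀ b, w b ^ N b = ∏ i, (h i b : K))
    (hgen : (⨆ i, F i) ⊔ IntermediateField.adjoin k (Set.range z ∪ Set.range y ∪ Set.range w) = ⊤) :
    HasCharts K := by
  classical
  have := Fintype.ofFinite k
  let _ : Algebra (ZMod p) k := ZMod.algebra k p
  have hcF : ∀ i, CharP (F i) p := fun i =>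
    charP_of_injective_algebraMap (algebraMap k (F i)).injective p
  let _ : ∀ i, Algebra (ZMod p) (F i) := fun i => ZMod.algebra (F i) p
  have hst : ∀ i, IsScalarTower (ZMod p) k (F i) := fun i =>
    IsScalarTower.of_algebraMap_eq' (Subsingleton.elim _ _)
  have hcd : ∀ i, ∃ M : ℕ, ∀ Lo : ℕ, 1 ≤ Lo →
      Nonempty (CD p k (F i) Λ (f i) (e i) (D i) (h i) M Lo) := by
    intro i
    have h1 : Algebra.EssFiniteType k (F i) := IntermediateField.essFiniteType_iff.mpr (hF i).1
    have h2 : Algebra.EssFiniteType (ZMod p) (F i) := Algebra.EssFiniteType.comp (ZMod p) k (F i)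
    exact nonempty_cd4 p k (F i) (trdeg_zmod p k (F i) (hF i).2) Λ (f i) (e i) (D i) (he i) (h i)
      (hh i) (hf i)
  choose M₀ hM₀ using hcd
  set M := max 1 (Finset.univ.sup M₀) with hM
  have hQ : 1 ≤ Q p M := Nat.mul_pos (Fact.out : p.Prime).pos (Nat.lt_of_lt_of_le Nat.zero_lt_one
    (le_max_left _ _))
  have hcd' : ∀ i, Nonempty (CD p k (F i) Λ (f i) (e i) (D i) (h i) M (Q p M)) := fun i =>
    (hM₀ i (Q p M) hQ).map fun C => C.mono ((Finset.le_sup (Finset.mem_univ i)).trans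
      (le_max_right _ _))
  have hw0 : ∀ b, w b ≠ 0 := by
    intro b hb
    have h1 := hw b
    have h2 : ∏ i, (h i b : K) ≠ 0 := Finset.prod_ne_zero_iff.mpr fun i _ h3 =>
      hh i b (Subtype.ext h3)
    have h3 : N b ≠ 0 := fun h4 => hN b (by rw [h4]; exact dvd_zero p)
    rw [hb, zero_pow h3] at h1
    exact h2 h1.symm
  let G : GD p k K (Fin n) (fun i => F i) m₁ m₂ r M :=
    { Λ := Λ
      Λu := hΛ
      f := f
      e := e
      D := D
      h := h
      cd := fun i => (hcd' i).some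
      z := z
      AS := hz
      y := y
      IN := hy
      w := w
      w0 := hw0
      Nw := N
      Nw0 := hN
      KM := hw
      gen := by
        intro R hinv hkR hFR hzR hyR hwR
        let R' : IntermediateField k K :=
          { carrier := R
            mul_mem' := fun ha hb => R.mul_mem ha hb
            one_mem' := R.one_mem
            add_mem' := fun ha hb => R.add_mem ha hb
            zero_mem' := R.zero_mem
            algebraMap_mem' := hkR
            inv_mem' := by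
              intro x hx
              by_cases hx0 : x = 0
              · rw [hx0, inv_zero]; exact R.zero_mem
              · exact hinv x hx hx0 }
        have h1 : (⊤ : IntermediateField k K) ≤ R' := by
          rw [← hgen]
          refine sup_le (iSup_le fun i w hw => hFR i ⟨w, hw⟩) ?_
          rw [IntermediateField.adjoin_le_iff]
          rintro _ ((⟨a, rfl⟩ | ⟨a, rfl⟩) | ⟨a, rfl⟩)
          · exact hzR a
          · exact hyR a
          · exact hwR a
        rw [eq_top_iff]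
        intro x _
        exact h1 (show x ∈ (⊤ : IntermediateField k K) from trivial) }
  refine G.hasCharts ?_
  rw [htr, Fintype.card_fin]

/-- There are nontrivial places. -/
theorem exists_ne_top (p : ℕ) [Fact p.Prime] (k F : Type) [Field k] [Finite k] [CharP k p]
    [Field F] [Algebra k F] (hFG : Algebra.EssFiniteType k F) (htr : Algebra.trdeg k F = 1) :
    ∃ W : ValuationSubring F, W ≠ ⊤ := by
  let _ : Algebra (ZMod p) k := ZMod.algebra k p
  have hcF : CharP F p := charP_of_injective_algebraMap (algebraMap k F).injective p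
  let _ : Algebra (ZMod p) F := ZMod.algebra F p
  have hst : IsScalarTower (ZMod p) k F := IsScalarTower.of_algebraMap_eq' (Subsingleton.elim _ _)
  have h2 : Algebra.EssFiniteType (ZMod p) F := Algebra.EssFiniteType.comp (ZMod p) k F
  obtain ⟨x, hx, i1, i2, i3, i4⟩ := exists_sep (ZMod p) F (trdeg_zmod p k F htr)
  obtain ⟨A₀, hA₀⟩ := exists_chart (k := ZMod p) x hx
  have d0 := hA₀.ded
  have e0 := hA₀.frac
  have t0 := hA₀.finiteType
  obtain ⟨W, hW, hq, -⟩ := exists_nontrivial (F := F) p hA₀.nf ∅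
  obtain ⟨t, ht⟩ := exists_place hW hq
  refine ⟨W, ?_⟩
  rintro rfl
  have h1 : (⊤ : ValuationSubring F).valuation (algebraMap A₀ F t)⁻¹ ≤ 1 :=
    (ValuationSubring.valuation_le_one_iff _ _).mpr trivial
  rw [map_inv₀] at h1
  exact absurd h1 (not_le.mpr ((one_lt_inv₀ ht.vt0).mpr ht.lt))

/-- The hypothesis at a place in block form. -/
def Sc2 (p : ℕ) {k F : Type} [Field k] [Field F] [Algebra k F] {m₁ m₂ : ℕ}
    (Λ : Matrix (Fin m₁) (Fin m₁) k) (f : Fin m₁ → F) (f₂ : Fin m₂ → F)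
    (W : ValuationSubring F) : Prop :=
  ∃ (φ : F) (c : Fin m₁ → k) (c₂ : Fin m₂ → k) (g : Fin m₁ → F) (g₂ : Fin m₂ → F),
    (W.valuation φ ≤ 1 ∨ ∀ y : F, W.valuation (y ^ p * φ) ≠ 1) ∧
    (∀ a, W.valuation (f a - wp p Λ g a - algebraMap k F (c a) * φ) ≤ 1) ∧
    ∀ b, f₂ b = g₂ b ^ p + algebraMap k F (c₂ b) * φ

/-- The functions of the second block are multiples of one function. -/
theorem exists_eD (p : ℕ) [Fact p.Prime] {k F : Type} [Field k] [Finite k] [CharP k p] [Field F]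
    [Algebra k F] {m₁ m₂ : ℕ} {Λ : Matrix (Fin m₁) (Fin m₁) k} {f : Fin m₁ → F} {f₂ : Fin m₂ → F}
    (hne : ∃ W : ValuationSubring F, W ≠ ⊤)
    (hf : ∀ W : ValuationSubring F, W ≠ ⊤ → Sc2 p Λ f f₂ W) :
    ∃ (e : F) (D : Fin m₂ → k) (g : Fin m₂ → F), (D ≠ 0 → ∀ a : F, a ^ p ≠ e) ∧
      (∀ b, f₂ b = g b ^ p + algebraMap k F (D b) * e) ∧
      ∀ W : ValuationSubring F, W ≠ ⊤ → Sc p Λ f e D W := by
  have hcF : CharP F p := charP_of_injective_algebraMap (algebraMap k F).injective p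
  have key : ∃ (e : F) (D : Fin m₂ → k) (g : Fin m₂ → F), (D ≠ 0 → ∀ a : F, a ^ p ≠ e) ∧
      ∀ b, f₂ b = g b ^ p + algebraMap k F (D b) * e := by
    obtain ⟨W₀, hW₀⟩ := hne
    obtain ⟨φ, c, c₂, g, g₂, -, -, h3⟩ := hf W₀ hW₀
    by_cases hφ : ∃ s : F, s ^ p = φ
    · obtain ⟨s, rfl⟩ := hφ
      refine ⟨0, 0, fun b => g₂ b + algebraMap k F (rt1 p (c₂ b)) * s, fun h => absurd rfl h,
        fun b => ?_⟩
      rw [h3, add_pow_char, mul_pow, ← map_pow, rt1_pow, mul_zero, add_zero]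
    · push Not at hφ
      exact ⟨φ, c₂, g₂, fun _ => hφ, h3⟩
  obtain ⟨e, D, gz, he, hD⟩ := key
  refine ⟨e, D, gz, he, hD, fun W hW => ?_⟩
  obtain ⟨φ, c, c₂, g, g₂, h1, h2, h3⟩ := hf W hW
  by_cases hD0 : D = 0
  · exact ⟨φ, c, g, h1, fun h => absurd hD0 h, h2⟩
  · obtain ⟨b, hb⟩ : ∃ b, D b ≠ 0 := by
      by_contra hcon
      push Not at hcon
      exact hD0 (funext hcon)
    have hb' : algebraMap k F (D b) ≠ 0 := (map_ne_zero _).mpr hb
    have h4 : algebraMap k F (D b) * e = (g₂ b - gz b) ^ p + algebraMap k F (c₂ b) * φ := by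
      have h5 := hD b
      rw [h3 b] at h5
      rw [sub_pow_char]
      linear_combination -h5
    set q := (algebraMap k F (rt1 p (D b)))⁻¹ * (g₂ b - gz b) with hq
    have hqp : q ^ p = (algebraMap k F (D b))⁻¹ * (g₂ b - gz b) ^ p := by
      rw [hq, mul_pow, inv_pow, ← map_pow, rt1_pow]
    have h5 : e - q ^ p = algebraMap k F ((D b)⁻¹ * c₂ b) * φ := by
      rw [hqp, map_mul, map_inv₀]
      have h6 : e = (algebraMap k F (D b))⁻¹ * ((g₂ b - gz b) ^ p + algebraMap k F (c₂ b) * φ) := by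
        rw [← h4]; field_simp
      rw [h6]; ring
    have hc₂ : c₂ b ≠ 0 := by
      intro h0
      rw [h0, mul_zero, map_zero, zero_mul, sub_eq_zero] at h5
      exact he hD0 q h5.symm
    set δ := (D b)⁻¹ * c₂ b with hδ
    have hδ0 : δ ≠ 0 := mul_ne_zero (inv_ne_zero hb) hc₂
    refine ⟨e - q ^ p, fun a => c a * δ⁻¹, g, ?_, fun _ => ⟨q, rfl⟩, fun a => ?_⟩
    · rw [h5, map_mul, val_const W hδ0, one_mul]
      rcases h1 with h1 | h1
      · exact Or.inl h1
      · right
        intro y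
        have h6 : y ^ p * (algebraMap k F δ * φ) = algebraMap k F δ * (y ^ p * φ) := by ring
        rw [h6, map_mul, val_const W hδ0, one_mul]
        exact h1 y
    · have h6 : algebraMap k F (c a * δ⁻¹) * (e - q ^ p) = algebraMap k F (c a) * φ := by
        rw [h5, map_mul, map_inv₀]
        have h7 : algebraMap k F δ ≠ 0 := (map_ne_zero _).mpr hδ0
        field_simp
      rw [h6]
      exact h2 a

/-- **The block form, with functions in both blocks.** -/
theorem hasCharts_block2 (p : ℕ) [Fact p.Prime] (k : Type) [Field k] [Finite k] [CharP k p]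
    (K : Type) [Field K] [Algebra k K] (n m₁ m₂ r : ℕ)
    (F : Fin n → IntermediateField k K)
    (hF : ∀ i, (F i).FG ∧ Algebra.trdeg k (F i) = 1)
    (htr : Algebra.trdeg k K = n) (Λ : Matrix (Fin m₁) (Fin m₁) k) (hΛ : IsUnit Λ.det)
    (f : ∀ i, Fin m₁ → F i) (f₂ : ∀ i, Fin m₂ → F i)
    (h : ∀ i, Fin r → F i) (z : Fin m₁ → K) (y : Fin m₂ → K) (w : Fin r → K) (N : Fin r → ℕ)
    (hf : ∀ i (W : ValuationSubring (F i)), W ≠ ⊤ → Sc2 p Λ (f i) (f₂ i) W)
    (hz : ∀ a, z a ^ p - ∑ b, algebraMap k K (Λ a b) * z b = ∑ i, (f i a : K))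
    (hy : ∀ b, y b ^ p = ∑ i, (f₂ i b : K))
    (hh : ∀ i b, h i b ≠ 0) (hN : ∀ b, ¬ p ∣ N b)
    (hw : ∀ b, w b ^ N b = ∏ i, (h i b : K))
    (hgen : (⨆ i, F i) ⊔ IntermediateField.adjoin k (Set.range z ∪ Set.range y ∪ Set.range w) = ⊤) :
    HasCharts K := by
  have hcK : CharP K p := charP_of_injective_algebraMap (algebraMap k K).injective p
  choose e D g he hD hSc using fun i => exists_eD p (exists_ne_top p k (F i)
    (IntermediateField.essFiniteType_iff.mpr (hF i).1) (hF i).2) (hf i)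
  refine hasCharts_block p k K n m₁ m₂ r F hF htr Λ hΛ f e D he h z
    (fun b => y b - ∑ i, (g i b : K)) w N hSc hz (fun b => ?_) hh hN hw ?_
  · rw [sub_pow_char, sum_pow_char, hy, ← Finset.sum_sub_distrib]
    refine Finset.sum_congr rfl fun i _ => ?_
    have h1 := congrArg (fun x : F i => (x : K)) (hD i b)
    simp only [IntermediateField.coe_add, IntermediateField.coe_mul, IntermediateField.coe_pow] at h1
    rw [h1, add_sub_cancel_left]
    rfl
  · rw [eq_top_iff, ← hgen]
    refine sup_le le_sup_left ?_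
    rw [IntermediateField.adjoin_le_iff]
    set E := (⨆ i, F i) ⊔ IntermediateField.adjoin k
      (Set.range z ∪ (Set.range fun b => y b - ∑ i, (g i b : K)) ∪ Set.range w) with hE
    have hEF : ∀ i (x : F i), (x : K) ∈ E := fun i x =>
      (le_sup_left : _ ≤ E) ((le_iSup F i) x.2)
    have hEa : ∀ x ∈ (Set.range z ∪ (Set.range fun b => y b - ∑ i, (g i b : K)) ∪ Set.range w),
        x ∈ E := fun x hx =>
      (le_sup_right : _ ≤ E) (IntermediateField.subset_adjoin _ _ hx)
    rintro _ ((⟨a, rfl⟩ | ⟨a, rfl⟩) | ⟨a, rfl⟩)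
    · exact hEa _ (Or.inl (Or.inl ⟨a, rfl⟩))
    · have h1 := hEa _ (Or.inl (Or.inr ⟨a, rfl⟩))
      have h2 : y a = (y a - ∑ i, (g i a : K)) + ∑ i, (g i a : K) := by ring
      show y a ∈ E
      rw [h2]
      exact E.add_mem h1 (sum_mem fun i _ => hEF i _)
    · exact hEa _ (Or.inr ⟨a, rfl⟩)

end Pool.Agent.H96.W4
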