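import Pool.Agent.H96.W4.Final

/-!
# The reduction to block form
-/

set_option autoImplicit false
set_option linter.unusedSectionVars false

namespace Pool.Agent.H96.W4

open Pool.Agent.H19.OG Pool.Agent.H96.W
open Pool.Agent.H96.W2 (wp)

variable (p : ℕ) [Fact p.Prime] {k : Type} [Field k] [Finite k] [CharP k p] {m : ℕ}

/-- The semilinear operator `c ↦ c ^ (p) Λ` on row vectors. -/
def SL (Λ : Matrix (Fin m) (Fin m) k) (c : Fin m → k) : Fin m → k :=
  fun b => ∑ j, c j ^ p * Λ j b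

theorem SL_add (Λ : Matrix (Fin m) (Fin m) k) (c c' : Fin m → k) :
    SL p Λ (c + c') = SL p Λ c + SL p Λ c' := by
  funext b
  simp only [SL, Pi.add_apply, add_pow_char, add_mul, Finset.sum_add_distrib]

theorem SL_smul (Λ : Matrix (Fin m) (Fin m) k) (a : k) (c : Fin m → k) :
    SL p Λ (a • c) = a ^ p • SL p Λ c := by
  funext b
  simp only [SL, Pi.smul_apply, smul_eq_mul, mul_pow, Finset.mul_sum, mul_assoc]

theorem SL_sub (Λ : Matrix (Fin m) (Fin m) k) (c c' : Fin m → k) :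
    SL p Λ (c - c') = SL p Λ c - SL p Λ c' := by
  rw [eq_sub_iff_add_eq, ← SL_add, sub_add_cancel]

theorem SL_eq (Λ : Matrix (Fin m) (Fin m) k) (c : Fin m → k) :
    SL p Λ c = Matrix.vecMul (fun j => c j ^ p) Λ := by
  funext b
  simp only [SL, Matrix.vecMul, dotProduct]

/-- The row space. -/
noncomputable def Us (Λ : Matrix (Fin m) (Fin m) k) : Submodule k (Fin m → k) :=
  LinearMap.range Λ.vecMulLinear

theorem mem_Us (Λ : Matrix (Fin m) (Fin m) k) (v : Fin m → k) :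
    v ∈ Us Λ ↔ ∃ c, SL p Λ c = v := by
  constructor
  · rintro ⟨u, rfl⟩
    refine ⟨fun j => rt1 p (u j), ?_⟩
    rw [SL_eq]
    have h1 : (fun j => rt1 p (u j) ^ p) = u := by funext j; exact rt1_pow _
    rw [h1]
    rfl
  · rintro ⟨c, rfl⟩
    rw [SL_eq]
    exact ⟨_, rfl⟩

/-- The kernel. -/
def Vs (Λ : Matrix (Fin m) (Fin m) k) : Submodule k (Fin m → k) where
  carrier := {c | SL p Λ c = 0}
  zero_mem' := by
    show SL p Λ 0 = 0
    funext b
    simp only [SL, Pi.zero_apply, zero_pow (Fact.out : p.Prime).ne_zero, zero_mul,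
      Finset.sum_const_zero]
  add_mem' := by
    intro a b ha hb
    show SL p Λ (a + b) = 0
    rw [SL_add, show SL p Λ a = 0 from ha, show SL p Λ b = 0 from hb, add_zero]
  smul_mem' := by
    intro a c hc
    show SL p Λ (a • c) = 0
    rw [SL_smul, show SL p Λ c = 0 from hc, smul_zero]

theorem finrank_Us (Λ : Matrix (Fin m) (Fin m) k) : Module.finrank k (Us Λ) = Λ.rank := by
  rw [Us, range_vecMulLinear, Matrix.rank_eq_finrank_span_row]

/-- The operator is surjective on the row space. -/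
theorem Us_surj {Λ : Matrix (Fin m) (Fin m) k} (hΛ : (Λ.map (· ^ p) * Λ).rank = Λ.rank)
    {v : Fin m → k} (hv : v ∈ Us Λ) : ∃ c ∈ Us Λ, SL p Λ c = v := by
  have h1 : Us (Λ.map (· ^ p) * Λ) ≤ Us Λ := by
    rintro _ ⟨u, rfl⟩
    refine ⟨Matrix.vecMul u (Λ.map (· ^ p)), ?_⟩
    simp only [Matrix.vecMulLinear_apply, Matrix.vecMul_vecMul]
  have h2 : Us (Λ.map (· ^ p) * Λ) = Us Λ :=
    Submodule.eq_of_le_of_finrank_eq h1 (by rw [finrank_Us, finrank_Us, hΛ])
  rw [← h2] at hv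
  obtain ⟨u, rfl⟩ := hv
  refine ⟨Matrix.vecMul (fun j => rt1 p (u j)) Λ, ⟨_, rfl⟩, ?_⟩
  rw [SL_eq]
  have h3 : (fun j => Matrix.vecMul (fun j => rt1 p (u j)) Λ j ^ p) =
      Matrix.vecMul u (Λ.map (· ^ p)) := by
    funext j
    simp only [Matrix.vecMul, dotProduct, Matrix.map_apply, sum_pow_char, mul_pow, rt1_pow]
  rw [h3]
  simp only [Matrix.vecMulLinear_apply, Matrix.vecMul_vecMul]

theorem Us_inj {Λ : Matrix (Fin m) (Fin m) k} (hΛ : (Λ.map (· ^ p) * Λ).rank = Λ.rank)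
    {v : Fin m → k} (hv : v ∈ Us Λ) (h : SL p Λ v = 0) : v = 0 := by
  have hfin : Finite (Us Λ) := inferInstance
  let T : Us Λ → Us Λ := fun u => ⟨SL p Λ u, (mem_Us p Λ _).mpr ⟨_, rfl⟩⟩
  have hs : Function.Surjective T := by
    rintro ⟨u, hu⟩
    obtain ⟨c, hc, h1⟩ := Us_surj p hΛ hu
    exact ⟨⟨c, hc⟩, Subtype.ext h1⟩
  have hi : Function.Injective T := Finite.injective_iff_surjective.mpr hs
  have h0 : T ⟨v, hv⟩ = T 0 := by
    apply Subtype.ext
    show SL p Λ v = SL p Λ 0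
    rw [h]
    exact ((Vs p Λ).zero_mem : SL p Λ 0 = 0).symm
  exact congrArg Subtype.val (hi h0)

theorem sup_eq_top {Λ : Matrix (Fin m) (Fin m) k} (hΛ : (Λ.map (· ^ p) * Λ).rank = Λ.rank) :
    Us Λ ⊔ Vs p Λ = ⊤ := by
  rw [eq_top_iff]
  intro x _
  obtain ⟨c, hc, h1⟩ := Us_surj p hΛ ((mem_Us p Λ (SL p Λ x)).mpr ⟨x, rfl⟩)
  have h2 : x - c ∈ Vs p Λ := by
    show SL p Λ (x - c) = 0
    rw [SL_sub, h1, sub_self]
  have h3 : x = c + (x - c) := by abel
  rw [h3]
  exact Submodule.add_mem_sup hc h2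

/-- **Block form**: matrices with rows in the two subspaces. -/
theorem exists_blocks {Λ : Matrix (Fin m) (Fin m) k} (hΛ : (Λ.map (· ^ p) * Λ).rank = Λ.rank) :
    ∃ (m₁ m₂ : ℕ) (P₁ : Matrix (Fin m₁) (Fin m) k) (P₂ : Matrix (Fin m₂) (Fin m) k)
      (Λ' : Matrix (Fin m₁) (Fin m₁) k) (Q₁ : Matrix (Fin m) (Fin m₁) k)
      (Q₂ : Matrix (Fin m) (Fin m₂) k), IsUnit Λ'.det ∧
      P₁.map (· ^ p) * Λ = Λ' * P₁ ∧ P₂.map (· ^ p) * Λ = 0 ∧ Q₁ * P₁ + Q₂ * P₂ = 1 := by
  classical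
  let b₁ := Module.finBasis k (Us Λ)
  let b₂ := Module.finBasis k (Vs p Λ)
  let P₁ : Matrix (Fin (Module.finrank k (Us Λ))) (Fin m) k := fun a => (b₁ a : Fin m → k)
  let P₂ : Matrix (Fin (Module.finrank k (Vs p Λ))) (Fin m) k := fun a => (b₂ a : Fin m → k)
  have hU : ∀ v ∈ Us Λ, ∃ c : Fin (Module.finrank k (Us Λ)) → k, v = Matrix.vecMul c P₁ := by
    intro v hv
    refine ⟨fun a => b₁.repr ⟨v, hv⟩ a, ?_⟩
    have h1 := congrArg Subtype.val (b₁.sum_repr ⟨v, hv⟩)
    simp only [Submodule.coe_sum, Submodule.coe_smul] at h1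
    refine h1.symm.trans ?_
    funext j
    simp only [Matrix.vecMul, dotProduct, Finset.sum_apply, Pi.smul_apply, smul_eq_mul, P₁]
  have hV : ∀ v ∈ Vs p Λ, ∃ c : Fin (Module.finrank k (Vs p Λ)) → k, v = Matrix.vecMul c P₂ := by
    intro v hv
    refine ⟨fun a => b₂.repr ⟨v, hv⟩ a, ?_⟩
    have h1 := congrArg Subtype.val (b₂.sum_repr ⟨v, hv⟩)
    simp only [Submodule.coe_sum, Submodule.coe_smul] at h1
    refine h1.symm.trans ?_
    funext j
    simp only [Matrix.vecMul, dotProduct, Finset.sum_apply, Pi.smul_apply, smul_eq_mul, P₂]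
  have hT : ∀ a, SL p Λ (P₁ a) ∈ Us Λ := fun a => (mem_Us p Λ _).mpr ⟨_, rfl⟩
  choose Λ' hΛ' using fun a => hU _ (hT a)
  have hx : ∀ x : Fin m → k, ∃ (c : Fin (Module.finrank k (Us Λ)) → k)
      (c' : Fin (Module.finrank k (Vs p Λ)) → k), x = Matrix.vecMul c P₁ + Matrix.vecMul c' P₂ := by
    intro x
    have h1 : x ∈ Us Λ ⊔ Vs p Λ := by rw [sup_eq_top p hΛ]; trivial
    obtain ⟨u, hu, v, hv, rfl⟩ := Submodule.mem_sup.mp h1
    obtain ⟨c, rfl⟩ := hU u hu
    obtain ⟨c', rfl⟩ := hV v hv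
    exact ⟨c, c', rfl⟩
  choose Q₁ Q₂ hQ using fun j : Fin m => hx (Pi.single j 1)
  refine ⟨_, _, P₁, P₂, Λ', Q₁, Q₂, ?_, ?_, ?_, ?_⟩
  · rw [← Matrix.isUnit_iff_isUnit_det, ← Matrix.linearIndependent_rows_iff_isUnit,
      Fintype.linearIndependent_iff]
    intro c hc
    have h1 : Matrix.vecMul c (Matrix.of Λ') = 0 := by
      funext j
      have h2 := congrFun hc j
      simp only [Finset.sum_apply, Pi.smul_apply, smul_eq_mul, Pi.zero_apply, Matrix.row] at h2
      simpa only [Matrix.vecMul, dotProduct, Matrix.of_apply, Pi.zero_apply] using h2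
    -- the vector `∑ c a ^ (1 / p) P₁ a` lies in the kernel
    set v : Fin m → k := Matrix.vecMul (fun a => rt1 p (c a)) P₁ with hv
    have hvU : v ∈ Us Λ := by
      have h2 : v = ∑ a, rt1 p (c a) • (b₁ a : Fin m → k) := by
        funext j
        simp only [hv, Matrix.vecMul, dotProduct, Finset.sum_apply, Pi.smul_apply, smul_eq_mul, P₁]
      rw [h2]
      exact Submodule.sum_mem _ fun a _ => Submodule.smul_mem _ _ (b₁ a).2
    have hTv : SL p Λ v = 0 := by
      have h2 : SL p Λ v = Matrix.vecMul (Matrix.vecMul c (Matrix.of Λ')) P₁ := by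
        have h3 : SL p Λ v = ∑ a, c a • SL p Λ (P₁ a) := by
          funext b
          simp only [SL, hv, Matrix.vecMul, dotProduct, sum_pow_char, mul_pow, rt1_pow,
            Finset.sum_apply, Pi.smul_apply, smul_eq_mul, Finset.sum_mul, Finset.mul_sum]
          rw [Finset.sum_comm]
          refine Finset.sum_congr rfl fun a _ => Finset.sum_congr rfl fun j _ => ?_
          ring
        rw [h3]
        funext b
        simp only [hΛ', Matrix.vecMul, dotProduct, Finset.sum_apply, Pi.smul_apply, smul_eq_mul,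
          Matrix.of_apply, Finset.sum_mul, Finset.mul_sum]
        rw [Finset.sum_comm]
        refine Finset.sum_congr rfl fun a _ => Finset.sum_congr rfl fun j _ => ?_
        ring
      rw [h2, h1, Matrix.zero_vecMul]
    have hv0 : v = 0 := Us_inj p hΛ hvU hTv
    have h4 : ∑ a, rt1 p (c a) • b₁ a = 0 := by
      apply Subtype.ext
      simp only [Submodule.coe_sum, Submodule.coe_smul, Submodule.coe_zero]
      rw [← hv0]
      funext j
      simp only [hv, Matrix.vecMul, dotProduct, Finset.sum_apply, Pi.smul_apply, smul_eq_mul, P₁]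
    intro a
    have h5 := (Fintype.linearIndependent_iff.mp b₁.linearIndependent) _ h4 a
    rw [← rt1_pow (c a), h5, zero_pow (Fact.out : p.Prime).ne_zero]
  · funext a
    have h1 := hΛ' a
    rw [SL_eq] at h1
    exact h1
  · funext a
    have h1 : SL p Λ (P₂ a) = 0 := (b₂ a).2
    rw [SL_eq] at h1
    exact h1
  · funext j b
    have h1 := congrFun (hQ j) b
    simp only [Matrix.vecMul, dotProduct, Pi.add_apply] at h1
    rw [Matrix.add_apply, Matrix.mul_apply, Matrix.mul_apply, Matrix.one_apply, ← h1,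
      Pi.single_apply]
    simp only [eq_comm]

end Pool.Agent.H96.W4
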