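import Pool.Agent.H96.W4.LocD
import Pool.Agent.H96.W4.CD2
import Pool.Agent.H96.W2.Glob3

/-!
# The global data
-/

set_option autoImplicit false
set_option linter.unusedSectionVars false

namespace Pool.Agent.H96.W4

open MvPolynomial IsLocalRing Pool.Agent.H96.Reg Pool.Agent.H96.VL Pool.Agent.H96.W
open Pool.Agent.H96.W2 (wp wp_sub wp_le val_const_le val_const rtp rtp_pow zlin_AS aeval_map')

/-- The global data: a cover of a product of curves by Artin–Schreier, inseparable and Kummer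
elements. -/
structure GD (p : ℕ) [Fact p.Prime] (k K : Type) [Field k] [Field K] [Algebra k K]
    [Algebra (ZMod p) k] (I : Type) [Fintype I] [DecidableEq I] (F : I → Type)
    [∀ i, Field (F i)] [∀ i, Algebra (ZMod p) (F i)] [∀ i, Algebra k (F i)]
    [∀ i, Algebra (F i) K] [∀ i, IsScalarTower k (F i) K]
    [∀ i, IsScalarTower (ZMod p) k (F i)] (m₁ m₂ r M : ℕ) where
  Λ : Matrix (Fin m₁) (Fin m₁) k
  Λu : IsUnit Λ.det
  f : ∀ i, Fin m₁ → F i
  e : ∀ i, F i
  D : I → Fin m₂ → k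
  h : ∀ i, Fin r → F i
  cd : ∀ i, CD p k (F i) Λ (f i) (e i) (D i) (h i) M (Q p M)
  z : Fin m₁ → K
  AS : ∀ a, wp p Λ z a = ∑ i, algebraMap (F i) K (f i a)
  y : Fin m₂ → K
  IN : ∀ b, y b ^ p = ∑ i, algebraMap k K (D i b) * algebraMap (F i) K (e i)
  w : Fin r → K
  w0 : ∀ b, w b ≠ 0
  Nw : Fin r → ℕ
  Nw0 : ∀ b, ¬ p ∣ Nw b
  KM : ∀ b, w b ^ Nw b = ∏ i, algebraMap (F i) K (h i b)
  gen : ∀ R : Subring K, (∀ x ∈ R, x ≠ 0 → x⁻¹ ∈ R) → (∀ c : k, algebraMap k K c ∈ R) →
    (∀ i (w : F i), algebraMap (F i) K w ∈ R) → (∀ a, z a ∈ R) → (∀ b, y b ∈ R) →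
    (∀ b, w b ∈ R) → R = ⊤

section Zl

variable {p : ℕ} [Fact p.Prime] {k K : Type} [Field k] [Finite k] [Field K] [Algebra k K]
  {m₁ m₂ : ℕ}

/-- The twisted linear form. -/
noncomputable def zl (k : Type) [Field k] {K : Type} [Field K] [Algebra k K] {m₁ m₂ : ℕ}
    (z g : Fin m₁ → K) (y q : Fin m₂ → K) : Xs k m₁ m₂ →ₗ[k] K :=
  Fintype.linearCombination k (Sum.elim (fun a => z a - g a) fun b => y b - q b)

theorem zl_apply (z g : Fin m₁ → K) (y q : Fin m₂ → K) (c : Xs k m₁ m₂) :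
    zl k z g y q c = ∑ a, algebraMap k K (c (Sum.inl a)) * (z a - g a) +
      ∑ b, algebraMap k K (c (Sum.inr b)) * (y b - q b) := by
  rw [zl, Fintype.linearCombination_apply, Fintype.sum_sum_type]
  congr 1
  · exact Finset.sum_congr rfl fun a _ => by rw [Algebra.smul_def]; rfl
  · exact Finset.sum_congr rfl fun a _ => by rw [Algebra.smul_def]; rfl

theorem zl_diff (z g g' : Fin m₁ → K) (y q q' : Fin m₂ → K) (c : Xs k m₁ m₂) :
    zl k z g y q c - zl k z g' y q' c = ∑ a, algebraMap k K (c (Sum.inl a)) * (g' a - g a) +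
      ∑ b, algebraMap k K (c (Sum.inr b)) * (q' b - q b) := by
  rw [zl_apply, zl_apply, add_sub_add_comm, ← Finset.sum_sub_distrib, ← Finset.sum_sub_distrib]
  congr 1
  · exact Finset.sum_congr rfl fun a _ => by ring
  · exact Finset.sum_congr rfl fun a _ => by ring

theorem zl_single_inl [DecidableEq k] (z g : Fin m₁ → K) (y q : Fin m₂ → K) (a : Fin m₁) :
    zl k z g y q (Pi.single (Sum.inl a) 1) = z a - g a := by
  rw [zl_apply, Finset.sum_eq_single a, Finset.sum_eq_zero, add_zero, Pi.single_eq_same, map_one,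
    one_mul]
  · intro b _
    rw [Pi.single_eq_of_ne Sum.inr_ne_inl, map_zero, zero_mul]
  · intro b _ hb
    rw [Pi.single_eq_of_ne (fun h => hb (Sum.inl_injective h)), map_zero, zero_mul]
  · intro h; exact absurd (Finset.mem_univ _) h

theorem zl_single_inr [DecidableEq k] (z g : Fin m₁ → K) (y q : Fin m₂ → K) (b : Fin m₂) :
    zl k z g y q (Pi.single (Sum.inr b) 1) = y b - q b := by
  rw [zl_apply, Finset.sum_eq_zero, zero_add, Finset.sum_eq_single b, Pi.single_eq_same, map_one,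
    one_mul]
  · intro a _ hb
    rw [Pi.single_eq_of_ne (fun h => hb (Sum.inr_injective h)), map_zero, zero_mul]
  · intro h; exact absurd (Finset.mem_univ _) h
  · intro b _
    rw [Pi.single_eq_of_ne Sum.inl_ne_inr, map_zero, zero_mul]

/-- Roots of constants. -/
noncomputable def rt1 (p : ℕ) [Fact p.Prime] {k : Type} [Field k] [Finite k] [CharP k p] (a : k) : k :=
  (frobeniusEquiv k p).symm a

theorem rt1_pow [CharP k p] (a : k) : rt1 p a ^ p = a := frobeniusEquiv_symm_pow_p k p a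

theorem rt1_zero [CharP k p] : rt1 p (0 : k) = 0 := map_zero _

/-- The map on the vectors. -/
noncomputable def rtd (p : ℕ) [Fact p.Prime] {k : Type} [Field k] [Finite k] [CharP k p]
    {m₁ m₂ : ℕ} (Λ : Matrix (Fin m₁) (Fin m₁) k) (d : Xs k m₁ m₂) : Xs k m₁ m₂ :=
  Sum.elim (fun a => rt1 p (Matrix.vecMul (fun a => d (Sum.inl a)) Λ⁻¹ a))
    fun b => rt1 p (d (Sum.inr b))

theorem rtd_surjective [CharP k p] {Λ : Matrix (Fin m₁) (Fin m₁) k} (hΛ : IsUnit Λ.det) :
    Function.Surjective (rtd p Λ : Xs k m₁ m₂ → Xs k m₁ m₂) := by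
  intro c
  refine ⟨Sum.elim (Matrix.vecMul (fun a => c (Sum.inl a) ^ p) Λ) fun b => c (Sum.inr b) ^ p, ?_⟩
  have h1 : ∀ a : k, rt1 p (a ^ p) = a := fun a => frobeniusEquiv_symm_apply_frobenius k p a
  funext s
  rcases s with a | b
  · show rt1 p (Matrix.vecMul (Matrix.vecMul (fun a => c (Sum.inl a) ^ p) Λ) Λ⁻¹ a) = _
    rw [Matrix.vecMul_vecMul, Matrix.mul_nonsing_inv _ hΛ, Matrix.vecMul_one]
    exact h1 _
  · exact h1 _

theorem ins_rtd [CharP k p] {Λ : Matrix (Fin m₁) (Fin m₁) k} {d : Xs k m₁ m₂} (hd : Ins d) :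
    Ins (rtd p Λ d) := by
  intro a
  show rt1 p (Matrix.vecMul (fun a => d (Sum.inl a)) Λ⁻¹ a) = 0
  have h1 : (fun a => d (Sum.inl a)) = (0 : Fin m₁ → k) := funext hd
  rw [h1, Matrix.zero_vecMul]
  exact rt1_zero

end Zl

variable {p : ℕ} [Fact p.Prime] {k K : Type} [Field k] [Finite k] [CharP k p] [Field K] [Algebra k K]
    [Algebra (ZMod p) k] {I : Type} [Fintype I] [DecidableEq I] {F : I → Type}
    [∀ i, Field (F i)] [∀ i, Algebra (ZMod p) (F i)] [∀ i, Algebra k (F i)]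
    [∀ i, Algebra (F i) K] [∀ i, IsScalarTower k (F i) K]
    [∀ i, IsScalarTower (ZMod p) k (F i)] {m₁ m₂ r M : ℕ}

namespace GD

variable (G : GD p k K I F m₁ m₂ r M)

/-- The factor of the twist. -/
noncomputable def xf (i : I) (b : Bool) : F i := cond b ((G.cd i).x ^ (G.cd i).N) 1

/-- Its power. -/
noncomputable def wf (i : I) (b : Bool) : F i := G.xf i b ^ Q p M

/-- The gauges. -/
noncomputable def gf (i : I) (b : Bool) (a : Fin m₁) : F i := cond b ((G.cd i).g1 a) ((G.cd i).g0 a)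

noncomputable def qf (i : I) (b : Bool) : F i := cond b (G.cd i).q1 (G.cd i).q0

noncomputable def gs (σ : I → Bool) (a : Fin m₁) : K := ∑ i, algebraMap (F i) K (G.gf i (σ i) a)

noncomputable def qs (σ : I → Bool) (b : Fin m₂) : K :=
  ∑ i, algebraMap k K (rt1 p (G.D i b)) * algebraMap (F i) K (G.qf i (σ i))

noncomputable def xs (σ : I → Bool) : K := ∏ i, algebraMap (F i) K (G.wf i (σ i))

noncomputable def zs (σ : I → Bool) : Xs k m₁ m₂ →ₗ[k] K := zl k G.z (G.gs σ) G.y (G.qs σ)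

omit [Finite k] [CharP k p] in
theorem xf_ne (i : I) (b : Bool) : G.xf i b ≠ 0 := by
  cases b
  · exact one_ne_zero
  · exact pow_ne_zero _ (G.cd i).x0

omit [Finite k] [CharP k p] in
theorem wf_ne (i : I) (b : Bool) : G.wf i b ≠ 0 := pow_ne_zero _ (G.xf_ne i b)

omit [Finite k] [CharP k p] in
theorem xs_ne (σ : I → Bool) : G.xs σ ≠ 0 :=
  Finset.prod_ne_zero_iff.mpr fun i _ => (map_ne_zero _).mpr (G.wf_ne i _)

/-- The chart of a valuation. -/
noncomputable def σV (V : ValuationSubring K) (i : I) : Bool :=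
  open Classical in if (WV V (F i)).valuation (G.cd i).x ≤ 1 then false else true

omit [Finite k] [CharP k p] in
theorem xf_σV (V : ValuationSubring K) (i : I) :
    G.xf i (G.σV V i) = tw (G.cd i).x (G.cd i).N (WV V (F i)) := by
  by_cases h : (WV V (F i)).valuation (G.cd i).x ≤ 1
  · rw [σV, if_pos h, tw_le h]; rfl
  · rw [σV, if_neg h, tw_gt h]; rfl

omit [Finite k] [CharP k p] in
theorem gf_σV (V : ValuationSubring K) (i : I) (a : Fin m₁) :
    G.gf i (G.σV V i) a = gg (G.cd i).x ((G.cd i).g0 a) ((G.cd i).g1 a) (WV V (F i)) := by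
  by_cases h : (WV V (F i)).valuation (G.cd i).x ≤ 1
  · rw [σV, if_pos h, gg_le h]; rfl
  · rw [σV, if_neg h, gg_gt h]; rfl

omit [Finite k] [CharP k p] in
theorem qf_σV (V : ValuationSubring K) (i : I) :
    G.qf i (G.σV V i) = gg (G.cd i).x (G.cd i).q0 (G.cd i).q1 (WV V (F i)) := by
  by_cases h : (WV V (F i)).valuation (G.cd i).x ≤ 1
  · rw [σV, if_pos h, gg_le h]; rfl
  · rw [σV, if_neg h, gg_gt h]; rfl

omit [Finite k] [CharP k p] in
theorem ratio_xf (V : ValuationSubring K) (i : I) (b : Bool) :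
    (WV V (F i)).valuation (G.xf i b / G.xf i (G.σV V i)) ≤ 1 := by
  set W := WV V (F i) with hW
  by_cases h : W.valuation (G.cd i).x ≤ 1
  · have hσ : G.σV V i = false := if_pos h
    rw [hσ]
    cases b
    · rw [div_self (G.xf_ne i _), map_one]
    · have h1 : G.xf i true / G.xf i false = (G.cd i).x ^ (G.cd i).N := div_one _
      rw [h1, map_pow]
      exact pow_le_one' h _
  · have hσ : G.σV V i = true := if_neg h
    rw [hσ]
    have h' := (not_le.mp h).le
    cases b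
    · have h1 : G.xf i false / G.xf i true = 1 / (G.cd i).x ^ (G.cd i).N := rfl
      rw [h1, one_div, map_inv₀, map_pow]
      exact inv_le_one_of_one_le₀ (one_le_pow₀ h')
    · rw [div_self (G.xf_ne i _), map_one]

omit [Finite k] [CharP k p] in
theorem ratio_wf (V : ValuationSubring K) (i : I) (b : Bool) :
    (WV V (F i)).valuation (G.wf i b / G.wf i (G.σV V i)) ≤ 1 := by
  rw [wf, wf, ← div_pow, map_pow]
  exact pow_le_one' (G.ratio_xf V i b) _

end GD

/-- The local data of the global data. -/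
structure LG (G : GD p k K I F m₁ m₂ r M) (V : ValuationSubring K) where
  L : LD p k V I m₁ m₂ r G.D G.Nw M
  z_eq : L.z = G.zs (G.σV V)
  w_eq : L.w = G.w
  tF : ∀ i, F i
  t_eq : ∀ i, L.t i = algebraMap (F i) K (tF i)
  t_le : ∀ i, (WV V (F i)).valuation (tF i) ≤ 1
  T_le : ∀ i, ∀ g ∈ (G.cd i).T, (WV V (F i)).valuation g ≤
    (WV V (F i)).valuation (tF i * G.xf i (G.σV V i))
  T_eq : ∀ i, ∃ g ∈ (G.cd i).T, (WV V (F i)).valuation g =
    (WV V (F i)).valuation (tF i * G.xf i (G.σV V i))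
  h_le : ∀ i b a, (WV V (F i)).valuation (G.wf i b / G.wf i (G.σV V i) *
    (G.gf i (G.σV V i) a - G.gf i b a)) ≤ 1
  q_le : ∀ i b, (WV V (F i)).valuation (G.wf i b / G.wf i (G.σV V i) *
    (G.qf i (G.σV V i) - G.qf i b)) ≤ (WV V (F i)).valuation (tF i ^ Q p M)
  yF : ∀ i, Fin (L.n i + 1) → F i
  y_eq : ∀ i b, L.y i b = algebraMap (F i) K (yF i b)
  y_le : ∀ i b, (WV V (F i)).valuation (yF i b) ≤ 1
  gen : ∀ i (w : F i), (WV V (F i)).valuation w ≤ 1 →
    ∃ a s : MvPolynomial (Fin (L.n i + 1)) k, V.valuation (aeval (L.y i) s) = 1 ∧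
      algebraMap (F i) K w = aeval (L.y i) a / aeval (L.y i) s

/-- The power of the twisted form on the second block. -/
theorem zl_ins (G : GD p k K I F m₁ m₂ r M) (σ : I → Bool) {c : Xs k m₁ m₂} (hc : Ins c) :
    G.zs σ c ^ p = ∑ i, algebraMap k K (pw p G.D c i) *
      algebraMap (F i) K (G.e i - G.qf i (σ i) ^ p) := by
  have hcK : CharP K p := charP_of_injective_algebraMap (algebraMap k K).injective p
  rw [GD.zs, zl_apply, Finset.sum_eq_zero (fun a _ => by rw [hc a, map_zero, zero_mul]), zero_add,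
    sum_pow_char]
  have h1 : ∀ b, (algebraMap k K (c (Sum.inr b)) * (G.y b - G.qs σ b)) ^ p =
      ∑ i, algebraMap k K (c (Sum.inr b) ^ p * G.D i b) *
        algebraMap (F i) K (G.e i - G.qf i (σ i) ^ p) := by
    intro b
    rw [mul_pow, sub_pow_char, G.IN, GD.qs, sum_pow_char, ← Finset.sum_sub_distrib, Finset.mul_sum]
    refine Finset.sum_congr rfl fun i _ => ?_
    rw [mul_pow, ← map_pow, ← map_pow, ← map_pow, rt1_pow, map_sub, map_mul]
    ring
  rw [Finset.sum_congr rfl fun b _ => h1 b, Finset.sum_comm]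
  refine Finset.sum_congr rfl fun i _ => ?_
  rw [pw, dotProduct, map_sum, Finset.sum_mul]

/-- The Artin–Schreier equation of the twisted form. -/
theorem zl_AS (G : GD p k K I F m₁ m₂ r M) (σ : I → Bool) (d : Xs k m₁ m₂) :
    G.zs σ (rtd p G.Λ d) ^ p - G.zs σ (p1 d) =
      ∑ i, (∑ a, algebraMap k K (Matrix.vecMul (fun a => d (Sum.inl a)) G.Λ⁻¹ a) *
        algebraMap (F i) K (G.f i a - wp p G.Λ (G.gf i (σ i)) a) +
        algebraMap k K ((fun b => d (Sum.inr b)) ⬝ᵥ G.D i) *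
          algebraMap (F i) K (G.e i - G.qf i (σ i) ^ p)) := by
  have hcK : CharP K p := charP_of_injective_algebraMap (algebraMap k K).injective p
  set d' := Matrix.vecMul (fun a => d (Sum.inl a)) G.Λ⁻¹ with hd'
  have hd'' : Matrix.vecMul d' G.Λ = fun a => d (Sum.inl a) := by
    rw [hd', Matrix.vecMul_vecMul, Matrix.nonsing_inv_mul _ G.Λu, Matrix.vecMul_one]
  have h5 := zlin_AS (k := k) (p := p) G.Λ G.z (G.gs σ)
    (fun a => ∑ i, algebraMap (F i) K (G.f i a)) G.AS d'
  rw [hd''] at h5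
  have h1 : G.zs σ (p1 d) = Pool.Agent.H96.W2.zlin k G.z (G.gs σ) fun a => d (Sum.inl a) := by
    rw [GD.zs, zl_apply, Pool.Agent.H96.W2.zlin_apply, Finset.sum_eq_zero (s := (Finset.univ : Finset (Fin m₂)))
      (fun b _ => by
        show algebraMap k K 0 * _ = 0
        rw [map_zero, zero_mul]), add_zero]
    rfl
  have h2 : G.zs σ (rtd p G.Λ d) = Pool.Agent.H96.W2.zlin k G.z (G.gs σ) (rtp p d') +
      G.zs σ (Sum.elim 0 fun b => rt1 p (d (Sum.inr b))) := by
    rw [GD.zs, zl_apply, Pool.Agent.H96.W2.zlin_apply, zl_apply, Finset.sum_eq_zero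
      (s := (Finset.univ : Finset (Fin m₁))) (f := fun a => algebraMap k K
        ((Sum.elim 0 fun b => rt1 p (d (Sum.inr b)) : Xs k m₁ m₂) (Sum.inl a)) * _) (fun b _ => by
        show algebraMap k K 0 * _ = 0
        rw [map_zero, zero_mul]), zero_add]
    rfl
  have h3 := zl_ins G σ (c := Sum.elim 0 fun b => rt1 p (d (Sum.inr b))) (fun a => rfl)
  have h6 : ∀ i, pw p G.D (Sum.elim 0 fun b => rt1 p (d (Sum.inr b)) : Xs k m₁ m₂) i =
      (fun b => d (Sum.inr b)) ⬝ᵥ G.D i := by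
    intro i
    rw [pw]
    congr 1
    funext b
    exact rt1_pow _
  rw [h1, h2, add_pow_char, h3, add_sub_right_comm, h5, Finset.sum_add_distrib]
  congr 1
  · have h7 : ∀ a, (∑ i, algebraMap (F i) K (G.f i a)) - wp p G.Λ (G.gs σ) a =
        ∑ i, algebraMap (F i) K (G.f i a - wp p G.Λ (G.gf i (σ i)) a) := by
      intro a
      have h7 : wp p G.Λ (G.gs σ) a = ∑ i, algebraMap (F i) K (wp p G.Λ (G.gf i (σ i)) a) := by
        simp only [wp, GD.gs, map_sub, map_sum, map_mul, map_pow, Finset.sum_sub_distrib,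
          ← IsScalarTower.algebraMap_apply]
        rw [sum_pow_char, Finset.sum_comm]
        congr 1
        exact Finset.sum_congr rfl fun b _ => by rw [Finset.mul_sum]
      rw [h7, ← Finset.sum_sub_distrib]
      exact Finset.sum_congr rfl fun i _ => (map_sub _ _ _).symm
    simp only [h7, Finset.mul_sum]
    rw [Finset.sum_comm]
  · exact Finset.sum_congr rfl fun i _ => by rw [h6]

end Pool.Agent.H96.W4
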