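import Pool.Agent.H96.W4.Glob

/-!
# The local data of the global data
-/

set_option autoImplicit false
set_option linter.unusedSectionVars false

namespace Pool.Agent.H96.W4

open MvPolynomial IsLocalRing Pool.Agent.H96.Reg Pool.Agent.H96.VL Pool.Agent.H96.W
open Pool.Agent.H96.W2 (wp wp_sub wp_le val_const_le val_const rtp rtp_pow zlin_AS aeval_map')

variable {p : ℕ} [Fact p.Prime] {k K : Type} [Field k] [Finite k] [CharP k p] [Field K] [Algebra k K]
    [Algebra (ZMod p) k] {I : Type} [Fintype I] [DecidableEq I] {F : I → Type}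
    [∀ i, Field (F i)] [∀ i, Algebra (ZMod p) (F i)] [∀ i, Algebra k (F i)]
    [∀ i, Algebra (F i) K] [∀ i, IsScalarTower k (F i) K]
    [∀ i, IsScalarTower (ZMod p) k (F i)] {m₁ m₂ r M : ℕ}

theorem nonempty_lg (G : GD p k K I F m₁ m₂ r M) (V : ValuationSubring K) : Nonempty (LG G V) := by
  classical
  -- the data of the curves
  have hex : ∀ i, ∃ (τ : F i) (ε : ℤ) (φ : F i) (c : Fin m₁ → k) (κ : Fin r → ℤ)
      (n : ℕ) (y : Fin (n + 1) → F i)
      (P : Fin (n + 1) → MvPolynomial (Fin (n + 1)) (ZMod p)) (l u : Fin (n + 1))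
      (v : Fin m₁ → Fin (n + 1)) (q : Fin r → Fin (n + 1)),
      (τ = 1 ∨ Unif (WV V (F i)) τ) ∧
      (∀ g ∈ (G.cd i).T, (WV V (F i)).valuation g ≤
        (WV V (F i)).valuation (τ * G.xf i (G.σV V i))) ∧
      (∃ g ∈ (G.cd i).T, (WV V (F i)).valuation g =
        (WV V (F i)).valuation (τ * G.xf i (G.σV V i))) ∧
      (∀ b a, (WV V (F i)).valuation (G.wf i b / G.wf i (G.σV V i) *
        (G.gf i (G.σV V i) a - G.gf i b a)) ≤ 1) ∧
      (∀ b, (WV V (F i)).valuation (G.wf i b / G.wf i (G.σV V i) *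
        (G.qf i (G.σV V i) - G.qf i b)) ≤ (WV V (F i)).valuation (τ ^ Q p M)) ∧
      LF p G.Λ (G.f i) (G.e i) (G.D i) (G.h i) (G.gf i (G.σV V i)) (G.qf i (G.σV V i)) M
        (WV V (F i)) τ ε φ c κ ∧
      Pres (WV V (F i)) n y P l ∧ (Unif (WV V (F i)) τ → y l = τ) ∧
      y u = φ * τ ^ (-ε) ∧ (τ = 1 → u = l ∨ G.D i = 0) ∧
      (∀ b, y (v b) = ∑ a, algebraMap k (F i) (G.Λ⁻¹ b a) *
        (G.f i a - wp p G.Λ (G.gf i (G.σV V i)) a - algebraMap k (F i) (c a) * φ)) ∧
      ∀ b, y (q b) = G.h i b * τ ^ (-κ b) := by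
    intro i
    have hci : CharP (F i) p := charP_of_injective_algebraMap (algebraMap k (F i)).injective p
    obtain ⟨τ, h1, h2, h3, h5, h6, ε, φ, c, κ, h4, hpres⟩ := (G.cd i).loc (WV V (F i))
    have hg : (fun a => gg (G.cd i).x ((G.cd i).g0 a) ((G.cd i).g1 a) (WV V (F i))) =
        G.gf i (G.σV V i) := by
      funext a; exact (G.gf_σV V i a).symm
    rw [hg, ← G.qf_σV V i] at h4
    rw [← G.xf_σV V i] at h2 h3
    have hh : (∀ b a, (WV V (F i)).valuation (G.wf i b / G.wf i (G.σV V i) *
        (G.gf i (G.σV V i) a - G.gf i b a)) ≤ 1) ∧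
        (∀ b, (WV V (F i)).valuation (G.wf i b / G.wf i (G.σV V i) *
        (G.qf i (G.σV V i) - G.qf i b)) ≤ (WV V (F i)).valuation (τ ^ Q p M)) := by
      rw [map_pow]
      by_cases h : (WV V (F i)).valuation (G.cd i).x ≤ 1
      · have hσ : G.σV V i = false := if_pos h
        rw [hσ]
        have h7 : G.wf i true / G.wf i false = (G.cd i).x ^ (Q p M * (G.cd i).N) := by
          rw [GD.wf, GD.wf]
          show ((G.cd i).x ^ (G.cd i).N) ^ Q p M / 1 ^ Q p M = _
          rw [one_pow, div_one, ← pow_mul, mul_comm]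
        refine ⟨fun b a => ?_, fun b => ?_⟩
        · cases b
          · rw [sub_self, mul_zero, map_zero]; exact zero_le
          · have h8 : G.gf i false a - G.gf i true a = -((G.cd i).g1 a - (G.cd i).g0 a) := by
              show (G.cd i).g0 a - (G.cd i).g1 a = _
              ring
            rw [h7, h8, mul_neg, Valuation.map_neg]
            exact (h5 h).1 a
        · cases b
          · rw [sub_self, mul_zero, map_zero]; exact zero_le
          · have h8 : G.qf i false - G.qf i true = -((G.cd i).q1 - (G.cd i).q0) := by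
              show (G.cd i).q0 - (G.cd i).q1 = _
              ring
            rw [h7, h8, mul_neg, Valuation.map_neg]
            exact (h5 h).2
      · have hσ : G.σV V i = true := if_neg h
        rw [hσ]
        have h7 : G.wf i false / G.wf i true = ((G.cd i).x ^ (Q p M * (G.cd i).N))⁻¹ := by
          rw [GD.wf, GD.wf]
          show 1 ^ Q p M / ((G.cd i).x ^ (G.cd i).N) ^ Q p M = _
          rw [one_pow, one_div, ← pow_mul, mul_comm]
        refine ⟨fun b a => ?_, fun b => ?_⟩
        · cases b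
          · have h8 : G.gf i true a - G.gf i false a = (G.cd i).g1 a - (G.cd i).g0 a := rfl
            rw [h7, h8, inv_mul_eq_div]
            exact (h6 h).1 a
          · rw [sub_self, mul_zero, map_zero]; exact zero_le
        · cases b
          · have h8 : G.qf i true - G.qf i false = (G.cd i).q1 - (G.cd i).q0 := rfl
            rw [h7, h8, inv_mul_eq_div]
            exact (h6 h).2
          · rw [sub_self, mul_zero, map_zero]; exact zero_le
    obtain ⟨n, y, P, l, hP, hE, hl, hl'⟩ := hpres
      ({φ * τ ^ (-ε)} ∪ ((Finset.univ.image fun b => ∑ a, algebraMap k (F i) (G.Λ⁻¹ b a) *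
        (G.f i a - wp p G.Λ (G.gf i (G.σV V i)) a - algebraMap k (F i) (c a) * φ)) ∪
        Finset.univ.image fun b => G.h i b * τ ^ (-κ b))) (by
        intro w hw
        rw [Finset.mem_union, Finset.mem_union, Finset.mem_singleton, Finset.mem_image,
          Finset.mem_image] at hw
        rcases hw with rfl | ⟨a, -, rfl⟩ | ⟨b, -, rfl⟩
        · exact h4.le
        · refine Valuation.map_sum_le _ fun b _ => ?_
          rw [map_mul]
          exact mul_le_one' (val_const_le _ _) (h4.reg b)
        · exact (h4.κ1 b).le)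
    obtain ⟨u, hu⟩ : ∃ u, y u = φ * τ ^ (-ε) ∧ (τ = 1 → u = l ∨ G.D i = 0) := by
      by_cases hD : G.D i = 0
      · obtain ⟨u, hu⟩ := hE _ (Finset.mem_union_left _ (Finset.mem_singleton_self _))
        exact ⟨u, hu, fun _ => Or.inr hD⟩
      · by_cases hτ : τ = 1
        · refine ⟨l, ?_, fun _ => Or.inl rfl⟩
          rw [hl' hD hτ, hτ, one_zpow, mul_one]
        · obtain ⟨u, hu⟩ := hE _ (Finset.mem_union_left _ (Finset.mem_singleton_self _))
          exact ⟨u, hu, fun h => absurd h hτ⟩
    choose v hv using fun a => hE _ (Finset.mem_union_right _ (Finset.mem_union_left _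
      (Finset.mem_image_of_mem (fun b => ∑ a, algebraMap k (F i) (G.Λ⁻¹ b a) *
        (G.f i a - wp p G.Λ (G.gf i (G.σV V i)) a - algebraMap k (F i) (c a) * φ))
        (Finset.mem_univ a))))
    choose q hq using fun b => hE _ (Finset.mem_union_right _ (Finset.mem_union_right _
      (Finset.mem_image_of_mem (fun b => G.h i b * τ ^ (-κ b)) (Finset.mem_univ b))))
    exact ⟨τ, ε, φ, c, κ, n, y, P, l, u, v, q, h1, h2, h3, hh.1, hh.2, h4, hP, hl, hu.1, hu.2, hv,
      hq⟩
  choose τ ε φ c κ n y P l u v q h1 h2 h3 hg1 hq1 h4 hP hl hu hul hv hq using hex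
  have hτ1 : ∀ i, (WV V (F i)).valuation (τ i) ≤ 1 := by
    intro i
    rcases h1 i with h | h
    · rw [h, map_one]
    · exact h.lt.le
  have hτ0 : ∀ i, τ i ≠ 0 := by
    intro i
    rcases h1 i with h | h
    · rw [h]; exact one_ne_zero
    · exact h.t0
  have hτ0' : ∀ i, algebraMap (F i) K (τ i) ≠ 0 := fun i => (map_ne_zero _).mpr (hτ0 i)
  have hyu : ∀ i, algebraMap (F i) K (y i (u i)) * algebraMap (F i) K (τ i) ^ ε i =
      algebraMap (F i) K (φ i) := by
    intro i
    rw [hu i, map_mul, map_zpow₀, mul_assoc, ← zpow_add₀ (hτ0' i), neg_add_cancel, zpow_zero,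
      mul_one]
  -- the second block
  have hD : ∀ (i : I) (a : k) (hi : G.D i = 0 → a = 0),
      algebraMap k K a * algebraMap (F i) K (G.e i - G.qf i (G.σV V i) ^ p) =
      algebraMap k K a * (algebraMap (F i) K (y i (u i)) * algebraMap (F i) K (τ i) ^ ε i) := by
    intro i a hi
    by_cases hDi : G.D i = 0
    · rw [hi hDi, map_zero, zero_mul, zero_mul]
    · rw [hyu, (h4 i).φD hDi]
  refine ⟨⟨⟨n, fun i b => algebraMap (F i) K (y i b),
    fun i b => MvPolynomial.map (algebraMap (ZMod p) k) (P i b), l, u, v, q, ε, κ,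
    fun i => algebraMap (F i) K (τ i), fun i => G.Λ⁻¹.mulVec (c i),
    rtd p G.Λ, G.zs (G.σV V), G.w, ?_, ?_, ?_, ?_, ?_, ?_, fun i => (h4 i).εM,
    rtd_surjective G.Λu, ?_, ?_, ?_,
    fun i b => (h4 i).κM b, G.Nw0, G.w0, ?_, ?_⟩, rfl, rfl, τ, fun i => rfl, hτ1, h2, h3, hg1, hq1,
    y, fun i b => rfl, ?_, ?_⟩⟩
  · exact fun i b => wv_le_one.mp ((hP i).vy b)
  · intro i
    rw [(hP i).G0, MvPolynomial.map_X]
  · intro i j
    rw [aeval_map', (hP i).rel, map_zero]
  · intro i
    have h5 : (Matrix.of fun a b => pderiv b (MvPolynomial.map (algebraMap (ZMod p) k)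
        (P i a))).det = MvPolynomial.map (algebraMap (ZMod p) k)
        (Matrix.of fun a b => pderiv b (P i a)).det := by
      rw [RingHom.map_det]
      refine congrArg Matrix.det ?_
      refine Matrix.ext fun a b => ?_
      exact pderiv_map (φ := algebraMap (ZMod p) k) (f := P i a) (i := b)
    rw [h5, aeval_map']
    exact wv_eq_one.mp (hP i).det
  · intro i
    rcases h1 i with h | h
    · left
      rw [h, map_one]
    · right
      exact ⟨wv_lt_one.mp h.lt, (map_ne_zero _).mpr h.t0, by rw [hl i h]⟩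
  · -- the types
    intro i
    rcases (h4 i).ty with ⟨h5, h6, -, -⟩ | ⟨h5, h6, h7, -⟩ | ⟨h5, h6, h7, h8⟩
    · left
      exact ⟨by rw [h5, Matrix.mulVec_zero], h6⟩
    · rcases hul i h6 with h8 | h8
      · right; left
        exact ⟨h5, by rw [h6, map_one], h8, by rw [h7, Matrix.mulVec_zero]⟩
      · left
        exact ⟨by rw [h7, Matrix.mulVec_zero], h8⟩
    · right; right
      refine ⟨h5, ?_, ?_, fun h9 => by rw [h8 h9, Matrix.mulVec_zero]⟩
      · rw [hu i]
        exact wv_eq_one.mp h6
      · intro h8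
        have h9 : τ i = 1 := by
          apply (algebraMap (F i) K).injective
          rw [h8, map_one]
        rw [h9] at h7
        exact not_unif_one h7
  · intro d hd
    refine ⟨ins_rtd hd, fun i => ?_⟩
    rw [dotProduct, Fintype.sum_sum_type, Finset.sum_eq_zero (fun a _ => by rw [hd a, zero_mul]),
      zero_add, pw, dotProduct]
    refine Finset.sum_congr rfl fun b _ => ?_
    show rt1 p (d (Sum.inr b)) ^ p * G.D i b = d (Sum.inr b) * G.D i b
    rw [rt1_pow]
  · -- the main equation
    intro d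
    rw [zl_AS]
    refine Finset.sum_congr rfl fun i _ => ?_
    set d' := Matrix.vecMul (fun a => d (Sum.inl a)) G.Λ⁻¹ with hd'
    have h8 : ∀ a, algebraMap (F i) K (G.f i a - wp p G.Λ (G.gf i (G.σV V i)) a) =
        algebraMap k K (c i a) *
          (algebraMap (F i) K (y i (u i)) * algebraMap (F i) K (τ i) ^ ε i) +
        algebraMap (F i) K (G.f i a - wp p G.Λ (G.gf i (G.σV V i)) a -
          algebraMap k (F i) (c i a) * φ i) := by
      intro a
      rw [hyu, map_sub _ (G.f i a - wp p G.Λ (G.gf i (G.σV V i)) a), map_mul,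
        ← IsScalarTower.algebraMap_apply]
      ring
    have h9 : d ⬝ᵥ dl (fun i => G.Λ⁻¹.mulVec (c i)) G.D i =
        d' ⬝ᵥ c i + (fun b => d (Sum.inr b)) ⬝ᵥ G.D i := by
      rw [dotProduct, Fintype.sum_sum_type]
      congr 1
      show (fun a => d (Sum.inl a)) ⬝ᵥ G.Λ⁻¹.mulVec (c i) = _
      rw [Matrix.dotProduct_mulVec]
    rw [h9, map_add, add_mul, hD i _ (fun h => by rw [h, dotProduct_zero])]
    simp only [h8, mul_add, Finset.sum_add_distrib]
    have e1 : ∑ a, algebraMap k K (d' a) * (algebraMap k K (c i a) *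
        (algebraMap (F i) K (y i (u i)) * algebraMap (F i) K (τ i) ^ ε i)) =
        algebraMap k K (d' ⬝ᵥ c i) *
          (algebraMap (F i) K (y i (u i)) * algebraMap (F i) K (τ i) ^ ε i) := by
      rw [dotProduct, map_sum, Finset.sum_mul]
      refine Finset.sum_congr rfl fun a _ => ?_
      rw [map_mul]
      ring
    have e2 : ∑ a, algebraMap k K (d' a) * algebraMap (F i) K (G.f i a -
        wp p G.Λ (G.gf i (G.σV V i)) a - algebraMap k (F i) (c i a) * φ i) =
        ∑ a, algebraMap k K (d (Sum.inl a)) * algebraMap (F i) K (y i (v i a)) := by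
      simp only [hv i, map_sum, Finset.mul_sum]
      rw [Finset.sum_comm]
      refine Finset.sum_congr rfl fun a _ => ?_
      rw [hd', Matrix.vecMul, dotProduct, map_sum, Finset.sum_mul]
      refine Finset.sum_congr rfl fun b _ => ?_
      rw [map_mul, map_mul (algebraMap (F i) K), ← IsScalarTower.algebraMap_apply]
      ring
    rw [e1, e2]
    ring
  · -- the inseparable equation
    intro c' hc'
    rw [zl_ins G _ hc']
    refine Finset.sum_congr rfl fun i _ => ?_
    exact hD i _ fun h => by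
      rw [pw, h, dotProduct_zero]
  · intro i b
    rw [hq i]
    exact wv_eq_one.mp ((h4 i).κ1 b)
  · intro b
    rw [G.KM]
    refine Finset.prod_congr rfl fun i _ => ?_
    rw [hq i, map_mul, map_zpow₀, mul_assoc, ← zpow_add₀ (hτ0' i), neg_add_cancel, zpow_zero,
      mul_one]
  · exact fun i b => (hP i).vy b
  · intro i w hw
    obtain ⟨a, s, h5, h6⟩ := (hP i).gen w hw
    refine ⟨MvPolynomial.map (algebraMap (ZMod p) k) a, MvPolynomial.map (algebraMap (ZMod p) k) s,
      ?_, ?_⟩
    · show V.valuation (aeval (fun b => algebraMap (F i) K (y i b)) _) = 1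
      rw [aeval_map']
      exact wv_eq_one.mp h5
    · show _ = aeval (fun b => algebraMap (F i) K (y i b)) _ /
        aeval (fun b => algebraMap (F i) K (y i b)) _
      rw [aeval_map', aeval_map', ← map_div₀, h6]

end Pool.Agent.H96.W4
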