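import Pool.Agent.H96.W4.Fit

/-!
# Joint form of the theorem on covers of products of curves
-/

set_option autoImplicit false
set_option linter.unusedSectionVars false

namespace Pool.Agent.H96.W4

open Pool.Agent.H19.OG Pool.Agent.H96.W
open Pool.Agent.H96.W2 (wp)

/-- The hypothesis at a place. -/
def Scj (p : ℕ) {k F : Type} [Field k] [Field F] [Algebra k F] {m : ℕ}
    (Λ : Matrix (Fin m) (Fin m) k) (f : Fin m → F) (W : ValuationSubring F) : Prop :=
  ∃ (φ : F) (c : Fin m → k) (g q : Fin m → F),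
    (W.valuation φ ≤ 1 ∨ ∀ y : F, W.valuation (y ^ p * φ) ≠ 1) ∧
    (∀ a, W.valuation (q a) ≤ 1) ∧
    ∀ a, f a = g a ^ p - ∑ b, algebraMap k F (Λ a b) * g b + algebraMap k F (c a) * φ +
      ∑ b, algebraMap k F (Λ a b) * q b

section lin
variable {k F : Type} [Field k] [Field F] [Algebra k F] {m m' m'' : ℕ}

/-- A matrix of constants applied to a vector. -/
def mv (P : Matrix (Fin m') (Fin m) k) (g : Fin m → F) (a : Fin m') : F :=
  ∑ j, algebraMap k F (P a j) * g j

theorem mv_mul (Q : Matrix (Fin m'') (Fin m') k) (P : Matrix (Fin m') (Fin m) k) (g : Fin m → F) :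
    mv (Q * P) g = mv Q (mv P g) := by
  funext a
  simp only [mv, Matrix.mul_apply, map_sum, map_mul, Finset.sum_mul, Finset.mul_sum]
  rw [Finset.sum_comm]
  refine Finset.sum_congr rfl fun b _ => Finset.sum_congr rfl fun j _ => ?_
  ring

theorem mv_pow (p : ℕ) [Fact p.Prime] [CharP F p] (P : Matrix (Fin m') (Fin m) k) (g : Fin m → F)
    (a : Fin m') : mv P g a ^ p = mv (P.map (· ^ p)) (fun j => g j ^ p) a := by
  simp only [mv, sum_pow_char, mul_pow, Matrix.map_apply, map_pow]

theorem mv_add (P : Matrix (Fin m') (Fin m) k) (g g' : Fin m → F) :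
    mv P (fun j => g j + g' j) = fun a => mv P g a + mv P g' a := by
  funext a
  simp only [mv, mul_add, Finset.sum_add_distrib]

theorem mv_sub (P : Matrix (Fin m') (Fin m) k) (g g' : Fin m → F) :
    mv P (fun j => g j - g' j) = fun a => mv P g a - mv P g' a := by
  funext a
  simp only [mv, mul_sub, Finset.sum_sub_distrib]

theorem mv_sum {ι : Type} (s : Finset ι) (P : Matrix (Fin m') (Fin m) k) (g : ι → Fin m → F) :
    mv P (fun j => ∑ i ∈ s, g i j) = fun a => ∑ i ∈ s, mv P (g i) a := by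
  funext a
  simp only [mv, Finset.mul_sum]
  rw [Finset.sum_comm]

theorem mv_const (P : Matrix (Fin m') (Fin m) k) (c : Fin m → k) (φ : F) (a : Fin m') :
    mv P (fun j => algebraMap k F (c j) * φ) a = algebraMap k F (∑ j, P a j * c j) * φ := by
  simp only [mv, map_sum, map_mul, Finset.sum_mul]
  refine Finset.sum_congr rfl fun j _ => ?_
  ring

theorem mv_le {W : ValuationSubring F} [Finite k] (P : Matrix (Fin m') (Fin m) k) {g : Fin m → F}
    (hg : ∀ a, W.valuation (g a) ≤ 1) (a : Fin m') : W.valuation (mv P g a) ≤ 1 := by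
  refine Valuation.map_sum_le _ fun j _ => ?_
  rw [map_mul]
  exact mul_le_one' (Pool.Agent.H96.W2.val_const_le W _) (hg j)

end lin

/-- **Models of fields generated by independent function fields of curves, elements `z` with
`z ^ p - Λ z = ∑ f i` and Kummer elements.** -/
theorem hasCharts_joint (p : ℕ) [Fact p.Prime] (k : Type) [Field k] [Finite k] [CharP k p]
    (K : Type) [Field K] [Algebra k K] (n m r : ℕ)
    (F : Fin n → IntermediateField k K)
    (hF : ∀ i, (F i).FG ∧ Algebra.trdeg k (F i) = 1)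
    (htr : Algebra.trdeg k K = n) (Λ : Matrix (Fin m) (Fin m) k)
    (hΛ : (Λ.map (· ^ p) * Λ).rank = Λ.rank)
    (f : ∀ i, Fin m → F i)
    (h : ∀ i, Fin r → F i) (z : Fin m → K) (w : Fin r → K) (N : Fin r → ℕ)
    (hf : ∀ i (W : ValuationSubring (F i)), W ≠ ⊤ → Scj p Λ (f i) W)
    (hz : ∀ a, z a ^ p - ∑ b, algebraMap k K (Λ a b) * z b = ∑ i, (f i a : K))
    (hh : ∀ i b, h i b ≠ 0) (hN : ∀ b, ¬ p ∣ N b)
    (hw : ∀ b, w b ^ N b = ∏ i, (h i b : K))
    (hgen : (⨆ i, F i) ⊔ IntermediateField.adjoin k (Set.range z ∪ Set.range w) = ⊤) :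
    HasCharts K := by
  classical
  have hcK : CharP K p := charP_of_injective_algebraMap (algebraMap k K).injective p
  have hcF : ∀ i, CharP (F i) p := fun i =>
    charP_of_injective_algebraMap (algebraMap k (F i)).injective p
  obtain ⟨m₁, m₂, P₁, P₂, Λ', Q₁, Q₂, hΛ', e1, e2, e3⟩ := exists_blocks p hΛ
  have coe_mv : ∀ {m' : ℕ} (P : Matrix (Fin m') (Fin m) k) (i : Fin n) (g : Fin m → F i)
      (a : Fin m'), ((mv P g a : F i) : K) = mv P (fun j => (g j : K)) a := by
    intro m' P i g a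
    simp only [mv, IntermediateField.coe_sum, IntermediateField.coe_mul]
    rfl
  have hz' : ∀ a, z a ^ p - mv Λ z a = ∑ i, (f i a : K) := hz
  -- the relations in block form
  have rel : ∀ {m' : ℕ} (P : Matrix (Fin m') (Fin m) k) (a : Fin m'),
      mv P z a ^ p - mv (P.map (· ^ p) * Λ) z a = ∑ i, ((mv (P.map (· ^ p)) (f i) a : F i) : K) := by
    intro m' P a
    have h1 : (fun j => ∑ i, (f i j : K)) = fun j => z j ^ p - mv Λ z j := by
      funext j; exact (hz' j).symm
    rw [mv_pow, mv_mul]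
    have h2 : ∑ i, ((mv (P.map (· ^ p)) (f i) a : F i) : K) =
        mv (P.map (· ^ p)) (fun j => ∑ i, (f i j : K)) a := by
      rw [mv_sum]
      refine Finset.sum_congr rfl fun i _ => ?_
      rw [coe_mv]
    rw [h2, h1, mv_sub]
  refine hasCharts_block2 p k K n m₁ m₂ r F hF htr Λ' hΛ'
    (fun i => mv (P₁.map (· ^ p)) (f i)) (fun i => mv (P₂.map (· ^ p)) (f i)) h (mv P₁ z)
    (mv P₂ z) w N ?_ ?_ ?_ hh hN hw ?_
  · intro i W hW
    obtain ⟨φ, c, g, q, h1, h2, h3⟩ := hf i W hW
    have h3' : f i = fun j => (g j ^ p - mv Λ g j + algebraMap k (F i) (c j) * φ) + mv Λ q j := by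
      funext j
      exact h3 j
    have key : ∀ {m' : ℕ} (P : Matrix (Fin m') (Fin m) k) (a : Fin m'),
        mv (P.map (· ^ p)) (f i) a = mv P g a ^ p - mv (P.map (· ^ p) * Λ) g a +
          algebraMap k (F i) (∑ j, (P a j) ^ p * c j) * φ + mv (P.map (· ^ p) * Λ) q a := by
      intro m' P a
      rw [h3', mv_add, mv_add, mv_sub, mv_pow, mv_mul, mv_mul]
      simp only [mv_const, Matrix.map_apply]
    refine ⟨φ, fun a => ∑ j, (P₁ a j) ^ p * c j, fun b => ∑ j, (P₂ b j) ^ p * c j, mv P₁ g,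
      mv P₂ g, h1, fun a => ?_, fun b => ?_⟩
    · rw [key, e1, mv_mul, mv_mul]
      have h4 : mv P₁ g a ^ p - mv Λ' (mv P₁ g) a +
          algebraMap k (F i) (∑ j, (P₁ a j) ^ p * c j) * φ + mv Λ' (mv P₁ q) a -
          wp p Λ' (mv P₁ g) a - algebraMap k (F i) (∑ j, (P₁ a j) ^ p * c j) * φ =
          mv Λ' (mv P₁ q) a := by
        simp only [wp, mv]
        ring
      rw [h4]
      exact mv_le _ (mv_le _ h2) a
    · rw [key, e2]
      have h4 : ∀ g : Fin m → F i, mv (0 : Matrix (Fin m₂) (Fin m) k) g b = 0 := by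
        intro g
        simp only [mv, Matrix.zero_apply, map_zero, zero_mul, Finset.sum_const_zero]
      rw [h4, h4]
      ring
  · intro a
    have h1 := rel P₁ a
    rw [e1, mv_mul] at h1
    exact h1
  · intro b
    have h1 := rel P₂ b
    rw [e2] at h1
    have h4 : mv (0 : Matrix (Fin m₂) (Fin m) k) z b = 0 := by
      simp only [mv, Matrix.zero_apply, map_zero, zero_mul, Finset.sum_const_zero]
    rw [h4, sub_zero] at h1
    exact h1
  · rw [eq_top_iff, ← hgen]
    refine sup_le le_sup_left ?_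
    rw [IntermediateField.adjoin_le_iff]
    set E := (⨆ i, F i) ⊔ IntermediateField.adjoin k
      (Set.range (mv P₁ z) ∪ Set.range (mv P₂ z) ∪ Set.range w) with hE
    have hEa : ∀ x ∈ (Set.range (mv P₁ z) ∪ Set.range (mv P₂ z) ∪ Set.range w), x ∈ E :=
      fun x hx => (le_sup_right : _ ≤ E) (IntermediateField.subset_adjoin _ _ hx)
    rintro _ (⟨a, rfl⟩ | ⟨a, rfl⟩)
    · have h1 : z a = mv Q₁ (mv P₁ z) a + mv Q₂ (mv P₂ z) a := by
        rw [← mv_mul, ← mv_mul]
        have h2 : mv (Q₁ * P₁) z a + mv (Q₂ * P₂) z a = mv (Q₁ * P₁ + Q₂ * P₂) z a := by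
          simp only [mv, Matrix.add_apply, map_add, add_mul, Finset.sum_add_distrib]
        rw [h2, e3]
        simp only [mv, Matrix.one_apply]
        rw [Finset.sum_eq_single a]
        · simp
        · intro b _ hb
          simp [Ne.symm hb]
        · intro ha; exact absurd (Finset.mem_univ a) ha
      show z a ∈ E
      rw [h1]
      refine E.add_mem (sum_mem fun j _ => ?_) (sum_mem fun j _ => ?_)
      · exact E.mul_mem (E.algebraMap_mem _) (hEa _ (Or.inl (Or.inl ⟨j, rfl⟩)))
      · exact E.mul_mem (E.algebraMap_mem _) (hEa _ (Or.inl (Or.inr ⟨j, rfl⟩)))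
    · exact hEa _ (Or.inr ⟨a, rfl⟩)

end Pool.Agent.H96.W4
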