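import Pool.Agent.H96.W2.LocB
import Pool.Agent.H96.W4.Ech
import Mathlib.Data.Prod.Lex

/-!
# The local data at a valuation
-/

set_option autoImplicit false
set_option linter.unusedSectionVars false

namespace Pool.Agent.H96.W4

open MvPolynomial IsLocalRing Pool.Agent.H96.Reg Pool.Agent.H96.VL Pool.Agent.H96.W
open Pool.Agent.H96.W2 (val_const val_const_le)

/-- The vectors of constants. -/
abbrev Xs (k : Type) (m₁ m₂ : ℕ) : Type := Fin m₁ ⊕ Fin m₂ → k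

/-- The projection to the first block. -/
def p1 {k : Type} [Field k] {m₁ m₂ : ℕ} : Xs k m₁ m₂ →ₗ[k] Xs k m₁ m₂ where
  toFun d := Sum.elim (fun a => d (Sum.inl a)) 0
  map_add' d d' := by
    funext s
    rcases s with a | b
    · rfl
    · show (0 : k) = 0 + 0
      rw [add_zero]
  map_smul' c d := by
    funext s
    rcases s with a | b
    · rfl
    · show (0 : k) = c • 0
      rw [smul_zero]

/-- The vanishing of the first block. -/
def Ins {k : Type} [Field k] {m₁ m₂ : ℕ} (c : Xs k m₁ m₂) : Prop := ∀ a, c (Sum.inl a) = 0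

/-- The pairing with the functions of the second block. -/
def pw (p : ℕ) {k I : Type} [Field k] {m₁ m₂ : ℕ} (D : I → Fin m₂ → k) (c : Xs k m₁ m₂) (i : I) : k :=
  (fun b => c (Sum.inr b) ^ p) ⬝ᵥ D i

/-- The indices which are involved in `z c`. -/
def Inv (p : ℕ) {k I : Type} [Field k] {m₁ m₂ : ℕ} (D : I → Fin m₂ → k) (c : Xs k m₁ m₂) :
    Option I → Prop
  | none => ¬ Ins c ∨ ∀ i, pw p D c i = 0
  | some i => pw p D c i ≠ 0

/-- The functionals of the functions. -/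
def dl {k I : Type} {m₁ m₂ : ℕ} (γ : I → Fin m₁ → k) (D : I → Fin m₂ → k) (i : I) : Xs k m₁ m₂ :=
  Sum.elim (γ i) (D i)

/-- The local data at `V`. -/
structure LD (p : ℕ) (k : Type) [Field k] {K : Type} [Field K] [Algebra k K]
    (V : ValuationSubring K) (I : Type) [Fintype I] (m₁ m₂ r : ℕ) (D : I → Fin m₂ → k)
    (Nw : Fin r → ℕ) (M : ℕ) where
  n : I → ℕ
  y : ∀ i, Fin (n i + 1) → K
  G : ∀ i, Fin (n i + 1) → MvPolynomial (Fin (n i + 1)) k
  l : ∀ i, Fin (n i + 1)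
  u : ∀ i, Fin (n i + 1)
  v : ∀ i, Fin m₁ → Fin (n i + 1)
  q : ∀ i, Fin r → Fin (n i + 1)
  e : I → ℤ
  κ : I → Fin r → ℤ
  t : I → K
  γ : I → Fin m₁ → k
  rt : Xs k m₁ m₂ → Xs k m₁ m₂
  z : Xs k m₁ m₂ →ₗ[k] K
  w : Fin r → K
  vy : ∀ i b, V.valuation (y i b) ≤ 1
  G0 : ∀ i, G i 0 = X (l i)
  rel : ∀ i (j : Fin (n i)), aeval (y i) (G i j.succ) = 0
  det : ∀ i, V.valuation (aeval (y i) (Matrix.of fun a b => pderiv b (G i a)).det) = 1
  t1 : ∀ i, t i = 1 ∨ (V.valuation (t i) < 1 ∧ t i ≠ 0 ∧ y i (l i) = t i)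
  typ : ∀ i, (γ i = 0 ∧ D i = 0) ∨ (e i = 0 ∧ t i = 1 ∧ u i = l i ∧ γ i = 0) ∨
    (¬ (p : ℤ) ∣ e i ∧ V.valuation (y i (u i)) = 1 ∧ t i ≠ 1 ∧ (0 < e i → γ i = 0))
  eM : ∀ i, |e i| ≤ M
  rts : Function.Surjective rt
  rtD : ∀ d, Ins d → Ins (rt d) ∧ ∀ i, pw p D (rt d) i = d ⬝ᵥ dl γ D i
  AS : ∀ d, z (rt d) ^ p - z (p1 d) = ∑ i, (algebraMap k K (d ⬝ᵥ dl γ D i) *
    (y i (u i) * t i ^ e i) + ∑ a, algebraMap k K (d (Sum.inl a)) * y i (v i a))
  ins : ∀ c, Ins c → z c ^ p = ∑ i, algebraMap k K (pw p D c i) * (y i (u i) * t i ^ e i)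
  κM : ∀ i b, |κ i b| ≤ M
  Nw0 : ∀ b, ¬ p ∣ Nw b
  w0 : ∀ b, w b ≠ 0
  vq : ∀ i b, V.valuation (y i (q i b)) = 1
  KM : ∀ b, w b ^ Nw b = ∏ i, (y i (q i b) * t i ^ κ i b)

/-- The index set of the coordinates. -/
abbrev Ix (k I : Type) (m₁ m₂ r : ℕ) : Type := I ⊕ (Xs k m₁ m₂ ⊕ Fin r)

/-- The cutoff. -/
def Q (p M : ℕ) : ℕ := p * M

theorem exists_inv {p : ℕ} {k I : Type} [Field k] {m₁ m₂ : ℕ} (D : I → Fin m₂ → k)
    (c : Xs k m₁ m₂) : ∃ j, Inv p D c j := by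
  by_cases h : ∀ i, pw p D c i = 0
  · exact ⟨none, Or.inr h⟩
  · push Not at h
    obtain ⟨i, hi⟩ := h
    exact ⟨some i, hi⟩

theorem ins_p1 {k : Type} [Field k] {m₁ m₂ : ℕ} {d : Xs k m₁ m₂} : Ins (p1 d) ↔ Ins d := Iff.rfl

theorem p1_of_ins {k : Type} [Field k] {m₁ m₂ : ℕ} {d : Xs k m₁ m₂} (h : Ins d) : p1 d = 0 := by
  funext s
  rcases s with a | b
  · exact h a
  · rfl

namespace LD

variable {p : ℕ} [Fact p.Prime] {k : Type} [Field k] [Fintype k] {K : Type} [Field K] [Algebra k K]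
  {V : ValuationSubring K} {I : Type} [Fintype I] [DecidableEq I] {m₁ m₂ r : ℕ}
  {D : I → Fin m₂ → k} {Nw : Fin r → ℕ} {M : ℕ} (L : LD p k V I m₁ m₂ r D Nw M)

theorem t_ne_zero (i : I) : L.t i ≠ 0 := by
  rcases L.t1 i with h | ⟨-, h, -⟩
  · rw [h]; exact one_ne_zero
  · exact h

theorem vt (i : I) : V.valuation (L.t i) ≤ 1 := by
  rcases L.t1 i with h | ⟨h, -, -⟩
  · rw [h, map_one]
  · exact h.le

/-- The coordinates with the trivial one. -/
def tt (j : Option I) : K := j.elim 1 L.t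

theorem tt_none : L.tt none = 1 := rfl

theorem tt_some (i : I) : L.tt (some i) = L.t i := rfl

theorem tt_ne_zero (j : Option I) : L.tt j ≠ 0 := by
  cases j
  · exact one_ne_zero
  · exact L.t_ne_zero _

theorem vtt (j : Option I) : V.valuation (L.tt j) ≤ 1 := by
  cases j
  · rw [tt_none, map_one]
  · exact L.vt _

theorem vfu (i : I) : V.valuation (L.y i (L.u i) * L.t i ^ L.e i) ≤ V.valuation (L.t i ^ L.e i) := by
  rw [map_mul]
  exact mul_le_of_le_one_left' (L.vy _ _)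

theorem vzpow_le (i : I) {a b : ℤ} (h : a ≤ b) :
    V.valuation (L.t i ^ b) ≤ V.valuation (L.t i ^ a) := by
  have h1 : L.t i ^ b = L.t i ^ (b - a) * L.t i ^ a := by
    rw [← zpow_add₀ (L.t_ne_zero i)]
    congr 1; ring
  rw [h1, map_mul]
  refine mul_le_of_le_one_left' ?_
  obtain ⟨n, hn⟩ := Int.eq_ofNat_of_zero_le (sub_nonneg.mpr h)
  rw [hn, zpow_natCast, map_pow]
  exact pow_le_one' (L.vt i) n

omit [Fintype k] [DecidableEq I] in
theorem M_le : M ≤ Q p M * p := by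
  have hp : 1 ≤ p := (Fact.out : p.Prime).one_le
  rw [Q]
  calc M ≤ p * M := Nat.le_mul_of_pos_left _ hp
    _ ≤ p * M * p := Nat.le_mul_of_pos_right _ hp

theorem cutoff (i : I) : V.valuation ((L.t i ^ Q p M) ^ p) ≤ V.valuation (L.t i ^ L.e i) := by
  rw [← pow_mul, ← zpow_natCast]
  apply L.vzpow_le
  exact ((abs_le.mp (L.eM i)).2).trans (by exact_mod_cast (M_le (p := p) (M := M)))

/-- `z c` is larger than the cutoff. -/
def isZ (c : Xs k m₁ m₂) : Prop :=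
  ∀ j, Inv p D c j → V.valuation (L.tt j ^ Q p M) ≤ V.valuation (L.z c)

theorem exists_piv (c : Xs k m₁ m₂) : ∃ j, Inv p D c j ∧
    ∀ j', Inv p D c j' → V.valuation (L.tt j' ^ Q p M) ≤ V.valuation (L.tt j ^ Q p M) := by
  classical
  obtain ⟨j₀, hj₀⟩ := exists_inv (p := p) D c
  obtain ⟨j, hj, hmax⟩ := Finset.exists_max_image (Finset.univ.filter fun j => Inv p D c j)
    (fun j => V.valuation (L.tt j ^ Q p M)) ⟨j₀, Finset.mem_filter.mpr ⟨Finset.mem_univ _, hj₀⟩⟩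
  exact ⟨j, (Finset.mem_filter.mp hj).2, fun j' hj' =>
    hmax j' (Finset.mem_filter.mpr ⟨Finset.mem_univ _, hj'⟩)⟩

/-- The pivot. -/
noncomputable def piv (c : Xs k m₁ m₂) : Option I := (L.exists_piv c).choose

theorem piv_inv (c : Xs k m₁ m₂) : Inv p D c (L.piv c) := (L.exists_piv c).choose_spec.1

theorem piv_max (c : Xs k m₁ m₂) (j : Option I) (hj : Inv p D c j) :
    V.valuation (L.tt j ^ Q p M) ≤ V.valuation (L.tt (L.piv c) ^ Q p M) :=
  (L.exists_piv c).choose_spec.2 j hj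

/-- The size of `z c`. -/
noncomputable def ω (c : Xs k m₁ m₂) : K :=
  open Classical in if L.isZ c then L.z c else L.tt (L.piv c) ^ Q p M

theorem ω_isZ {c : Xs k m₁ m₂} (h : L.isZ c) : L.ω c = L.z c := if_pos h

theorem ω_not {c : Xs k m₁ m₂} (h : ¬ L.isZ c) : L.ω c = L.tt (L.piv c) ^ Q p M := if_neg h

theorem vz_lt {c : Xs k m₁ m₂} (h : ¬ L.isZ c) :
    V.valuation (L.z c) < V.valuation (L.tt (L.piv c) ^ Q p M) := by
  rw [isZ] at h
  push Not at h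
  obtain ⟨j, hj, hlt⟩ := h
  exact hlt.trans_le (L.piv_max c j hj)

theorem ω_ne_zero (c : Xs k m₁ m₂) : L.ω c ≠ 0 := by
  by_cases hz : L.isZ c
  · rw [L.ω_isZ hz]
    intro h
    obtain ⟨j, hj⟩ := exists_inv (p := p) D c
    have h1 := hz j hj
    rw [h, map_zero] at h1
    have h2 : 0 < V.valuation (L.tt j ^ Q p M) := by
      rw [Valuation.pos_iff]; exact pow_ne_zero _ (L.tt_ne_zero j)
    exact absurd h1 (not_le.mpr h2)
  · rw [L.ω_not hz]
    exact pow_ne_zero _ (L.tt_ne_zero _)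

theorem vz_le (c : Xs k m₁ m₂) : V.valuation (L.z c) ≤ V.valuation (L.ω c) := by
  by_cases hz : L.isZ c
  · rw [L.ω_isZ hz]
  · rw [L.ω_not hz]
    exact (L.vz_lt hz).le

theorem vtt_le_ω {c : Xs k m₁ m₂} {j : Option I} (hj : Inv p D c j) :
    V.valuation (L.tt j ^ Q p M) ≤ V.valuation (L.ω c) := by
  by_cases hz : L.isZ c
  · rw [L.ω_isZ hz]; exact hz j hj
  · rw [L.ω_not hz]
    exact L.piv_max c j hj

theorem one_le_ω {c : Xs k m₁ m₂} (h : ¬ Ins c) : 1 ≤ V.valuation (L.ω c) := by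
  have h1 := L.vtt_le_ω (c := c) (j := none) (Or.inl h)
  rwa [L.tt_none, one_pow, map_one] at h1

theorem z_C0 {c : Xs k m₁ m₂} (h : Ins c) (h' : ∀ i, pw p D c i = 0) : L.z c = 0 := by
  have h1 : L.z c ^ p = 0 := by
    rw [L.ins c h]
    refine Finset.sum_eq_zero fun i _ => ?_
    rw [h' i, map_zero, zero_mul]
  exact pow_eq_zero_iff (Fact.out : p.Prime).ne_zero |>.mp h1

/-- The bound for the power in a relation. -/
theorem vrt_le {d : Xs k m₁ m₂} {δ : V.ValueGroup} (h1 : ¬ Ins d → 1 ≤ δ)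
    (hz : ¬ Ins d → V.valuation (L.z (p1 d)) ≤ δ)
    (hI : ∀ i, d ⬝ᵥ dl L.γ D i ≠ 0 → V.valuation (L.t i ^ L.e i) ≤ δ) :
    V.valuation (L.z (L.rt d) ^ p) ≤ δ := by
  have h2 : L.z (L.rt d) ^ p = (L.z (L.rt d) ^ p - L.z (p1 d)) + L.z (p1 d) := by ring
  rw [h2, L.AS]
  refine (V.valuation.map_add _ _).trans (max_le ?_ ?_)
  · refine Valuation.map_sum_le _ fun i _ => (V.valuation.map_add _ _).trans (max_le ?_ ?_)
    · by_cases hi : d ⬝ᵥ dl L.γ D i = 0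
      · rw [hi, map_zero, zero_mul, map_zero]
        exact zero_le
      · rw [map_mul]
        calc V.valuation (algebraMap k K (d ⬝ᵥ dl L.γ D i)) *
              V.valuation (L.y i (L.u i) * L.t i ^ L.e i) ≤ 1 * δ :=
              mul_le_mul' (val_const_le V _) ((L.vfu i).trans (hI i hi))
          _ = δ := one_mul _
    · refine Valuation.map_sum_le _ fun a _ => ?_
      by_cases hd : Ins d
      · rw [hd a, map_zero, zero_mul, map_zero]
        exact zero_le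
      · rw [map_mul]
        exact (mul_le_one' (val_const_le V _) (L.vy _ _)).trans (h1 hd)
  · by_cases hd : Ins d
    · rw [p1_of_ins hd, map_zero, map_zero]
      exact zero_le
    · exact hz hd

/-- The size of `z c` is bounded by the sizes of the functions. -/
theorem vω_rt_le {d : Xs k m₁ m₂} {δ : V.ValueGroup} (h1 : ¬ Ins d → 1 ≤ δ)
    (hz : ¬ Ins d → V.valuation (L.z (p1 d)) ≤ δ)
    (hI : ∀ i, d ⬝ᵥ dl L.γ D i ≠ 0 → V.valuation (L.t i ^ L.e i) ≤ δ)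
    (hne : ¬ Ins d ∨ ∃ i, d ⬝ᵥ dl L.γ D i ≠ 0) : V.valuation (L.ω (L.rt d) ^ p) ≤ δ := by
  by_cases hZ : L.isZ (L.rt d)
  · rw [L.ω_isZ hZ]
    exact L.vrt_le h1 hz hI
  rw [L.ω_not hZ]
  by_cases hd : Ins d
  · obtain ⟨h2, h3⟩ := L.rtD d hd
    have h4 := L.piv_inv (L.rt d)
    cases hj : L.piv (L.rt d) with
    | none =>
      rw [hj] at h4
      exfalso
      rcases h4 with h4 | h4
      · exact h4 h2
      · rcases hne with h5 | ⟨i, h5⟩
        · exact h5 hd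
        · apply h5
          rw [← h3 i]
          exact h4 i
    | some i =>
      rw [hj] at h4
      have h5 : pw p D (L.rt d) i ≠ 0 := h4
      rw [h3 i] at h5
      exact (L.cutoff i).trans (hI i h5)
  · refine le_trans ?_ (h1 hd)
    rw [map_pow, map_pow]
    exact pow_le_one' (pow_le_one' (L.vtt _) _) _

theorem vz_bd (c : Xs k m₁ m₂) : V.valuation (L.z c) ≤ 1 ∨
    ∃ j, V.valuation (L.z c ^ p) ≤ V.valuation (L.t j ^ L.e j) := by
  classical
  obtain ⟨c₀, -, hmax⟩ := Finset.exists_max_image (Finset.univ : Finset (Xs k m₁ m₂))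
    (fun c => V.valuation (L.z c)) ⟨c, Finset.mem_univ _⟩
  rcases le_or_gt (V.valuation (L.z c₀)) 1 with h1 | h1
  · exact Or.inl ((hmax c (Finset.mem_univ _)).trans h1)
  right
  obtain ⟨d, hd⟩ := L.rts c₀
  by_cases hI : ∃ i : I, True
  · obtain ⟨i₀, -⟩ := hI
    obtain ⟨j, -, hj⟩ := Finset.exists_max_image (Finset.univ : Finset I)
      (fun i => V.valuation (L.t i ^ L.e i)) ⟨i₀, Finset.mem_univ i₀⟩
    refine ⟨j, ?_⟩
    have hc : V.valuation (L.z c ^ p) ≤ V.valuation (L.z c₀ ^ p) := by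
      rw [map_pow, map_pow]
      exact pow_le_pow_left' (hmax c (Finset.mem_univ _)) _
    refine hc.trans ?_
    by_contra hcon
    rw [not_le] at hcon
    set δ := max (V.valuation (L.z c₀)) (V.valuation (L.t j ^ L.e j)) with hδ
    have h2 : V.valuation (L.z (L.rt d) ^ p) ≤ δ := L.vrt_le
      (fun _ => h1.le.trans (le_max_left _ _))
      (fun _ => (hmax (p1 d) (Finset.mem_univ _)).trans (le_max_left _ _))
      (fun i _ => (hj i (Finset.mem_univ _)).trans (le_max_right _ _))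
    rw [hd] at h2
    rcases le_max_iff.mp h2 with h3 | h3
    · rw [map_pow] at h3
      exact absurd h3 (not_le.mpr (lt_self_pow₀ h1 (Fact.out : p.Prime).one_lt))
    · exact absurd h3 (not_le.mpr hcon)
  · exfalso
    have h2 : V.valuation (L.z (L.rt d) ^ p) ≤ V.valuation (L.z c₀) := L.vrt_le
      (fun _ => h1.le) (fun _ => hmax (p1 d) (Finset.mem_univ _)) (fun i _ => absurd ⟨i, trivial⟩ hI)
    rw [hd, map_pow] at h2
    exact absurd h2 (not_le.mpr (lt_self_pow₀ h1 (Fact.out : p.Prime).one_lt))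

/-- The coordinates. -/
noncomputable def τ : Ix k I m₁ m₂ r → K :=
  Sum.elim L.t (Sum.elim (fun c => L.ω c * ∏ i, L.t i ^ Q p M) fun b => L.w b * ∏ i, L.t i ^ Q p M)

theorem τ_inl (i : I) : L.τ (Sum.inl i) = L.t i := rfl

theorem τ_c (c : Xs k m₁ m₂) : L.τ (Sum.inr (Sum.inl c)) = L.ω c * ∏ i, L.t i ^ Q p M := rfl

theorem τ_w (b : Fin r) : L.τ (Sum.inr (Sum.inr b)) = L.w b * ∏ i, L.t i ^ Q p M := rfl

theorem prodt_ne_zero : ∏ i, L.t i ^ Q p M ≠ 0 :=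
  Finset.prod_ne_zero_iff.mpr fun i _ => pow_ne_zero _ (L.t_ne_zero i)

theorem τ_ne_zero (α : Ix k I m₁ m₂ r) : L.τ α ≠ 0 := by
  rcases α with i | c | b
  · exact L.t_ne_zero i
  · exact mul_ne_zero (L.ω_ne_zero c) L.prodt_ne_zero
  · exact mul_ne_zero (L.w0 b) L.prodt_ne_zero

theorem vprod_le (i : I) : V.valuation (∏ i, L.t i ^ Q p M) ≤ V.valuation (L.t i ^ Q p M) := by
  rw [← Finset.mul_prod_erase Finset.univ _ (Finset.mem_univ i), map_mul]
  refine mul_le_of_le_one_right' ?_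
  rw [map_prod]
  refine Finset.prod_le_one' fun j _ => ?_
  rw [map_pow]
  exact pow_le_one' (L.vt j) _

theorem vprod_le_one : V.valuation (∏ i, L.t i ^ Q p M) ≤ 1 := by
  rw [map_prod]
  refine Finset.prod_le_one' fun j _ => ?_
  rw [map_pow]
  exact pow_le_one' (L.vt j) _

include L in
theorem Nw_ne_zero (b : Fin r) : Nw b ≠ 0 := by
  intro h
  apply L.Nw0 b
  rw [h]
  exact dvd_zero p

omit [Fintype k] [DecidableEq I] in
theorem M_le_Q : M ≤ Q p M := Nat.le_mul_of_pos_left _ (Fact.out : p.Prime).pos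

theorem vτw (b : Fin r) : V.valuation (L.w b * ∏ i, L.t i ^ Q p M) ≤ 1 := by
  have h0 := L.Nw_ne_zero b
  have h1 : V.valuation ((L.w b * ∏ i, L.t i ^ Q p M) ^ Nw b) ≤ 1 := by
    rw [mul_pow, L.KM, ← Finset.prod_pow, ← Finset.prod_mul_distrib, map_prod]
    refine Finset.prod_le_one' fun i _ => ?_
    rw [mul_assoc, map_mul]
    refine mul_le_one' (L.vy _ _) ?_
    rw [← pow_mul, ← zpow_natCast, ← zpow_add₀ (L.t_ne_zero i)]
    have h2 := (abs_le.mp (L.κM i b)).1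
    have h3 : (M : ℤ) ≤ ((Q p M * Nw b : ℕ) : ℤ) := by
      exact_mod_cast (M_le_Q (p := p)).trans (Nat.le_mul_of_pos_right _ (Nat.pos_of_ne_zero h0))
    have h4 := L.vzpow_le i (a := 0) (b := L.κ i b + ((Q p M * Nw b : ℕ) : ℤ)) (by linarith)
    rwa [zpow_zero, map_one] at h4
  by_contra hcon
  rw [map_pow] at h1
  exact absurd h1 (not_le.mpr (one_lt_pow₀ (not_le.mp hcon) h0))

theorem vτc (c : Xs k m₁ m₂) : V.valuation (L.ω c * ∏ i, L.t i ^ Q p M) ≤ 1 := by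
  by_cases hz : L.isZ c
  · rw [L.ω_isZ hz]
    rcases L.vz_bd c with h1 | ⟨j, h1⟩
    · rw [map_mul]
      exact mul_le_one' h1 L.vprod_le_one
    · have h2 : V.valuation ((L.z c * ∏ i, L.t i ^ Q p M) ^ p) ≤ 1 := by
        have h3 : V.valuation ((∏ i, L.t i ^ Q p M) ^ p) ≤ V.valuation ((L.t j ^ Q p M) ^ p) := by
          rw [map_pow, map_pow V.valuation (L.t j ^ Q p M) p]
          exact pow_le_pow_left' (L.vprod_le j) _
        rw [mul_pow, map_mul]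
        refine (mul_le_mul' h1 h3).trans ?_
        rw [← map_mul, ← pow_mul, ← zpow_natCast, ← zpow_add₀ (L.t_ne_zero j)]
        have h4 := L.vzpow_le j (a := 0) (b := L.e j + ((Q p M * p : ℕ) : ℤ)) (by
          have h5 := (abs_le.mp (L.eM j)).1
          have h7 : (M : ℤ) ≤ ((Q p M * p : ℕ) : ℤ) := by exact_mod_cast (M_le (p := p) (M := M))
          linarith)
        rw [zpow_zero, map_one] at h4
        exact h4
      by_contra hcon
      rw [map_pow] at h2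
      exact absurd h2 (not_le.mpr (one_lt_pow₀ (not_le.mp hcon) (Fact.out : p.Prime).ne_zero))
  · rw [L.ω_not hz, map_mul, map_pow]
    exact mul_le_one' (pow_le_one' (L.vtt _) _) L.vprod_le_one

theorem vτ (α : Ix k I m₁ m₂ r) : V.valuation (L.τ α) ≤ 1 := by
  rcases α with i | c | b
  · exact L.vt i
  · exact L.vτc c
  · exact L.vτw b

/-- The sizes of the possible pivots. -/
noncomputable def psz : Xs k m₁ m₂ ⊕ I → V.ValueGroup :=
  Sum.elim (fun b => V.valuation (L.ω b)) fun i => V.valuation (L.t i ^ L.e i)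

/-- The sizes with the priority of the coordinates. -/
noncomputable def pszl (j : Xs k m₁ m₂ ⊕ I) : V.ValueGroup ×ₗ ℕ :=
  toLex (L.psz j, Sum.elim (fun _ => 1) (fun _ => 0) j)

theorem psz_le {j j' : Xs k m₁ m₂ ⊕ I} (h : L.pszl j ≤ L.pszl j') : L.psz j ≤ L.psz j' := by
  rw [pszl, pszl, Prod.Lex.toLex_le_toLex] at h
  rcases h with h | h
  · exact h.le
  · exact h.1.le

theorem psz_lt {b : Xs k m₁ m₂} {i : I} (h : L.pszl (Sum.inl b) ≤ L.pszl (Sum.inr i)) :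
    L.psz (Sum.inl b) < L.psz (Sum.inr i) := by
  rw [pszl, pszl, Prod.Lex.toLex_le_toLex] at h
  rcases h with h | h
  · exact h
  · exact absurd h.2 (by simp)

/-- The exponent of `w b`. -/
def Ew (p : ℕ) (k I : Type) (m₁ m₂ M : ℕ) {r : ℕ} (b : Fin r) : Ix k I m₁ m₂ r → ℤ :=
  Sum.elim (fun _ => -(Q p M : ℤ)) (Sum.elim 0 (Pi.single b 1))

/-- The exponent of `ω c`. -/
def Ec (p : ℕ) {k : Type} [DecidableEq k] (I : Type) {m₁ m₂ : ℕ} (M r : ℕ) (c : Xs k m₁ m₂) :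
    Ix k I m₁ m₂ r → ℤ :=
  Sum.elim (fun _ => -(Q p M : ℤ)) (Sum.elim (Pi.single c 1) 0)

variable [DecidableEq k]

theorem mon_Ew (b : Fin r) : mon L.τ (Ew p k I m₁ m₂ M b) = L.w b := by
  rw [mon, Fintype.prod_sum_type, Fintype.prod_sum_type]
  have h1 : ∏ b', L.τ (Sum.inr (Sum.inr b')) ^ (Ew p k I m₁ m₂ M b (Sum.inr (Sum.inr b'))) =
      L.τ (Sum.inr (Sum.inr b)) := by
    rw [Finset.prod_eq_single b]
    · show L.τ (Sum.inr (Sum.inr b)) ^ ((Pi.single b 1 : Fin r → ℤ) b) = _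
      rw [Pi.single_eq_same, zpow_one]
    · intro b' _ hb
      show L.τ (Sum.inr (Sum.inr b')) ^ ((Pi.single b 1 : Fin r → ℤ) b') = _
      rw [Pi.single_eq_of_ne hb, zpow_zero]
    · intro h; exact absurd (Finset.mem_univ _) h
  have h2 : ∏ i, L.τ (Sum.inl i) ^ (Ew p k I m₁ m₂ M b (Sum.inl i)) = (∏ i, L.t i ^ Q p M)⁻¹ := by
    rw [← Finset.prod_inv_distrib]
    refine Finset.prod_congr rfl fun i _ => ?_
    show L.t i ^ (-(Q p M : ℤ)) = _
    rw [zpow_neg, zpow_natCast]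
  have h3 : ∏ c, L.τ (Sum.inr (Sum.inl c)) ^ (Ew p k I m₁ m₂ M b (Sum.inr (Sum.inl c))) = 1 :=
    Finset.prod_eq_one fun c _ => zpow_zero _
  rw [h1, h2, h3, L.τ_w, one_mul, mul_comm, mul_assoc, mul_inv_cancel₀ L.prodt_ne_zero, mul_one]

theorem mon_Ec (c : Xs k m₁ m₂) : mon L.τ (Ec p I M r c) = L.ω c := by
  rw [mon, Fintype.prod_sum_type, Fintype.prod_sum_type]
  have h1 : ∏ c', L.τ (Sum.inr (Sum.inl c')) ^ (Ec p I M r c (Sum.inr (Sum.inl c'))) =
      L.τ (Sum.inr (Sum.inl c)) := by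
    rw [Finset.prod_eq_single c]
    · show L.τ (Sum.inr (Sum.inl c)) ^ ((Pi.single c 1 : Xs k m₁ m₂ → ℤ) c) = _
      rw [Pi.single_eq_same, zpow_one]
    · intro b' _ hb
      show L.τ (Sum.inr (Sum.inl b')) ^ ((Pi.single c 1 : Xs k m₁ m₂ → ℤ) b') = _
      rw [Pi.single_eq_of_ne hb, zpow_zero]
    · intro h; exact absurd (Finset.mem_univ _) h
  have h2 : ∏ i, L.τ (Sum.inl i) ^ (Ec p I M r c (Sum.inl i)) = (∏ i, L.t i ^ Q p M)⁻¹ := by
    rw [← Finset.prod_inv_distrib]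
    refine Finset.prod_congr rfl fun i _ => ?_
    show L.t i ^ (-(Q p M : ℤ)) = _
    rw [zpow_neg, zpow_natCast]
  have h3 : ∏ b : Fin r, L.τ (Sum.inr (Sum.inr b)) ^ (Ec p I M r c (Sum.inr (Sum.inr b))) = 1 :=
    Finset.prod_eq_one fun c _ => zpow_zero _
  rw [h1, h2, h3, L.τ_c, mul_one, mul_comm, mul_assoc, mul_inv_cancel₀ L.prodt_ne_zero, mul_one]

end LD

section Kernels

variable {p : ℕ} [Fact p.Prime] {k : Type} [Field k] [CharP k p] {I : Type} {m₁ m₂ : ℕ}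

theorem pw_add (D : I → Fin m₂ → k) (c c' : Xs k m₁ m₂) (i : I) :
    pw p D (c + c') i = pw p D c i + pw p D c' i := by
  rw [pw, pw, pw, ← add_dotProduct]
  congr 1
  funext b
  rw [Pi.add_apply, Pi.add_apply, add_pow_char]

theorem pw_smul (D : I → Fin m₂ → k) (a : k) (c : Xs k m₁ m₂) (i : I) :
    pw p D (a • c) i = a ^ p * pw p D c i := by
  rw [pw, pw, ← smul_eq_mul, ← smul_dotProduct]
  congr 1
  funext b
  rw [Pi.smul_apply, Pi.smul_apply, smul_eq_mul, smul_eq_mul, mul_pow]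

/-- The kernel. -/
def C0 (p : ℕ) [Fact p.Prime] {k : Type} [Field k] [CharP k p] {I : Type} (m₁ : ℕ) {m₂ : ℕ}
    (D : I → Fin m₂ → k) : Submodule k (Xs k m₁ m₂) where
  carrier := {c | Ins c ∧ ∀ i, pw p D c i = 0}
  add_mem' := by
    rintro a b ⟨ha, ha'⟩ ⟨hb, hb'⟩
    refine ⟨fun s => ?_, fun i => ?_⟩
    · rw [Pi.add_apply, ha s, hb s, add_zero]
    · rw [pw_add, ha' i, hb' i, add_zero]
  zero_mem' := by
    refine ⟨fun s => rfl, fun i => ?_⟩
    have h1 := pw_smul (p := p) D 0 (0 : Xs k m₁ m₂) i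
    rw [zero_smul, zero_pow (Fact.out : p.Prime).ne_zero, zero_mul] at h1
    exact h1
  smul_mem' := by
    rintro a c ⟨hc, hc'⟩
    refine ⟨fun s => ?_, fun i => ?_⟩
    · rw [Pi.smul_apply, hc s, smul_zero]
    · rw [pw_smul, hc' i, mul_zero]

/-- The other kernel. -/
def K0 {k : Type} [Field k] {I : Type} (m₁ : ℕ) {m₂ : ℕ}
    (D : I → Fin m₂ → k) : Submodule k (Xs k m₁ m₂) where
  carrier := {c | Ins c ∧ ∀ i, (fun b => c (Sum.inr b)) ⬝ᵥ D i = 0}
  add_mem' := by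
    rintro a b ⟨ha, ha'⟩ ⟨hb, hb'⟩
    refine ⟨fun s => ?_, fun i => ?_⟩
    · rw [Pi.add_apply, ha s, hb s, add_zero]
    · have h1 : (fun s => (a + b) (Sum.inr s)) ⬝ᵥ D i =
          (fun s => a (Sum.inr s)) ⬝ᵥ D i + (fun s => b (Sum.inr s)) ⬝ᵥ D i := by
        rw [← add_dotProduct]; rfl
      rw [h1, ha' i, hb' i, add_zero]
  zero_mem' := by
    refine ⟨fun s => rfl, fun i => ?_⟩
    have h1 : (fun s => (0 : Xs k m₁ m₂) (Sum.inr s)) = (0 : Fin m₂ → k) := rfl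
    rw [h1, zero_dotProduct]
  smul_mem' := by
    rintro a c ⟨hc, hc'⟩
    refine ⟨fun s => ?_, fun i => ?_⟩
    · rw [Pi.smul_apply, hc s, smul_zero]
    · have h1 : (fun s => (a • c) (Sum.inr s)) ⬝ᵥ D i = a • ((fun s => c (Sum.inr s)) ⬝ᵥ D i) := by
        rw [← smul_dotProduct]; rfl
      rw [h1, hc' i, smul_zero]

theorem finrank_K0_le [Finite k] (D : I → Fin m₂ → k) :
    Module.finrank k (K0 m₁ D) ≤ Module.finrank k (C0 p m₁ D) := by
  classical
  have := Fintype.ofFinite k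
  let φ : K0 m₁ D → C0 p m₁ D := fun d => ⟨fun s => (frobeniusEquiv k p).symm ((d : Xs k m₁ m₂) s), by
    obtain ⟨h1, h2⟩ := d.2
    refine ⟨fun a => ?_, fun i => ?_⟩
    · show (frobeniusEquiv k p).symm ((d : Xs k m₁ m₂) (Sum.inl a)) = 0
      rw [h1 a, map_zero]
    · rw [← h2 i, pw]
      congr 1
      funext b
      exact frobeniusEquiv_symm_pow_p k p _⟩
  have hinj : Function.Injective φ := by
    intro a b hab
    apply Subtype.ext
    funext s
    have h1 := congrFun (congrArg Subtype.val hab) s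
    exact (frobeniusEquiv k p).symm.injective h1
  have := Fintype.ofFinite (K0 m₁ D)
  have := Fintype.ofFinite (C0 p m₁ D)
  have h1 := Fintype.card_le_of_injective φ hinj
  rw [Module.card_eq_pow_finrank (K := k) (V := K0 m₁ D),
    Module.card_eq_pow_finrank (K := k) (V := C0 p m₁ D)] at h1
  exact (Nat.pow_le_pow_iff_right Fintype.one_lt_card).mp h1

end Kernels

variable {p : ℕ} [Fact p.Prime] {k : Type} [Field k] [Fintype k] {K : Type} [Field K] [Algebra k K]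
  {V : ValuationSubring K} {I : Type} [Fintype I] [DecidableEq I] {m₁ m₂ r : ℕ}
  {D : I → Fin m₂ → k} {Nw : Fin r → ℕ} {M : ℕ}

/-- The echelon data. -/
structure ED (L : LD p k V I m₁ m₂ r D Nw M) where
  B : Finset (Xs k m₁ m₂)
  a : Xs k m₁ m₂ → Xs k m₁ m₂ → k
  J : Finset (Xs k m₁ m₂ ⊕ I)
  μ : Xs k m₁ m₂ ⊕ I → Xs k m₁ m₂
  ha : ∀ c b, a c b ≠ 0 → b ∈ B ∧ V.valuation (L.ω b) ≤ V.valuation (L.ω c)
  haz : ∀ c, L.z c = ∑ b ∈ B, algebraMap k K (a c b) * L.z b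
  ha0 : ∀ b, a 0 b = 0
  hai : ∀ c, ¬ Ins c → ∃ b, a c b ≠ 0 ∧ ¬ Ins b
  hJB : ∀ b, Sum.inl b ∈ J → b ∈ B
  hμ : ∀ j ∈ J, ell a p1 (dl L.γ D) (μ j) j = 1
  hμ0 : ∀ j ∈ J, ∀ j' ∈ J, j ≠ j' → ell a p1 (dl L.γ D) (μ j) j' = 0
  hμB : ∀ j ∈ J, ∀ b, a (p1 (μ j)) b ≠ 0 → L.pszl (Sum.inl b) ≤ L.pszl j
  hμI : ∀ j ∈ J, ∀ i, μ j ⬝ᵥ dl L.γ D i ≠ 0 → L.pszl (Sum.inr i) ≤ L.pszl j
  card : B.card ≤ J.card

theorem nonempty_ed [CharP k p] (L : LD p k V I m₁ m₂ r D Nw M) : Nonempty (ED L) := by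
  classical
  obtain ⟨B, a, J, μ, h1, h2, h3, h4, h5, h6, h7, h8, h9⟩ := exists_echelon4 (k := k) (I := I)
    p1 (dl L.γ D) L.pszl (C0 p m₁ D) (K0 m₁ D) (fun c => V.valuation (L.ω c)) (by
      rintro d ⟨hd, -⟩ hd'
      have hd1 : Ins d := hd
      refine ⟨hd1, fun i => ?_⟩
      have h := hd' i
      rw [dotProduct, Fintype.sum_sum_type, Finset.sum_eq_zero (fun a _ => by
        rw [hd1 a, zero_mul]), zero_add] at h
      exact h) (finrank_K0_le D)
  have hC : ∀ c ∈ C0 p m₁ D, L.z c = 0 := fun c hc => L.z_C0 hc.1 hc.2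
  refine ⟨⟨B, a, J, μ, h1, fun c => ?_, fun b => h3 0 (Submodule.zero_mem _) b, fun c hc => ?_, h4,
    h5, h6, h7, h8, h9⟩⟩
  · have h10 := hC _ (h2 c)
    rw [map_sub, map_sum, sub_eq_zero] at h10
    rw [h10]
    exact Finset.sum_congr rfl fun b _ => by rw [map_smul, Algebra.smul_def]
  · by_contra hcon
    push Not at hcon
    apply hc
    intro s
    have h10 := (h2 c).1 s
    rw [Pi.sub_apply, Finset.sum_apply, Finset.sum_eq_zero, sub_zero] at h10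
    · exact h10
    · intro b _
      rw [Pi.smul_apply]
      by_cases hb : a c b = 0
      · rw [hb, zero_smul]
      · rw [hcon b hb s, smul_zero]

namespace ED

variable {L : LD p k V I m₁ m₂ r D Nw M} (S : ED L)

theorem a_ne {c b : Xs k m₁ m₂} (hb : b ∉ S.B) : S.a c b = 0 := by
  by_contra h
  exact hb (S.ha c b h).1

/-- Relations with a nontrivial first block. -/
theorem one_le {j : Xs k m₁ m₂ ⊕ I} (hj : j ∈ S.J) (h : ¬ Ins (S.μ j)) : 1 ≤ L.psz j := by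
  obtain ⟨b, hb, hb'⟩ := S.hai (p1 (S.μ j)) h
  exact (L.one_le_ω hb').trans (L.psz_le (S.hμB j hj b hb))

theorem one_lt {i : I} (hj : Sum.inr i ∈ S.J) (h : ¬ Ins (S.μ (Sum.inr i))) :
    1 < V.valuation (L.t i ^ L.e i) := by
  obtain ⟨b, hb, hb'⟩ := S.hai (p1 (S.μ (Sum.inr i))) h
  exact (L.one_le_ω hb').trans_lt (L.psz_lt (S.hμB _ hj b hb))

/-- The relations of the smooth pivots have no first block. -/
theorem ins_of_le {i : I} (hj : Sum.inr i ∈ S.J) (h : 0 ≤ L.e i) : Ins (S.μ (Sum.inr i)) := by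
  by_contra hcon
  have h1 := S.one_lt hj hcon
  have h2 := L.vzpow_le i h
  rw [zpow_zero, map_one] at h2
  exact absurd h1 (not_lt.mpr h2)

theorem vz_p1 {j : Xs k m₁ m₂ ⊕ I} (hj : j ∈ S.J) : V.valuation (L.z (p1 (S.μ j))) ≤ L.psz j := by
  rw [S.haz]
  refine Valuation.map_sum_le _ fun b _ => ?_
  by_cases hb : S.a (p1 (S.μ j)) b = 0
  · rw [hb, map_zero, zero_mul, map_zero]
    exact zero_le
  · rw [map_mul]
    calc V.valuation (algebraMap k K (S.a (p1 (S.μ j)) b)) * V.valuation (L.z b) ≤ 1 * L.psz j :=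
          mul_le_mul' (val_const_le V _) ((L.vz_le b).trans (L.psz_le (S.hμB j hj b hb)))
      _ = _ := one_mul _

/-- The bound for the power. -/
theorem vω_le {j : Xs k m₁ m₂ ⊕ I} (hj : j ∈ S.J) {b : Xs k m₁ m₂}
    (hb : S.a (L.rt (S.μ j)) b ≠ 0) : V.valuation (L.ω b ^ p) ≤ L.psz j := by
  have h1 := (S.ha _ b hb).2
  have h2 : V.valuation (L.ω b ^ p) ≤ V.valuation (L.ω (L.rt (S.μ j)) ^ p) := by
    rw [map_pow, map_pow]
    exact pow_le_pow_left' h1 _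
  refine h2.trans (L.vω_rt_le (S.one_le hj) (fun _ => S.vz_p1 hj)
    (fun i hi => L.psz_le (S.hμI j hj i hi)) ?_)
  by_contra hcon
  push Not at hcon
  obtain ⟨h3, h4⟩ := hcon
  have h5 := S.hμ j hj
  rcases j with c | i
  · have h6 : S.a (p1 (S.μ (Sum.inl c))) c = 1 := h5
    rw [p1_of_ins h3, S.ha0] at h6
    exact zero_ne_one h6
  · have h6 : S.μ (Sum.inr i) ⬝ᵥ dl L.γ D i = 1 := h5
    rw [h4] at h6
    exact zero_ne_one h6

end ED

end Pool.Agent.H96.W4
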