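import Pool.Agent.H96.W4.LocA

/-!
# The relations of a chart
-/

set_option autoImplicit false
set_option linter.unusedSectionVars false

namespace Pool.Agent.H96.W4

open MvPolynomial IsLocalRing Pool.Agent.H96.Reg Pool.Agent.H96.VL Pool.Agent.H96.W
open Pool.Agent.H96.W2 (val_const val_const_le BX mem_BX zero_mem_BX single_mem_BX
  single_one_mem_BX neg_mem_BX)

section BXl

variable {ι : Type} [Fintype ι] [DecidableEq ι] {M : ℕ}

theorem zsingle_mem_BX (α : ι) {n : ℤ} (h : |n| ≤ M) : n • (Pi.single α 1 : ι → ℤ) ∈ BX ι M := by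
  rw [mem_BX]
  intro α'
  rw [Pi.smul_apply, smul_eq_mul, Pi.single_apply]
  split_ifs
  · rw [mul_one]; exact h
  · rw [mul_zero, abs_zero]; positivity

end BXl

variable {p : ℕ} [Fact p.Prime] {k : Type} [Field k] [Fintype k] [DecidableEq k] {K : Type}
  [Field K] [Algebra k K] {V : ValuationSubring K} {I : Type} [Fintype I] [DecidableEq I]
  {m₁ m₂ r : ℕ} {D : I → Fin m₂ → k} {Nw : Fin r → ℕ} {M M' : ℕ} {L : LD p k V I m₁ m₂ r D Nw M}

/-- The other variables. -/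
abbrev LD.υ (L : LD p k V I m₁ m₂ r D Nw M) : Type :=
  (Σ i : I, Fin (L.n i + 1)) ⊕ (Xs k m₁ m₂ ⊕ k)

/-- Their values. -/
noncomputable def LD.Y (L : LD p k V I m₁ m₂ r D Nw M) : L.υ → K :=
  Sum.elim (fun s => L.y s.1 s.2) (Sum.elim (fun c => L.z c / L.ω c) (algebraMap k K))

theorem LD.Y_inl (L : LD p k V I m₁ m₂ r D Nw M) (i : I) (b : Fin (L.n i + 1)) :
    L.Y (Sum.inl ⟨i, b⟩) = L.y i b := rfl

theorem LD.Y_c (L : LD p k V I m₁ m₂ r D Nw M) (c : Xs k m₁ m₂) :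
    L.Y (Sum.inr (Sum.inl c)) = L.z c / L.ω c := rfl

/-- The terms. -/
abbrev Tm (k I : Type) (m₁ m₂ : ℕ) : Type := (I ⊕ Xs k m₁ m₂) ⊕ (Xs k m₁ m₂ ⊕ Bool)

theorem LD.vY (L : LD p k V I m₁ m₂ r D Nw M) (l : L.υ) : V.valuation (L.Y l) ≤ 1 := by
  rcases l with ⟨i, b⟩ | c | c
  · exact L.vy i b
  · have h : 0 < V.valuation (L.ω c) := by rw [Valuation.pos_iff]; exact L.ω_ne_zero c
    rw [L.Y_c, map_div₀]
    exact (div_le_one₀ h).mpr (L.vz_le c)
  · exact val_const_le V c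

theorem LD.Y_mul (L : LD p k V I m₁ m₂ r D Nw M) (c : Xs k m₁ m₂) :
    L.Y (Sum.inr (Sum.inl c)) * L.ω c = L.z c := div_mul_cancel₀ _ (L.ω_ne_zero c)

theorem LD.Y_isZ (L : LD p k V I m₁ m₂ r D Nw M) {c : Xs k m₁ m₂} (hc : L.isZ c) :
    L.Y (Sum.inr (Sum.inl c)) = 1 := by
  rw [L.Y_c, ← L.ω_isZ hc, div_self (L.ω_ne_zero c)]

/-- The other exponent of `ω c`. -/
noncomputable def LD.θ (L : LD p k V I m₁ m₂ r D Nw M) (c : Xs k m₁ m₂) : Ix k I m₁ m₂ r → ℤ :=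
  (L.piv c).elim 0 fun j => (Q p M : ℤ) • Pi.single (Sum.inl j) 1

/-- The regular parts. -/
noncomputable def LD.reg (L : LD p k V I m₁ m₂ r D Nw M) (d : Xs k m₁ m₂) : MvPolynomial L.υ k :=
  ∑ i, ∑ a, MvPolynomial.C (d (Sum.inl a)) * X (Sum.inl ⟨i, L.v i a⟩)

theorem LD.aeval_reg (L : LD p k V I m₁ m₂ r D Nw M) (d : Xs k m₁ m₂) :
    aeval L.Y (L.reg d) = ∑ i, ∑ a, algebraMap k K (d (Sum.inl a)) * L.y i (L.v i a) := by
  rw [LD.reg, map_sum]
  refine Finset.sum_congr rfl fun i _ => ?_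
  rw [map_sum]
  refine Finset.sum_congr rfl fun a _ => ?_
  rw [map_mul, aeval_C, aeval_X]
  rfl

theorem LD.reg_ins (L : LD p k V I m₁ m₂ r D Nw M) {d : Xs k m₁ m₂} (hd : Ins d) :
    L.reg d = 0 := by
  rw [LD.reg]
  refine Finset.sum_eq_zero fun i _ => Finset.sum_eq_zero fun a _ => ?_
  rw [hd a, map_zero, zero_mul]

section Defs

variable (L) (S : ED L)

/-- The relations of the coordinates `τ_i`. -/
noncomputable def LD.cI (i : I) : Tm k I m₁ m₂ → MvPolynomial L.υ k :=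
  open Classical in Sum.elim (fun _ => 0) (Sum.elim (fun _ => 0) fun b => cond b 1
    (if L.t i = 1 then -1 else -X (Sum.inl ⟨i, L.l i⟩)))

def LD.xI (_L : LD p k V I m₁ m₂ r D Nw M) (i : I) : Tm k I m₁ m₂ → Ix k I m₁ m₂ r → ℤ :=
  Sum.elim (fun _ => 0) (Sum.elim (fun _ => 0) fun b => cond b (Pi.single (Sum.inl i) 1) 0)

/-- The relations of the curves. -/
noncomputable def LD.cG (i : I) (j : Fin (L.n i)) : Tm k I m₁ m₂ → MvPolynomial L.υ k :=
  Sum.elim (fun _ => 0) (Sum.elim (fun _ => 0) fun b =>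
    cond b 0 (rename (fun b => Sum.inl ⟨i, b⟩) (L.G i j.succ)))

/-- The relations of the coordinates `ω_c`. -/
noncomputable def LD.cP (c : Xs k m₁ m₂) : Tm k I m₁ m₂ → MvPolynomial L.υ k :=
  open Classical in if L.isZ c then Sum.elim (fun _ => 0) (Sum.elim (fun _ => 0) fun b =>
    cond b (X (Sum.inr (Sum.inl c))) (-1)) else
    Sum.elim (fun _ => 0) (Sum.elim (fun _ => 0) fun b => cond b 1 (-1))

noncomputable def LD.xP (c : Xs k m₁ m₂) : Tm k I m₁ m₂ → Ix k I m₁ m₂ r → ℤ :=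
  open Classical in if L.isZ c then fun _ => 0 else
    Sum.elim (fun _ => 0) (Sum.elim (fun _ => 0) fun b => cond b (LD.Ec p I M r c) (L.θ c))

/-- The Kummer relations. -/
noncomputable def LD.cW (b : Fin r) : Tm k I m₁ m₂ → MvPolynomial L.υ k :=
  Sum.elim (fun _ => 0) (Sum.elim (fun _ => 0) fun b' =>
    cond b' 1 (-∏ i, X (Sum.inl ⟨i, L.q i b⟩)))

def LD.xW (b : Fin r) : Tm k I m₁ m₂ → Ix k I m₁ m₂ r → ℤ :=
  Sum.elim (fun _ => 0) (Sum.elim (fun _ => 0) fun b' =>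
    cond b' ((Nw b : ℤ) • LD.Ew p k I m₁ m₂ M b) (Sum.elim (fun i => L.κ i b) 0))

/-- The relations of the constants. -/
noncomputable def LD.cK (a : k) : Tm k I m₁ m₂ → MvPolynomial L.υ k :=
  Sum.elim (fun _ => 0) (Sum.elim (fun _ => 0) fun b =>
    cond b 0 (X (Sum.inr (Sum.inr a)) - MvPolynomial.C a))

variable {L}

/-- The linear relations. -/
noncomputable def ED.cQ (c : Xs k m₁ m₂) : Tm k I m₁ m₂ → MvPolynomial L.υ k :=
  Sum.elim (Sum.elim (fun _ => 0) fun b =>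
    -(MvPolynomial.C (S.a c b) * X (Sum.inr (Sum.inl b)))) (Sum.elim (fun _ => 0) fun b =>
      cond b (X (Sum.inr (Sum.inl c))) 0)

def ED.xQ (_S : ED L) (c : Xs k m₁ m₂) : Tm k I m₁ m₂ → Ix k I m₁ m₂ r → ℤ :=
  Sum.elim (Sum.elim (fun _ => 0) fun b => LD.Ec p I M r b) (Sum.elim (fun _ => 0) fun b =>
    cond b (LD.Ec p I M r c) 0)

/-- The main relations. -/
noncomputable def ED.cJ (d : Xs k m₁ m₂) : Tm k I m₁ m₂ → MvPolynomial L.υ k :=
  Sum.elim (Sum.elim (fun i => -(MvPolynomial.C (d ⬝ᵥ dl L.γ D i) *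
      X (Sum.inl ⟨i, L.u i⟩))) fun b =>
        -(MvPolynomial.C (S.a (p1 d) b) * X (Sum.inr (Sum.inl b)))) (Sum.elim (fun b =>
      MvPolynomial.C (S.a (L.rt d) b ^ p) * X (Sum.inr (Sum.inl b)) ^ p) fun b =>
      cond b 0 (-L.reg d))

def ED.xJ (_S : ED L) : Tm k I m₁ m₂ → Ix k I m₁ m₂ r → ℤ :=
  Sum.elim (Sum.elim (fun i => L.e i • Pi.single (Sum.inl i) 1)
    fun b => LD.Ec p I M r b) (Sum.elim (fun b => (p : ℤ) • LD.Ec p I M r b) fun _ => 0)

end Defs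

section Rel

variable {S : ED L}

theorem sum_Tm {β : Type} [AddCommMonoid β] (g : Tm k I m₁ m₂ → β) : ∑ s, g s =
    (∑ i, g (Sum.inl (Sum.inl i)) + ∑ c, g (Sum.inl (Sum.inr c))) +
      (∑ c, g (Sum.inr (Sum.inl c)) + (g (Sum.inr (Sum.inr true)) + g (Sum.inr (Sum.inr false)))) := by
  rw [Fintype.sum_sum_type, Fintype.sum_sum_type, Fintype.sum_sum_type (f := fun x => g (Sum.inr x)),
    Fintype.sum_bool]

theorem mon_κ (b : Fin r) : mon L.τ (Sum.elim (fun i => L.κ i b) 0 : Ix k I m₁ m₂ r → ℤ) =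
    ∏ i, L.t i ^ L.κ i b := by
  rw [mon, Fintype.prod_sum_type]
  have h3 : ∏ c, L.τ (Sum.inr c) ^ ((Sum.elim (fun i => L.κ i b) 0 : Ix k I m₁ m₂ r → ℤ)
      (Sum.inr c)) = 1 := Finset.prod_eq_one fun c _ => zpow_zero _
  rw [h3, mul_one]
  rfl

theorem mon_θ {c : Xs k m₁ m₂} (hz : ¬ L.isZ c) : mon L.τ (L.θ c) = L.ω c := by
  rw [L.ω_not hz, LD.θ]
  cases L.piv c with
  | none =>
    rw [L.tt_none, one_pow]
    exact mon_zero
  | some j =>
    show mon L.τ ((Q p M : ℤ) • Pi.single (Sum.inl j) 1) = _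
    rw [mon_smul, mon_single, zpow_natCast]
    rfl

theorem rel_I (i : I) : ∑ s, aeval L.Y (L.cI i s) * mon L.τ (L.xI i s) = 0 := by
  classical
  rw [sum_Tm]
  simp only [LD.cI, LD.xI, Sum.elim_inl, Sum.elim_inr, map_zero, zero_mul,
    Finset.sum_const_zero, zero_add, cond_true, cond_false, map_one, one_mul, mon_zero, mul_one]
  rw [mon_single, L.τ_inl]
  split_ifs with h
  · rw [h, map_neg, map_one]; ring
  · rw [map_neg, aeval_X]
    rcases L.t1 i with h1 | ⟨-, -, h1⟩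
    · exact absurd h1 h
    · rw [L.Y_inl, h1]; ring

theorem rel_G (i : I) (j : Fin (L.n i)) :
    ∑ s, aeval L.Y (L.cG i j s) * mon L.τ ((0 : Tm k I m₁ m₂ → Ix k I m₁ m₂ r → ℤ) s) = 0 := by
  rw [sum_Tm]
  simp only [LD.cG, Sum.elim_inl, Sum.elim_inr, map_zero, zero_mul,
    Finset.sum_const_zero, zero_add, cond_true, cond_false]
  rw [aeval_rename]
  have : aeval (L.Y ∘ fun b => Sum.inl ⟨i, b⟩) (L.G i j.succ) = 0 := L.rel i j
  rw [this, zero_mul]

theorem rel_P (c : Xs k m₁ m₂) : ∑ s, aeval L.Y (L.cP c s) * mon L.τ (L.xP c s) = 0 := by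
  classical
  rw [sum_Tm]
  by_cases hc : L.isZ c
  · simp only [LD.cP, LD.xP, if_pos hc, Sum.elim_inl, Sum.elim_inr, map_zero, zero_mul,
      Finset.sum_const_zero, zero_add, cond_true, cond_false]
    rw [mon_zero, aeval_X, map_neg, map_one, mul_one, mul_one, L.Y_isZ hc]
    ring
  · simp only [LD.cP, LD.xP, if_neg hc, Sum.elim_inl, Sum.elim_inr, map_zero, zero_mul,
      Finset.sum_const_zero, zero_add, cond_true, cond_false, map_one, one_mul, L.mon_Ec, mon_θ hc]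
    rw [map_neg, map_one]; ring

theorem sum_a (c : Xs k m₁ m₂) :
    ∑ b, aeval L.Y (-(MvPolynomial.C (S.a c b) * X (Sum.inr (Sum.inl b))) : MvPolynomial L.υ k) *
      mon L.τ (LD.Ec p I M r b) = -L.z c := by
  rw [S.haz c, ← Finset.sum_neg_distrib, ← Finset.sum_subset (Finset.subset_univ S.B)]
  · refine Finset.sum_congr rfl fun b _ => ?_
    rw [L.mon_Ec, map_neg, map_mul, aeval_C, aeval_X, ← L.Y_mul b]
    ring
  · intro b _ hb
    rw [S.a_ne hb, map_zero, zero_mul, neg_zero, map_zero, zero_mul]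

theorem rel_Q (c : Xs k m₁ m₂) : ∑ s, aeval L.Y (S.cQ c s) * mon L.τ (S.xQ c s) = 0 := by
  rw [sum_Tm]
  simp only [ED.cQ, ED.xQ, Sum.elim_inl, Sum.elim_inr, map_zero, zero_mul,
    Finset.sum_const_zero, zero_add, cond_true, cond_false, L.mon_Ec, aeval_X, L.Y_mul, add_zero]
  have h1 := sum_a (S := S) c
  simp only [L.mon_Ec] at h1
  rw [h1]; ring

theorem rel_J [CharP k p] (d : Xs k m₁ m₂) :
    ∑ s, aeval L.Y (S.cJ d s) * mon L.τ (S.xJ s) = 0 := by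
  have hc : CharP K p := charP_of_injective_algebraMap (algebraMap k K).injective p
  rw [sum_Tm]
  simp only [ED.cJ, ED.xJ, Sum.elim_inl, Sum.elim_inr, map_zero, zero_mul, cond_true, cond_false,
    mon_zero, mul_one, zero_add]
  have h1 : ∑ i, aeval L.Y (-(MvPolynomial.C (d ⬝ᵥ dl L.γ D i) * X (Sum.inl ⟨i, L.u i⟩)) :
      MvPolynomial L.υ k) * mon L.τ (L.e i • Pi.single (Sum.inl i) 1) =
      -∑ i, algebraMap k K (d ⬝ᵥ dl L.γ D i) * (L.y i (L.u i) * L.t i ^ L.e i) := by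
    rw [← Finset.sum_neg_distrib]
    refine Finset.sum_congr rfl fun i _ => ?_
    rw [mon_smul, mon_single, L.τ_inl, map_neg, map_mul, aeval_C, aeval_X, L.Y_inl]
    ring
  have h2 : ∑ b, aeval L.Y (MvPolynomial.C (S.a (L.rt d) b ^ p) * X (Sum.inr (Sum.inl b)) ^ p :
      MvPolynomial L.υ k) * mon L.τ ((p : ℤ) • LD.Ec p I M r b) = L.z (L.rt d) ^ p := by
    rw [S.haz (L.rt d), sum_pow_char, ← Finset.sum_subset (Finset.subset_univ S.B)]
    · refine Finset.sum_congr rfl fun b hb => ?_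
      rw [map_mul, aeval_C, map_pow (algebraMap k K), map_pow (aeval L.Y), aeval_X, mon_smul,
        L.mon_Ec, zpow_natCast, mul_assoc, ← mul_pow, L.Y_mul b, mul_pow]
    · intro b _ hb
      rw [S.a_ne hb, zero_pow (Fact.out : p.Prime).ne_zero, map_zero, zero_mul, map_zero, zero_mul]
  have h3 := L.AS d
  rw [Finset.sum_add_distrib] at h3
  rw [h1, h2, sum_a, map_neg, L.aeval_reg]
  linear_combination h3

theorem rel_W (b : Fin r) : ∑ s, aeval L.Y (L.cW b s) * mon L.τ (L.xW b s) = 0 := by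
  rw [sum_Tm]
  simp only [LD.cW, LD.xW, Sum.elim_inl, Sum.elim_inr, cond_true, cond_false,
    map_zero, zero_mul, Finset.sum_const_zero, zero_add, map_one, one_mul]
  rw [mon_smul, L.mon_Ew, zpow_natCast, L.KM, mon_κ, map_neg, map_prod, Finset.prod_mul_distrib]
  have h1 : ∏ i, aeval L.Y (X (Sum.inl ⟨i, L.q i b⟩) : MvPolynomial L.υ k) = ∏ i, L.y i (L.q i b) :=
    Finset.prod_congr rfl fun i _ => by rw [aeval_X]; rfl
  rw [h1]; ring

theorem rel_K (a : k) :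
    ∑ s, aeval L.Y (L.cK a s) * mon L.τ ((0 : Tm k I m₁ m₂ → Ix k I m₁ m₂ r → ℤ) s) = 0 := by
  rw [sum_Tm]
  simp only [LD.cK, Sum.elim_inl, Sum.elim_inr, cond_true, cond_false,
    map_zero, zero_mul, Finset.sum_const_zero, zero_add]
  rw [map_sub, aeval_X, aeval_C]
  show (algebraMap k K a - algebraMap k K a) * _ = 0
  rw [sub_self, zero_mul]

end Rel

/-- The chart. -/
structure Ctx (L : LD p k V I m₁ m₂ r D Nw M) (M' : ℕ) (C : Cone (Ix k I m₁ m₂ r)) : Prop where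
  hC : IsCone C
  hb : ∀ j, V.valuation (mon L.τ (C.b j)) ≤ 1
  hS : ∀ u ∈ BX (Ix k I m₁ m₂ r) M', ∀ u' ∈ BX (Ix k I m₁ m₂ r) M', Sgn C (u - u')
  hM : M ≤ M'
  hp : p ≤ M'
  hQ : p * Q p M ≤ M'
  hN : ∀ b, Nw b ≤ M' ∧ Nw b * Q p M ≤ M'

section Mem

variable {S : ED L} {C : Cone (Ix k I m₁ m₂ r)}

theorem Ctx.one_le (h : Ctx L M' C) : 1 ≤ M' := (Fact.out : p.Prime).one_le.trans h.hp

theorem Ctx.Q_le (h : Ctx L M' C) : Q p M ≤ M' :=
  (Nat.le_mul_of_pos_left _ (Fact.out : p.Prime).pos).trans h.hQ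

theorem smul_Ec_mem (h : Ctx L M' C) (c : Xs k m₁ m₂) {n : ℕ} (hn : n ≤ p) :
    (n : ℤ) • LD.Ec p I M r c ∈ BX (Ix k I m₁ m₂ r) M' := by
  rw [mem_BX]
  rintro (i | c' | b)
  · show |(n : ℤ) * (-(Q p M : ℤ))| ≤ _
    rw [mul_neg, abs_neg, ← Nat.cast_mul, Nat.abs_cast]
    exact_mod_cast (Nat.mul_le_mul_right _ hn).trans h.hQ
  · show |(n : ℤ) * (Pi.single c 1 : Xs k m₁ m₂ → ℤ) c'| ≤ _
    rw [Pi.single_apply]
    split_ifs
    · rw [mul_one, Nat.abs_cast]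
      exact_mod_cast hn.trans h.hp
    · rw [mul_zero, abs_zero]; positivity
  · show |(n : ℤ) * 0| ≤ _
    rw [mul_zero, abs_zero]; positivity

theorem Ec_mem (h : Ctx L M' C) (c : Xs k m₁ m₂) :
    LD.Ec p I M r c ∈ BX (Ix k I m₁ m₂ r) M' := by
  have := smul_Ec_mem h c (n := 1) (Fact.out : p.Prime).one_le
  rwa [Nat.cast_one, one_smul] at this

theorem θ_mem (h : Ctx L M' C) (c : Xs k m₁ m₂) : L.θ c ∈ BX (Ix k I m₁ m₂ r) M' := by
  rw [LD.θ]
  cases L.piv c with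
  | none => exact zero_mem_BX
  | some j => exact single_mem_BX _ h.Q_le

theorem xI_mem (h : Ctx L M' C) (i : I) (s : Tm k I m₁ m₂) :
    L.xI i s ∈ BX (Ix k I m₁ m₂ r) M' := by
  rcases s with s | s | _ | _
  · exact zero_mem_BX
  · exact zero_mem_BX
  · exact zero_mem_BX
  · exact single_one_mem_BX _ h.one_le

theorem xP_mem (h : Ctx L M' C) (c : Xs k m₁ m₂) (s : Tm k I m₁ m₂) :
    L.xP c s ∈ BX (Ix k I m₁ m₂ r) M' := by
  classical
  rw [LD.xP]
  split_ifs with hc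
  · exact zero_mem_BX
  · rcases s with s | s | _ | _
    · exact zero_mem_BX
    · exact zero_mem_BX
    · exact θ_mem h c
    · exact Ec_mem h c

theorem xQ_mem (h : Ctx L M' C) (c : Xs k m₁ m₂) (s : Tm k I m₁ m₂) :
    S.xQ c s ∈ BX (Ix k I m₁ m₂ r) M' := by
  rcases s with (s | b) | s | _ | _
  · exact zero_mem_BX
  · exact Ec_mem h b
  · exact zero_mem_BX
  · exact zero_mem_BX
  · exact Ec_mem h c

theorem xJ_mem (h : Ctx L M' C) (s : Tm k I m₁ m₂) : S.xJ s ∈ BX (Ix k I m₁ m₂ r) M' := by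
  rcases s with (i | b) | b | _
  · exact zsingle_mem_BX _ ((L.eM i).trans (by exact_mod_cast h.hM))
  · exact Ec_mem h b
  · exact smul_Ec_mem h b le_rfl
  · exact zero_mem_BX

theorem xW_mem (h : Ctx L M' C) (b : Fin r) (s : Tm k I m₁ m₂) :
    L.xW b s ∈ BX (Ix k I m₁ m₂ r) M' := by
  rcases s with s | s | _ | _
  · exact zero_mem_BX
  · exact zero_mem_BX
  · rw [mem_BX]
    rintro (i | c)
    · exact (L.κM i b).trans (by exact_mod_cast h.hM)
    · show |(0 : ℤ)| ≤ _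
      rw [abs_zero]; positivity
  · rw [mem_BX]
    obtain ⟨h1, h2⟩ := h.hN b
    rintro (i | c | b')
    · show |(Nw b : ℤ) * (-(Q p M : ℤ))| ≤ _
      rw [mul_neg, abs_neg, ← Nat.cast_mul, Nat.abs_cast]
      exact_mod_cast h2
    · show |(Nw b : ℤ) * 0| ≤ _
      rw [mul_zero, abs_zero]; positivity
    · show |(Nw b : ℤ) * (Pi.single b 1 : Fin r → ℤ) b'| ≤ _
      rw [Pi.single_apply]
      split_ifs
      · rw [mul_one, Nat.abs_cast]
        exact_mod_cast h1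
      · rw [mul_zero, abs_zero]; positivity

end Mem

end Pool.Agent.H96.W4
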