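import Pool.Agent.H96.W4.LocB
import Pool.Agent.H96.W2.LocC

/-!
# The differentials of the relations
-/

set_option autoImplicit false
set_option linter.unusedSectionVars false

namespace Pool.Agent.H96.W4

open MvPolynomial IsLocalRing Pool.Agent.H96.Reg Pool.Agent.H96.VL Pool.Agent.H96.W
open Pool.Agent.H96.W2 (val_const val_const_le BX mem_BX zero_mem_BX single_mem_BX
  single_one_mem_BX neg_mem_BX natCast_p natCast_ne CompatA)

theorem intCast_ne {p : ℕ} (k : Type) [Field k] {K : Type} [Field K] (V : ValuationSubring K)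
    [CharP k p] [Algebra k (ResidueField V)] {n : ℤ} (hn : ¬ (p : ℤ) ∣ n) :
    (n : ResidueField V) ≠ 0 := by
  have hc : CharP (ResidueField V) p :=
    charP_of_injective_algebraMap (algebraMap k (ResidueField V)).injective p
  rwa [Ne, CharP.intCast_eq_zero_iff (ResidueField V) p]

variable {p : ℕ} [Fact p.Prime] {k : Type} [Field k] [Fintype k] [DecidableEq k] {K : Type}
  [Field K] [Algebra k K] {V : ValuationSubring K} {I : Type} [Fintype I] [DecidableEq I]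
  {m₁ m₂ r : ℕ} {D : I → Fin m₂ → k} {Nw : Fin r → ℕ} {M M' : ℕ} {L : LD p k V I m₁ m₂ r D Nw M}
  [CharP k p] [Algebra k (ResidueField V)] {C : Cone (Ix k I m₁ m₂ r)} {S : ED L}

theorem cast_Q (k : Type) [Field k] [CharP k p] (V : ValuationSubring K)
    [Algebra k (ResidueField V)] (M : ℕ) : ((Q p M : ℕ) : ResidueField V) = 0 := by
  rw [Q, Nat.cast_mul, natCast_p k V, zero_mul]

theorem cast_neg_Q (k : Type) [Field k] [CharP k p] (V : ValuationSubring K)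
    [Algebra k (ResidueField V)] (M : ℕ) : ((-(Q p M : ℤ) : ℤ) : ResidueField V) = 0 := by
  rw [Int.cast_neg, Int.cast_natCast, cast_Q k, neg_zero]

theorem cast_θ (c : Xs k m₁ m₂) (α : Ix k I m₁ m₂ r) :
    ((L.θ c α : ℤ) : ResidueField V) = 0 := by
  rw [LD.θ]
  cases L.piv c with
  | none =>
    show (((0 : Ix k I m₁ m₂ r → ℤ) α : ℤ) : ResidueField V) = 0
    rw [Pi.zero_apply, Int.cast_zero]
  | some j =>
    show ((((Q p M : ℤ) • (Pi.single (Sum.inl j) 1 : Ix k I m₁ m₂ r → ℤ)) α : ℤ) :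
      ResidueField V) = 0
    rw [Pi.smul_apply, smul_eq_mul, Int.cast_mul, Int.cast_natCast, cast_Q k, zero_mul]

theorem cast_Ec_of_ne {c : Xs k m₁ m₂} {α : Ix k I m₁ m₂ r} (hα : α ≠ Sum.inr (Sum.inl c)) :
    ((LD.Ec p I M r c α : ℤ) : ResidueField V) = 0 := by
  rcases α with i | c' | b
  · exact cast_neg_Q k V M
  · show (((Pi.single c 1 : Xs k m₁ m₂ → ℤ) c' : ℤ) : ResidueField V) = 0
    rw [Pi.single_eq_of_ne (fun h => hα (by rw [h])), Int.cast_zero]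
  · show (((0 : ℤ)) : ResidueField V) = 0
    rw [Int.cast_zero]

theorem cast_Ec_self (c : Xs k m₁ m₂) :
    ((LD.Ec p I M r c (Sum.inr (Sum.inl c)) : ℤ) : ResidueField V) = 1 := by
  show (((Pi.single c 1 : Xs k m₁ m₂ → ℤ) c : ℤ) : ResidueField V) = 1
  rw [Pi.single_eq_same, Int.cast_one]

theorem zcast_zero (V : ValuationSubring K) : (((0 : ℤ)) : ResidueField V) = 0 := Int.cast_zero

section RI

theorem LL_I_one (h : Ctx L M' C) {i : I} (ht : L.t i = 1) :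
    LL V L.τ L.Y C (L.cI i) (L.xI i) (Sum.inl i) ≠ 0 := by
  classical
  refine LL_ne_zero (Sum.inr (Sum.inr true)) ?_ ?_ ?_ ?_
  · rintro (s | s | _ | _) hs
    · exact Or.inl rfl
    · exact Or.inl rfl
    · exact Or.inr (Or.inr (zcast_zero V))
    · exact absurd rfl hs
  · show aeval _ (1 : MvPolynomial L.υ k) ≠ 0
    rw [map_one]; exact one_ne_zero
  · refine ee_ne_zero L.τ_ne_zero h.hC h.hb
      (fun s _ s' _ => h.hS _ (xI_mem h i s) _ (xI_mem h i s'))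
      (show L.cI i (Sum.inr (Sum.inr true)) ≠ 0 from one_ne_zero) ?_
    rintro (s | s | _ | _) hs
    · exact absurd rfl hs
    · exact absurd rfl hs
    · show V.valuation (mon L.τ 0) ≤ V.valuation (mon L.τ (Pi.single (Sum.inl i) 1))
      rw [mon_zero, mon_single, L.τ_inl, ht]
    · exact le_rfl
  · show (((Pi.single (Sum.inl i) 1 : Ix k I m₁ m₂ r → ℤ) (Sum.inl i) : ℤ) :
      ResidueField V) ≠ 0
    rw [Pi.single_eq_same, Int.cast_one]
    exact one_ne_zero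

theorem LL_I_of_ne {i : I} {α : Ix k I m₁ m₂ r} (hα : α ≠ Sum.inl i) :
    LL V L.τ L.Y C (L.cI i) (L.xI i) α = 0 := by
  apply LL_eq_zero
  rintro (s | s | _ | _)
  · exact Or.inl rfl
  · exact Or.inl rfl
  · exact Or.inr (Or.inr (zcast_zero V))
  · right; right
    show (((Pi.single (Sum.inl i) 1 : Ix k I m₁ m₂ r → ℤ) α : ℤ) : ResidueField V) = 0
    rw [Pi.single_eq_of_ne hα, Int.cast_zero]

theorem cI_false_ne (i : I) : L.cI i (Sum.inr (Sum.inr false)) ≠ 0 := by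
  classical
  show (if L.t i = 1 then -1 else -X (Sum.inl ⟨i, L.l i⟩) : MvPolynomial L.υ k) ≠ 0
  split_ifs
  · exact neg_ne_zero.mpr one_ne_zero
  · exact neg_ne_zero.mpr (X_ne_zero _)

theorem vt_lt {i : I} (ht : L.t i ≠ 1) : V.valuation (L.t i) < 1 := by
  rcases L.t1 i with h1 | ⟨h1, -, -⟩
  · exact absurd h1 ht
  · exact h1

theorem LL_I_unif (h : Ctx L M' C) {i : I} (ht : L.t i ≠ 1) (α : Ix k I m₁ m₂ r) :
    LL V L.τ L.Y C (L.cI i) (L.xI i) α = 0 := by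
  apply LL_eq_zero
  rintro (s | s | _ | _)
  · exact Or.inl rfl
  · exact Or.inl rfl
  · exact Or.inr (Or.inr (zcast_zero V))
  · right; left
    refine ee_eq_zero L.τ_ne_zero h.hC h.hb
      (fun s _ s' _ => h.hS _ (xI_mem h i s) _ (xI_mem h i s'))
      (show L.cI i (Sum.inr (Sum.inr true)) ≠ 0 from one_ne_zero) (cI_false_ne i) ?_
    show V.valuation (mon L.τ (Pi.single (Sum.inl i) 1)) < V.valuation (mon L.τ 0)
    rw [mon_zero, mon_single, L.τ_inl, map_one]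
    exact vt_lt ht

theorem TT_I_one {i : I} (ht : L.t i = 1) (l : L.υ) :
    TT V L.τ L.Y C (L.cI i) (L.xI i) l = 0 := by
  classical
  apply TT_eq_zero
  rintro (s | s | _ | _)
  · exact map_zero _
  · exact map_zero _
  · show pderiv l (if L.t i = 1 then -1 else -X (Sum.inl ⟨i, L.l i⟩) : MvPolynomial L.υ k) = 0
    rw [if_pos ht, map_neg, ← MvPolynomial.C_1, pderiv_C, neg_zero]
  · show pderiv l (1 : MvPolynomial L.υ k) = 0
    rw [← MvPolynomial.C_1, pderiv_C]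

theorem TT_I_unif (h : Ctx L M' C) {i : I} (ht : L.t i ≠ 1) : ∃ w : ResidueField V, w ≠ 0 ∧
    ∀ l, TT V L.τ L.Y C (L.cI i) (L.xI i) l = if l = Sum.inl ⟨i, L.l i⟩ then w else 0 := by
  classical
  refine ⟨-ee V L.τ C (mrel C (L.cI i) (L.xI i)) (Sum.inr (Sum.inr false)), neg_ne_zero.mpr ?_,
    fun l => ?_⟩
  · refine ee_ne_zero L.τ_ne_zero h.hC h.hb
      (fun s _ s' _ => h.hS _ (xI_mem h i s) _ (xI_mem h i s'))
      (cI_false_ne i) ?_
    rintro (s | s | _ | _) hs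
    · exact absurd rfl hs
    · exact absurd rfl hs
    · exact le_rfl
    · show V.valuation (mon L.τ (Pi.single (Sum.inl i) 1)) ≤ V.valuation (mon L.τ 0)
      rw [mon_zero, mon_single, L.τ_inl, map_one]
      exact (vt_lt ht).le
  · rw [TT_eq_single (Sum.inr (Sum.inr false))]
    · have h1 : L.cI i (Sum.inr (Sum.inr false)) = -X (Sum.inl ⟨i, L.l i⟩) := if_neg ht
      rw [h1, map_neg, pderiv_X, Pi.single_apply]
      by_cases hl : l = Sum.inl ⟨i, L.l i⟩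
      · rw [if_pos hl.symm, if_pos hl, map_neg, map_one, neg_one_mul]
      · rw [if_neg (Ne.symm hl), if_neg hl, neg_zero, map_zero, zero_mul]
    · rintro (s | s | _ | _) hs
      · exact map_zero _
      · exact map_zero _
      · exact absurd rfl hs
      · show pderiv l (1 : MvPolynomial L.υ k) = 0
        rw [← MvPolynomial.C_1, pderiv_C]

theorem TT_I_inr (h : Ctx L M' C) (i : I) (l : Xs k m₁ m₂ ⊕ k) :
    TT V L.τ L.Y C (L.cI i) (L.xI i) (Sum.inr l) = 0 := by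
  by_cases hi : L.t i = 1
  · exact TT_I_one hi _
  · obtain ⟨w, -, hw⟩ := TT_I_unif (L := L) h hi
    rw [hw, if_neg Sum.inr_ne_inl]

end RI

section RG

theorem LL_zero (c : Tm k I m₁ m₂ → MvPolynomial L.υ k) (α : Ix k I m₁ m₂ r) :
    LL V L.τ L.Y C c 0 α = 0 := by
  apply LL_eq_zero
  intro s
  exact Or.inr (Or.inr (zcast_zero V))

/-- Relations with a single term. -/
theorem TT_false {c : Tm k I m₁ m₂ → MvPolynomial L.υ k}
    (hc : ∀ s, s ≠ Sum.inr (Sum.inr false) → c s = 0) (l : L.υ) :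
    TT V L.τ L.Y C c 0 l =
      aeval (fun l => resv V (L.Y l)) (pderiv l (c (Sum.inr (Sum.inr false)))) := by
  classical
  rw [TT_eq_single (Sum.inr (Sum.inr false))]
  · by_cases h2 : c (Sum.inr (Sum.inr false)) = 0
    · rw [h2, map_zero, map_zero, zero_mul]
    · have he : ee V L.τ C (mrel C c 0) (Sum.inr (Sum.inr false)) = 1 :=
        ee_eq_one (fun s _ => rfl) h2
      rw [he, mul_one]
  · intro s hs
    rw [hc s hs, map_zero]

theorem TT_G (i : I) (j : Fin (L.n i)) (l : L.υ) :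
    TT V L.τ L.Y C (L.cG i j) 0 l = aeval (fun l => resv V (L.Y l))
      (pderiv l (rename (fun b => Sum.inl ⟨i, b⟩) (L.G i j.succ) : MvPolynomial L.υ k)) := by
  refine TT_false ?_ l
  rintro (s | s | _ | _) hs
  · rfl
  · rfl
  · exact absurd rfl hs
  · rfl

theorem TT_G_same (i : I) (j : Fin (L.n i)) (b : Fin (L.n i + 1)) :
    TT V L.τ L.Y C (L.cG i j) 0 (Sum.inl ⟨i, b⟩ : L.υ) =
      aeval (fun b => resv V (L.y i b)) (pderiv b (L.G i j.succ)) := by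
  have hinj : Function.Injective (fun b : Fin (L.n i + 1) => (Sum.inl ⟨i, b⟩ : L.υ)) := by
    intro b b' hbb
    simpa using hbb
  have h1 := pderiv_rename hinj b (L.G i j.succ)
  rw [TT_G]
  have h2 : pderiv (Sum.inl ⟨i, b⟩ : L.υ) (rename (fun b => Sum.inl ⟨i, b⟩) (L.G i j.succ)) =
      rename (fun b => Sum.inl ⟨i, b⟩) (pderiv b (L.G i j.succ)) := h1
  rw [h2, aeval_rename]
  rfl

theorem TT_G_of_notMem (i : I) (j : Fin (L.n i)) (l : L.υ) (hl : ∀ b, l ≠ Sum.inl ⟨i, b⟩) :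
    TT V L.τ L.Y C (L.cG i j) 0 l = 0 := by
  rw [TT_G, pderiv_eq_zero_of_notMem_vars, map_zero]
  intro h
  obtain ⟨b, -, hb⟩ := mem_vars_rename _ _ h
  exact hl b hb.symm

end RG

section RP

theorem cP_isZ {c : Xs k m₁ m₂} (hc : L.isZ c) :
    L.cP c = Sum.elim (fun _ => 0) (Sum.elim (fun _ => 0) fun b =>
      cond b (X (Sum.inr (Sum.inl c))) (-1)) := if_pos hc

theorem cP_not {c : Xs k m₁ m₂} (hc : ¬ L.isZ c) :
    L.cP c = Sum.elim (fun _ => 0) (Sum.elim (fun _ => 0) fun b => cond b 1 (-1)) := if_neg hc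

theorem xP_isZ {c : Xs k m₁ m₂} (hc : L.isZ c) : L.xP c = fun _ => 0 := if_pos hc

theorem xP_not {c : Xs k m₁ m₂} (hc : ¬ L.isZ c) : L.xP c =
    Sum.elim (fun _ => 0) (Sum.elim (fun _ => 0) fun b => cond b (LD.Ec p I M r c) (L.θ c)) :=
  if_neg hc

theorem LL_P_isZ {c : Xs k m₁ m₂} (hc : L.isZ c) (α : Ix k I m₁ m₂ r) :
    LL V L.τ L.Y C (L.cP c) (L.xP c) α = 0 := by
  apply LL_eq_zero
  intro s
  right; right
  rw [xP_isZ hc]
  exact zcast_zero V

theorem LL_P_not (h : Ctx L M' C) {c : Xs k m₁ m₂} (hc : ¬ L.isZ c) :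
    LL V L.τ L.Y C (L.cP c) (L.xP c) (Sum.inr (Sum.inl c)) ≠ 0 := by
  classical
  refine LL_ne_zero (Sum.inr (Sum.inr true)) ?_ ?_ ?_ ?_
  · rintro (s | s | _ | _) hs
    · left; rw [cP_not hc]; rfl
    · left; rw [cP_not hc]; rfl
    · right; right
      rw [xP_not hc]
      exact cast_θ c _
    · exact absurd rfl hs
  · rw [cP_not hc]
    show aeval _ (1 : MvPolynomial L.υ k) ≠ 0
    rw [map_one]; exact one_ne_zero
  · refine ee_ne_zero L.τ_ne_zero h.hC h.hb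
      (fun s _ s' _ => h.hS _ (xP_mem h c s) _ (xP_mem h c s'))
      (by rw [cP_not hc]; exact one_ne_zero) ?_
    intro s hs
    rw [cP_not hc] at hs
    rw [xP_not hc]
    rcases s with s | s | _ | _
    · exact absurd rfl hs
    · exact absurd rfl hs
    · show V.valuation (mon L.τ (L.θ c)) ≤ V.valuation (mon L.τ (LD.Ec p I M r c))
      rw [mon_θ hc, L.mon_Ec]
    · exact le_rfl
  · rw [xP_not hc]
    show ((LD.Ec p I M r c (Sum.inr (Sum.inl c)) : ℤ) : ResidueField V) ≠ 0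
    rw [cast_Ec_self]
    exact one_ne_zero

theorem LL_P_of_ne {c : Xs k m₁ m₂} {α : Ix k I m₁ m₂ r} (hα : α ≠ Sum.inr (Sum.inl c)) :
    LL V L.τ L.Y C (L.cP c) (L.xP c) α = 0 := by
  by_cases hc : L.isZ c
  · exact LL_P_isZ hc _
  · apply LL_eq_zero
    rw [cP_not hc, xP_not hc]
    rintro (s | s | _ | _)
    · exact Or.inl rfl
    · exact Or.inl rfl
    · right; right
      exact cast_θ c _
    · right; right
      exact cast_Ec_of_ne hα

theorem TT_P_not {c : Xs k m₁ m₂} (hc : ¬ L.isZ c) (l : L.υ) :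
    TT V L.τ L.Y C (L.cP c) (L.xP c) l = 0 := by
  apply TT_eq_zero
  rw [cP_not hc]
  rintro (s | s | _ | _)
  · exact map_zero _
  · exact map_zero _
  · show pderiv l (-1 : MvPolynomial L.υ k) = 0
    rw [map_neg, ← MvPolynomial.C_1, pderiv_C, neg_zero]
  · show pderiv l (1 : MvPolynomial L.υ k) = 0
    rw [← MvPolynomial.C_1, pderiv_C]

theorem TT_P_isZ {c : Xs k m₁ m₂} (hc : L.isZ c) (l : L.υ) :
    TT V L.τ L.Y C (L.cP c) (L.xP c) l = if l = Sum.inr (Sum.inl c) then 1 else 0 := by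
  classical
  rw [TT_eq_single (Sum.inr (Sum.inr true))]
  · have h1 : L.cP c (Sum.inr (Sum.inr true)) = X (Sum.inr (Sum.inl c)) := by rw [cP_isZ hc]; rfl
    have he : ee V L.τ C (mrel C (L.cP c) (L.xP c)) (Sum.inr (Sum.inr true)) = 1 :=
      ee_eq_one (fun s _ => by rw [xP_isZ hc]) (by rw [h1]; exact X_ne_zero _)
    rw [he, mul_one, h1, pderiv_X, Pi.single_apply]
    by_cases hl : l = Sum.inr (Sum.inl c)
    · rw [if_pos hl.symm, if_pos hl, map_one]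
    · rw [if_neg (Ne.symm hl), if_neg hl, map_zero]
  · rw [cP_isZ hc]
    rintro (s | s | _ | _) hs
    · exact map_zero _
    · exact map_zero _
    · show pderiv l (-1 : MvPolynomial L.υ k) = 0
      rw [map_neg, ← MvPolynomial.C_1, pderiv_C, neg_zero]
    · exact absurd rfl hs

theorem TT_P_of_ne {c : Xs k m₁ m₂} {l : L.υ} (hl : l ≠ Sum.inr (Sum.inl c)) :
    TT V L.τ L.Y C (L.cP c) (L.xP c) l = 0 := by
  by_cases hc : L.isZ c
  · rw [TT_P_isZ hc, if_neg hl]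
  · exact TT_P_not hc l

end RP

section RQ

theorem cQ_inr (c : Xs k m₁ m₂) : S.cQ c (Sum.inr (Sum.inr true)) = X (Sum.inr (Sum.inl c)) := rfl

theorem cQ_b (c b : Xs k m₁ m₂) : S.cQ c (Sum.inl (Sum.inr b)) =
    -(MvPolynomial.C (S.a c b) * X (Sum.inr (Sum.inl b))) := rfl

theorem cQ_b_ne {c b : Xs k m₁ m₂} (h : S.cQ c (Sum.inl (Sum.inr b)) ≠ 0) : S.a c b ≠ 0 := by
  intro h0
  apply h
  rw [cQ_b, h0, map_zero, zero_mul, neg_zero]

theorem xQ_b_cast {c b : Xs k m₁ m₂} {α : Ix k I m₁ m₂ r} (hα : α ≠ Sum.inr (Sum.inl b)) :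
    (((S.xQ c (Sum.inl (Sum.inr b)) α : ℤ)) : ResidueField V) = 0 := cast_Ec_of_ne hα

theorem ee_Q_ne (h : Ctx L M' C) (c : Xs k m₁ m₂) :
    ee V L.τ C (mrel C (S.cQ c) (S.xQ c)) (Sum.inr (Sum.inr true)) ≠ 0 := by
  refine ee_ne_zero L.τ_ne_zero h.hC h.hb
    (fun s _ s' _ => h.hS _ (xQ_mem h c s) _ (xQ_mem h c s'))
    (by rw [cQ_inr]; exact X_ne_zero _) ?_
  rintro ((s | b) | s | _ | _) hs
  · exact absurd rfl hs
  · have h1 := cQ_b_ne hs
    show V.valuation (mon L.τ (LD.Ec p I M r b)) ≤ V.valuation (mon L.τ (LD.Ec p I M r c))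
    rw [L.mon_Ec, L.mon_Ec]
    exact (S.ha c b h1).2
  · exact absurd rfl hs
  · exact absurd rfl hs
  · exact le_rfl

theorem LL_Q_self (h : Ctx L M' C) {c : Xs k m₁ m₂} (hc : L.isZ c) (hcB : c ∉ S.B) :
    LL V L.τ L.Y C (S.cQ c) (S.xQ c) (Sum.inr (Sum.inl c)) ≠ 0 := by
  classical
  refine LL_ne_zero (Sum.inr (Sum.inr true)) ?_ ?_ (ee_Q_ne h c) ?_
  · rintro ((s | b) | s | _ | _) hs
    · exact Or.inl rfl
    · by_cases hb : b = c
      · left
        rw [cQ_b, hb, S.a_ne hcB, map_zero, zero_mul, neg_zero]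
      · right; right
        exact xQ_b_cast (fun h' => hb (Sum.inl_injective (Sum.inr_injective h')).symm)
    · exact Or.inl rfl
    · exact Or.inl rfl
    · exact absurd rfl hs
  · rw [cQ_inr, aeval_X, L.Y_isZ hc, resv_one]
    exact one_ne_zero
  · show ((LD.Ec p I M r c (Sum.inr (Sum.inl c)) : ℤ) : ResidueField V) ≠ 0
    rw [cast_Ec_self]
    exact one_ne_zero

theorem LL_Q_of_ne {c : Xs k m₁ m₂} {α : Ix k I m₁ m₂ r} (hα : α ≠ Sum.inr (Sum.inl c))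
    (hB : ∀ b ∈ S.B, α ≠ Sum.inr (Sum.inl b)) :
    LL V L.τ L.Y C (S.cQ c) (S.xQ c) α = 0 := by
  apply LL_eq_zero
  rintro ((s | b) | s | _ | _)
  · exact Or.inl rfl
  · by_cases hb : b ∈ S.B
    · right; right
      exact xQ_b_cast (hB b hb)
    · left
      rw [cQ_b, S.a_ne hb, map_zero, zero_mul, neg_zero]
  · exact Or.inl rfl
  · exact Or.inl rfl
  · right; right
    exact cast_Ec_of_ne hα

theorem pderiv_cQ_b {c b : Xs k m₁ m₂} {l : L.υ} (hl : ∀ b ∈ S.B, l ≠ Sum.inr (Sum.inl b)) :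
    pderiv l (S.cQ c (Sum.inl (Sum.inr b))) = 0 := by
  by_cases hb : b ∈ S.B
  · rw [cQ_b, map_neg, pderiv_C_mul, pderiv_X_of_ne (hl b hb).symm, mul_zero, neg_zero]
  · rw [cQ_b, S.a_ne hb, map_zero, zero_mul, neg_zero, map_zero]

theorem TT_Q_self (h : Ctx L M' C) {c : Xs k m₁ m₂} (hcB : c ∉ S.B) :
    TT V L.τ L.Y C (S.cQ c) (S.xQ c) (Sum.inr (Sum.inl c)) ≠ 0 := by
  classical
  rw [TT_eq_single (Sum.inr (Sum.inr true))]
  · rw [cQ_inr, pderiv_X_self, map_one, one_mul]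
    exact ee_Q_ne h c
  · rintro ((s | b) | s | _ | _) hs
    · exact map_zero _
    · exact pderiv_cQ_b fun b hb h' => hcB (by
        rw [Sum.inl_injective (Sum.inr_injective h')]; exact hb)
    · exact map_zero _
    · exact map_zero _
    · exact absurd rfl hs

theorem TT_Q_of_ne {c : Xs k m₁ m₂} {l : L.υ} (hl : l ≠ Sum.inr (Sum.inl c))
    (hB : ∀ b ∈ S.B, l ≠ Sum.inr (Sum.inl b)) :
    TT V L.τ L.Y C (S.cQ c) (S.xQ c) l = 0 := by
  apply TT_eq_zero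
  rintro ((s | b) | s | _ | _)
  · exact map_zero _
  · exact pderiv_cQ_b hB
  · exact map_zero _
  · exact map_zero _
  · rw [cQ_inr, pderiv_X_of_ne hl.symm]

end RQ

section RJ

theorem cJ_i (d : Xs k m₁ m₂) (i : I) : S.cJ d (Sum.inl (Sum.inl i)) =
    -(MvPolynomial.C (d ⬝ᵥ dl L.γ D i) * X (Sum.inl ⟨i, L.u i⟩)) := rfl

theorem cJ_b (d b : Xs k m₁ m₂) : S.cJ d (Sum.inl (Sum.inr b)) =
    -(MvPolynomial.C (S.a (p1 d) b) * X (Sum.inr (Sum.inl b))) := rfl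

theorem cJ_p (d b : Xs k m₁ m₂) : S.cJ d (Sum.inr (Sum.inl b)) =
    MvPolynomial.C (S.a (L.rt d) b ^ p) * X (Sum.inr (Sum.inl b)) ^ p := rfl

theorem cJ_f (d : Xs k m₁ m₂) : S.cJ d (Sum.inr (Sum.inr false)) = -L.reg d := rfl

theorem cJ_t (d : Xs k m₁ m₂) : S.cJ d (Sum.inr (Sum.inr true)) = 0 := rfl

theorem cJ_i_ne {d : Xs k m₁ m₂} {i : I} (h : S.cJ d (Sum.inl (Sum.inl i)) ≠ 0) :
    d ⬝ᵥ dl L.γ D i ≠ 0 := by
  intro h0
  apply h
  rw [cJ_i, h0, map_zero, zero_mul, neg_zero]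

theorem cJ_b_ne {d b : Xs k m₁ m₂} (h : S.cJ d (Sum.inl (Sum.inr b)) ≠ 0) :
    S.a (p1 d) b ≠ 0 := by
  intro h0
  apply h
  rw [cJ_b, h0, map_zero, zero_mul, neg_zero]

theorem cJ_p_ne {d b : Xs k m₁ m₂} (h : S.cJ d (Sum.inr (Sum.inl b)) ≠ 0) :
    S.a (L.rt d) b ≠ 0 := by
  intro h0
  apply h
  rw [cJ_p, h0, zero_pow (Fact.out : p.Prime).ne_zero, map_zero, zero_mul]

theorem cJ_f_ne {d : Xs k m₁ m₂} (h : S.cJ d (Sum.inr (Sum.inr false)) ≠ 0) : ¬ Ins d := by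
  intro h0
  apply h
  rw [cJ_f, L.reg_ins h0, neg_zero]

theorem xJ_p_cast (b : Xs k m₁ m₂) (α : Ix k I m₁ m₂ r) :
    (((S.xJ (Sum.inr (Sum.inl b)) α : ℤ)) : ResidueField V) = 0 := by
  show ((((p : ℤ) • LD.Ec p I M r b) α : ℤ) : ResidueField V) = 0
  rw [Pi.smul_apply, smul_eq_mul, Int.cast_mul, Int.cast_natCast, natCast_p k V, zero_mul]

theorem xJ_i_cast {i : I} {α : Ix k I m₁ m₂ r} (hα : α ≠ Sum.inl i) :
    (((S.xJ (Sum.inl (Sum.inl i)) α : ℤ)) : ResidueField V) = 0 := by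
  show (((L.e i • (Pi.single (Sum.inl i) 1 : Ix k I m₁ m₂ r → ℤ)) α : ℤ) : ResidueField V) = 0
  rw [Pi.smul_apply, Pi.single_eq_of_ne hα, smul_zero, Int.cast_zero]

theorem xJ_b_cast {b : Xs k m₁ m₂} {α : Ix k I m₁ m₂ r} (hα : α ≠ Sum.inr (Sum.inl b)) :
    (((S.xJ (Sum.inl (Sum.inr b)) α : ℤ)) : ResidueField V) = 0 := cast_Ec_of_ne hα

/-- The column of a pivot. -/
def pc (j : Xs k m₁ m₂ ⊕ I) : Ix k I m₁ m₂ r := Sum.elim (fun b => Sum.inr (Sum.inl b)) Sum.inl j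

/-- The term of a pivot. -/
def pt (j : Xs k m₁ m₂ ⊕ I) : Tm k I m₁ m₂ := Sum.inl (Sum.elim Sum.inr Sum.inl j)

theorem ell_inl (d b : Xs k m₁ m₂) : ell S.a p1 (dl L.γ D) d (Sum.inl b) = S.a (p1 d) b := rfl

theorem ell_inr (d : Xs k m₁ m₂) (i : I) :
    ell S.a p1 (dl L.γ D) d (Sum.inr i) = d ⬝ᵥ dl L.γ D i := rfl

theorem hμb {b : Xs k m₁ m₂} (hj : Sum.inl b ∈ S.J) : S.a (p1 (S.μ (Sum.inl b))) b = 1 :=
  S.hμ _ hj

theorem hμi {i : I} (hj : Sum.inr i ∈ S.J) : S.μ (Sum.inr i) ⬝ᵥ dl L.γ D i = 1 :=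
  S.hμ _ hj

theorem cJ_pt_ne {j : Xs k m₁ m₂ ⊕ I} (hj : j ∈ S.J) : S.cJ (S.μ j) (pt j) ≠ 0 := by
  rcases j with b | i
  · show S.cJ _ (Sum.inl (Sum.inr b)) ≠ 0
    rw [cJ_b, hμb hj, map_one, one_mul]
    exact neg_ne_zero.mpr (X_ne_zero _)
  · show S.cJ _ (Sum.inl (Sum.inl i)) ≠ 0
    rw [cJ_i, hμi hj, map_one, one_mul]
    exact neg_ne_zero.mpr (X_ne_zero _)

theorem mon_e (i : I) : mon L.τ (L.e i • (Pi.single (Sum.inl i) 1 : Ix k I m₁ m₂ r → ℤ)) =
    L.t i ^ L.e i := by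
  rw [mon_smul, mon_single, L.τ_inl]

theorem val_pt (j : Xs k m₁ m₂ ⊕ I) : V.valuation (mon L.τ (S.xJ (pt j))) = L.psz j := by
  rcases j with b | i
  · show V.valuation (mon L.τ (LD.Ec p I M r b)) = _
    rw [L.mon_Ec]
    rfl
  · show V.valuation (mon L.τ (L.e i • Pi.single (Sum.inl i) 1)) = _
    rw [mon_e]
    rfl

/-- The dominant term. -/
theorem ee_J_ne (h : Ctx L M' C) {j : Xs k m₁ m₂ ⊕ I} (hj : j ∈ S.J) :
    ee V L.τ C (mrel C (S.cJ (S.μ j)) S.xJ) (pt j) ≠ 0 := by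
  refine ee_ne_zero L.τ_ne_zero h.hC h.hb (fun s _ s' _ => h.hS _ (xJ_mem h s) _ (xJ_mem h s'))
    (cJ_pt_ne hj) ?_
  intro s hs
  rw [val_pt]
  rcases s with (i | b) | b | _ | _
  · show V.valuation (mon L.τ (L.e i • Pi.single (Sum.inl i) 1)) ≤ _
    rw [mon_e]
    exact L.psz_le (S.hμI j hj i (cJ_i_ne hs))
  · show V.valuation (mon L.τ (LD.Ec p I M r b)) ≤ _
    rw [L.mon_Ec]
    exact L.psz_le (S.hμB j hj b (cJ_b_ne hs))
  · show V.valuation (mon L.τ ((p : ℤ) • LD.Ec p I M r b)) ≤ _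
    rw [mon_smul, L.mon_Ec, zpow_natCast]
    exact S.vω_le hj (cJ_p_ne hs)
  · show V.valuation (mon L.τ 0) ≤ _
    rw [mon_zero, map_one]
    exact S.one_le hj (cJ_f_ne hs)
  · exact absurd rfl hs

/-- The columns of the Kummer coordinates. -/
theorem LL_J_w (d : Xs k m₁ m₂) (b : Fin r) :
    LL V L.τ L.Y C (S.cJ d) S.xJ (Sum.inr (Sum.inr b)) = 0 := by
  apply LL_eq_zero
  rintro ((i | b') | b' | _)
  · exact Or.inr (Or.inr (xJ_i_cast Sum.inr_ne_inl))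
  · exact Or.inr (Or.inr (xJ_b_cast (fun h' => Sum.inr_ne_inl (Sum.inr_injective h'))))
  · exact Or.inr (Or.inr (xJ_p_cast _ _))
  · exact Or.inr (Or.inr (zcast_zero V))

theorem LL_J_c {d b : Xs k m₁ m₂} (hb : S.a (p1 d) b = 0) :
    LL V L.τ L.Y C (S.cJ d) S.xJ (Sum.inr (Sum.inl b)) = 0 := by
  apply LL_eq_zero
  rintro ((i | b') | b' | _)
  · exact Or.inr (Or.inr (xJ_i_cast Sum.inr_ne_inl))
  · by_cases hbb : b' = b
    · left
      rw [cJ_b, hbb, hb, map_zero, zero_mul, neg_zero]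
    · exact Or.inr (Or.inr (xJ_b_cast
        (fun h' => hbb (Sum.inl_injective (Sum.inr_injective h')).symm)))
  · exact Or.inr (Or.inr (xJ_p_cast _ _))
  · exact Or.inr (Or.inr (zcast_zero V))

theorem LL_J_c_self (h : Ctx L M' C) {b : Xs k m₁ m₂} (hj : Sum.inl b ∈ S.J) (hb : L.isZ b) :
    LL V L.τ L.Y C (S.cJ (S.μ (Sum.inl b))) S.xJ (Sum.inr (Sum.inl b)) ≠ 0 := by
  classical
  refine LL_ne_zero (Sum.inl (Sum.inr b)) ?_ ?_ (ee_J_ne h hj) ?_
  · rintro ((i | b') | b' | _) hs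
    · exact Or.inr (Or.inr (xJ_i_cast Sum.inr_ne_inl))
    · refine Or.inr (Or.inr (xJ_b_cast fun h' => hs ?_))
      rw [Sum.inl_injective (Sum.inr_injective h')]
    · exact Or.inr (Or.inr (xJ_p_cast _ _))
    · exact Or.inr (Or.inr (zcast_zero V))
  · rw [cJ_b, hμb hj, map_one, one_mul, map_neg, aeval_X, L.Y_isZ hb, resv_one]
    exact neg_ne_zero.mpr one_ne_zero
  · show ((LD.Ec p I M r b (Sum.inr (Sum.inl b)) : ℤ) : ResidueField V) ≠ 0
    rw [cast_Ec_self]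
    exact one_ne_zero

theorem LL_J_i {d : Xs k m₁ m₂} {i : I} (hi : d ⬝ᵥ dl L.γ D i = 0 ∨ L.e i = 0) :
    LL V L.τ L.Y C (S.cJ d) S.xJ (Sum.inl i) = 0 := by
  apply LL_eq_zero
  rintro ((i' | b') | b' | _)
  · by_cases hi' : i' = i
    · subst hi'
      rcases hi with hi | hi
      · left
        rw [cJ_i, hi, map_zero, zero_mul, neg_zero]
      · right; right
        show (((L.e i' • (Pi.single (Sum.inl i') 1 : Ix k I m₁ m₂ r → ℤ)) (Sum.inl i') :
          ℤ) : ResidueField V) = 0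
        rw [hi, zero_smul, Pi.zero_apply, Int.cast_zero]
    · exact Or.inr (Or.inr (xJ_i_cast (fun h' => hi' (Sum.inl_injective h').symm)))
  · exact Or.inr (Or.inr (xJ_b_cast Sum.inl_ne_inr))
  · exact Or.inr (Or.inr (xJ_p_cast _ _))
  · exact Or.inr (Or.inr (zcast_zero V))

theorem LL_J_i_self (h : Ctx L M' C) {i : I} (hj : Sum.inr i ∈ S.J)
    (hpe : ¬ (p : ℤ) ∣ L.e i) (hvu : V.valuation (L.y i (L.u i)) = 1) :
    LL V L.τ L.Y C (S.cJ (S.μ (Sum.inr i))) S.xJ (Sum.inl i) ≠ 0 := by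
  classical
  refine LL_ne_zero (Sum.inl (Sum.inl i)) ?_ ?_ (ee_J_ne h hj) ?_
  · rintro ((i' | b') | b' | _) hs
    · refine Or.inr (Or.inr (xJ_i_cast fun h' => hs ?_))
      rw [Sum.inl_injective h']
    · exact Or.inr (Or.inr (xJ_b_cast Sum.inl_ne_inr))
    · exact Or.inr (Or.inr (xJ_p_cast _ _))
    · exact Or.inr (Or.inr (zcast_zero V))
  · rw [cJ_i, hμi hj, map_one, one_mul, map_neg, aeval_X]
    refine neg_ne_zero.mpr ?_
    rw [L.Y_inl, resv_ne_zero_iff (L.vy _ _)]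
    exact hvu
  · show (((L.e i • (Pi.single (Sum.inl i) 1 : Ix k I m₁ m₂ r → ℤ)) (Sum.inl i) :
      ℤ) : ResidueField V) ≠ 0
    rw [Pi.smul_apply, Pi.single_eq_same, smul_eq_mul, mul_one]
    exact intCast_ne k V hpe

theorem pderiv_cJ_p (d b : Xs k m₁ m₂) (l : L.υ) :
    pderiv l (S.cJ d (Sum.inr (Sum.inl b))) = 0 := by
  have hcp : ((p : ℕ) : MvPolynomial L.υ k) = 0 := by
    rw [← map_natCast MvPolynomial.C, CharP.cast_eq_zero, map_zero]
  rw [cJ_p, pderiv_C_mul, pderiv_pow, hcp, zero_mul, zero_mul, mul_zero]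

theorem pderiv_reg_inr (d : Xs k m₁ m₂) (l : Xs k m₁ m₂ ⊕ k) :
    pderiv (Sum.inr l : L.υ) (L.reg d) = 0 := by
  rw [LD.reg, map_sum]
  refine Finset.sum_eq_zero fun i _ => ?_
  rw [map_sum]
  refine Finset.sum_eq_zero fun a _ => ?_
  rw [pderiv_C_mul, pderiv_X_of_ne Sum.inl_ne_inr, mul_zero]

theorem TT_J_K (d : Xs k m₁ m₂) (a : k) :
    TT V L.τ L.Y C (S.cJ d) S.xJ (Sum.inr (Sum.inr a)) = 0 := by
  apply TT_eq_zero
  rintro ((i | b) | b | _ | _)
  · rw [cJ_i, map_neg, pderiv_C_mul, pderiv_X_of_ne Sum.inl_ne_inr, mul_zero, neg_zero]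
  · rw [cJ_b, map_neg, pderiv_C_mul, pderiv_X_of_ne
      (fun h' => Sum.inl_ne_inr (Sum.inr_injective h')), mul_zero, neg_zero]
  · exact pderiv_cJ_p _ _ _
  · rw [cJ_f, map_neg, pderiv_reg_inr, neg_zero]
  · exact map_zero _

theorem TT_J_c {d b : Xs k m₁ m₂} (hb : S.a (p1 d) b = 0) :
    TT V L.τ L.Y C (S.cJ d) S.xJ (Sum.inr (Sum.inl b)) = 0 := by
  apply TT_eq_zero
  rintro ((i | b') | b' | _ | _)
  · rw [cJ_i, map_neg, pderiv_C_mul, pderiv_X_of_ne Sum.inl_ne_inr, mul_zero, neg_zero]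
  · by_cases hbb : b' = b
    · rw [cJ_b, hbb, hb, map_zero, zero_mul, neg_zero, map_zero]
    · rw [cJ_b, map_neg, pderiv_C_mul, pderiv_X_of_ne
        (fun h' => hbb (Sum.inl_injective (Sum.inr_injective h'))), mul_zero, neg_zero]
  · exact pderiv_cJ_p _ _ _
  · rw [cJ_f, map_neg, pderiv_reg_inr, neg_zero]
  · exact map_zero _

theorem TT_J_c_self (h : Ctx L M' C) {b : Xs k m₁ m₂} (hj : Sum.inl b ∈ S.J) :
    TT V L.τ L.Y C (S.cJ (S.μ (Sum.inl b))) S.xJ (Sum.inr (Sum.inl b)) ≠ 0 := by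
  classical
  rw [TT_eq_single (Sum.inl (Sum.inr b))]
  · rw [cJ_b, hμb hj, map_one, one_mul, map_neg, pderiv_X_self, map_neg, map_one]
    exact mul_ne_zero (neg_ne_zero.mpr one_ne_zero) (ee_J_ne h hj)
  · rintro ((i | b') | b' | _ | _) hs
    · rw [cJ_i, map_neg, pderiv_C_mul, pderiv_X_of_ne Sum.inl_ne_inr, mul_zero, neg_zero]
    · rw [cJ_b, map_neg, pderiv_C_mul, pderiv_X_of_ne, mul_zero, neg_zero]
      intro h'
      apply hs
      rw [Sum.inl_injective (Sum.inr_injective h')]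
    · exact pderiv_cJ_p _ _ _
    · rw [cJ_f, map_neg, pderiv_reg_inr, neg_zero]
    · exact map_zero _

theorem TT_J_y {d : Xs k m₁ m₂} (hd : Ins d) {i : I} (hi : d ⬝ᵥ dl L.γ D i = 0)
    (b : Fin (L.n i + 1)) :
    TT V L.τ L.Y C (S.cJ d) S.xJ (Sum.inl ⟨i, b⟩) = 0 := by
  apply TT_eq_zero
  rintro ((i' | b') | b' | _ | _)
  · rw [cJ_i, map_neg, pderiv_C_mul]
    by_cases hi' : i' = i
    · subst hi'
      rw [hi, map_zero, zero_mul, neg_zero]
    · rw [pderiv_X_of_ne, mul_zero, neg_zero]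
      intro h
      exact hi' (congrArg Sigma.fst (Sum.inl_injective h))
  · rw [cJ_b, map_neg, pderiv_C_mul, pderiv_X_of_ne Sum.inr_ne_inl, mul_zero, neg_zero]
  · exact pderiv_cJ_p _ _ _
  · rw [cJ_f, L.reg_ins hd, neg_zero, map_zero]
  · exact map_zero _

theorem TT_J_y_self (h : Ctx L M' C) {i : I} (hj : Sum.inr i ∈ S.J)
    (hd : Ins (S.μ (Sum.inr i))) : ∃ w : ResidueField V, w ≠ 0 ∧
    ∀ b, TT V L.τ L.Y C (S.cJ (S.μ (Sum.inr i))) S.xJ (Sum.inl ⟨i, b⟩) =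
      if b = L.u i then w else 0 := by
  classical
  refine ⟨-ee V L.τ C (mrel C (S.cJ (S.μ (Sum.inr i))) S.xJ) (Sum.inl (Sum.inl i)),
    neg_ne_zero.mpr (ee_J_ne h hj), fun b => ?_⟩
  rw [TT_eq_single (Sum.inl (Sum.inl i))]
  · rw [cJ_i, hμi hj, map_one, one_mul, map_neg, pderiv_X, Pi.single_apply]
    by_cases hb : b = L.u i
    · rw [if_pos (by rw [hb]), if_pos hb, map_neg, map_one, neg_one_mul]
    · rw [if_neg (by
        intro h'
        apply hb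
        have := Sum.inl_injective h'
        simpa using this.symm), if_neg hb, neg_zero, map_zero, zero_mul]
  · rintro ((i' | b') | b' | _ | _) hs
    · rw [cJ_i, map_neg, pderiv_C_mul, pderiv_X_of_ne, mul_zero, neg_zero]
      intro h'
      apply hs
      have := congrArg Sigma.fst (Sum.inl_injective h')
      exact congrArg (fun x => Sum.inl (Sum.inl x)) this
    · rw [cJ_b, map_neg, pderiv_C_mul, pderiv_X_of_ne Sum.inr_ne_inl, mul_zero, neg_zero]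
    · exact pderiv_cJ_p _ _ _
    · rw [cJ_f, L.reg_ins hd, neg_zero, map_zero]
    · exact map_zero _

end RJ

section RK

theorem TT_K (a : k) (l : L.υ) : TT V L.τ L.Y C (L.cK a) 0 l =
    if l = Sum.inr (Sum.inr a) then 1 else 0 := by
  classical
  have h1 : TT V L.τ L.Y C (L.cK a) 0 l =
      aeval (fun l => resv V (L.Y l)) (pderiv l (L.cK a (Sum.inr (Sum.inr false)))) := by
    refine TT_false ?_ l
    rintro (s | s | _ | _) hs
    · rfl
    · rfl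
    · exact absurd rfl hs
    · rfl
  have h2 : L.cK a (Sum.inr (Sum.inr false)) = X (Sum.inr (Sum.inr a)) - MvPolynomial.C a := rfl
  rw [h1, h2, map_sub, pderiv_C, sub_zero, pderiv_X, Pi.single_apply]
  by_cases hl : l = Sum.inr (Sum.inr a)
  · rw [if_pos hl.symm, if_pos hl, map_one]
  · rw [if_neg (Ne.symm hl), if_neg hl, map_zero]

end RK

section RW

theorem LL_W_self (h : Ctx L M' C) (b : Fin r) :
    LL V L.τ L.Y C (L.cW b) (L.xW b) (Sum.inr (Sum.inr b)) ≠ 0 := by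
  classical
  refine LL_ne_zero (Sum.inr (Sum.inr true)) ?_ ?_ ?_ ?_
  · rintro (s | s | _ | _) hs
    · exact Or.inl rfl
    · exact Or.inl rfl
    · exact Or.inr (Or.inr (zcast_zero V))
    · exact absurd rfl hs
  · show aeval _ (1 : MvPolynomial L.υ k) ≠ 0
    rw [map_one]; exact one_ne_zero
  · refine ee_ne_zero L.τ_ne_zero h.hC h.hb
      (fun s _ s' _ => h.hS _ (xW_mem h b s) _ (xW_mem h b s'))
      (show L.cW b (Sum.inr (Sum.inr true)) ≠ 0 from one_ne_zero) ?_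
    rintro (s | s | _ | _) hs
    · exact absurd rfl hs
    · exact absurd rfl hs
    · show V.valuation (mon L.τ (Sum.elim (fun i => L.κ i b) 0 : Ix k I m₁ m₂ r → ℤ)) ≤
        V.valuation (mon L.τ ((Nw b : ℤ) • LD.Ew p k I m₁ m₂ M b))
      rw [mon_smul, L.mon_Ew, zpow_natCast, L.KM, mon_κ, Finset.prod_mul_distrib, map_mul,
        map_prod V.valuation (fun i => L.y i (L.q i b)),
        Finset.prod_eq_one (fun i _ => L.vq i b), one_mul]
    · exact le_rfl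
  · show (((Nw b : ℤ) * (Pi.single b 1 : Fin r → ℤ) b : ℤ) : ResidueField V) ≠ 0
    rw [Pi.single_eq_same, mul_one, Int.cast_natCast]
    exact natCast_ne k V (L.Nw0 b)

theorem LL_W_of_ne {b b' : Fin r} (hne : b' ≠ b) :
    LL V L.τ L.Y C (L.cW b) (L.xW b) (Sum.inr (Sum.inr b')) = 0 := by
  classical
  apply LL_eq_zero
  rintro (s | s | _ | _)
  · exact Or.inl rfl
  · exact Or.inl rfl
  · exact Or.inr (Or.inr (zcast_zero V))
  · right; right
    show (((Nw b : ℤ) * (Pi.single b 1 : Fin r → ℤ) b' : ℤ) : ResidueField V) = 0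
    rw [Pi.single_eq_of_ne hne, mul_zero, Int.cast_zero]

end RW

end Pool.Agent.H96.W4
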