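import Pool.Agent.H96.W4.LocC

/-!
# Local regularity
-/

set_option autoImplicit false
set_option linter.unusedSectionVars false

namespace Pool.Agent.H96.W4

open MvPolynomial IsLocalRing Pool.Agent.H96.Reg Pool.Agent.H96.VL Pool.Agent.H96.W
open Pool.Agent.H96.W2 (BX mem_BX zero_mem_BX CompatA resv_aeval2 isRegular_of_mrel2)

variable {p : ℕ} [Fact p.Prime] {k : Type} [Field k] [Fintype k] [DecidableEq k] {K : Type}
  [Field K] [Algebra k K] {V : ValuationSubring K} {I : Type} [Fintype I] [DecidableEq I]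
  {m₁ m₂ r : ℕ} {D : I → Fin m₂ → k} {Nw : Fin r → ℕ} {M M' : ℕ} {L : LD p k V I m₁ m₂ r D Nw M}
  [CharP k p] [Algebra k (ResidueField V)] {C : Cone (Ix k I m₁ m₂ r)} {S : ED L}

/-- The index set of the relations. -/
abbrev ED.κ (S : ED L) : Type :=
  I ⊕ ((Σ i : I, Fin (L.n i)) ⊕ (Xs k m₁ m₂ ⊕ ({c : Xs k m₁ m₂ // c ∉ S.B} ⊕
    (S.J ⊕ (Fin r ⊕ k)))))

/-- The coefficients of the relations. -/
noncomputable def ED.cc (S : ED L) : S.κ → Tm k I m₁ m₂ → MvPolynomial L.υ k :=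
  Sum.elim L.cI (Sum.elim (fun s => L.cG s.1 s.2) (Sum.elim L.cP (Sum.elim (fun c => S.cQ c)
    (Sum.elim (fun j => S.cJ (S.μ j)) (Sum.elim L.cW L.cK)))))

/-- The exponents of the relations. -/
noncomputable def ED.xx (S : ED L) : S.κ → Tm k I m₁ m₂ → Ix k I m₁ m₂ r → ℤ :=
  Sum.elim L.xI (Sum.elim (fun _ => 0) (Sum.elim L.xP (Sum.elim (fun c => S.xQ c)
    (Sum.elim (fun _ => S.xJ) (Sum.elim L.xW fun _ => 0)))))

theorem xx_mem (h : Ctx L M' C) (j : S.κ) (s : Tm k I m₁ m₂) :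
    S.xx j s ∈ BX (Ix k I m₁ m₂ r) M' := by
  rcases j with i | s' | c | c | j | b | a
  · exact xI_mem h i _
  · exact zero_mem_BX
  · exact xP_mem h _ _
  · exact xQ_mem (S := S) h _ _
  · exact xJ_mem (S := S) h _
  · exact xW_mem h _ _
  · exact zero_mem_BX

theorem ρ_rel (j : S.κ) : ∑ s, aeval L.Y (S.cc j s) * mon L.τ (S.xx j s) = 0 := by
  rcases j with i | s | c | c | j | b | a
  · exact rel_I i
  · exact rel_G s.1 s.2
  · exact rel_P _
  · exact rel_Q _
  · exact rel_J _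
  · exact rel_W b
  · exact rel_K a

theorem card_le (S : ED L) : Fintype.card (Ix k I m₁ m₂ r) + Fintype.card L.υ ≤
    Fintype.card I + Fintype.card S.κ := by
  have h1 : Fintype.card {c : Xs k m₁ m₂ // c ∉ S.B} =
      Fintype.card (Xs k m₁ m₂) - S.B.card := by
    rw [Fintype.card_subtype_compl, Fintype.card_coe]
  have h2 : S.B.card ≤ Fintype.card (Xs k m₁ m₂) := Finset.card_le_univ _
  have h3 := S.card
  have h5 : Fintype.card (Ix k I m₁ m₂ r) =
      Fintype.card I + (Fintype.card (Xs k m₁ m₂) + r) := by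
    rw [Fintype.card_sum, Fintype.card_sum, Fintype.card_fin]
  have h6 : Fintype.card L.υ = (∑ i, L.n i + Fintype.card I) +
      (Fintype.card (Xs k m₁ m₂) + Fintype.card k) := by
    rw [Fintype.card_sum, Fintype.card_sum, Fintype.card_sigma]
    simp only [Fintype.card_fin, Finset.sum_add_distrib, Finset.sum_const, Finset.card_univ,
      smul_eq_mul, mul_one]
  have h7 : Fintype.card S.κ = Fintype.card I + (∑ i, L.n i + (Fintype.card (Xs k m₁ m₂) +
      ((Fintype.card (Xs k m₁ m₂) - S.B.card) + (S.J.card + (r + Fintype.card k))))) := by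
    rw [Fintype.card_sum, Fintype.card_sum, Fintype.card_sum, Fintype.card_sum, Fintype.card_sum,
      Fintype.card_sum, Fintype.card_sigma, h1, Fintype.card_coe, Fintype.card_fin]
    simp only [Fintype.card_fin]
  rw [h5, h6, h7]
  omega

theorem det_ne_zero (hA : CompatA k V) (i : I) : (Matrix.of fun a b =>
    aeval (fun b => resv V (L.y i b)) (pderiv b (L.G i a))).det ≠ 0 := by
  have h1 := RingHom.map_det (aeval (fun b => resv V (L.y i b)) :
    MvPolynomial (Fin (L.n i + 1)) k →ₐ[k] ResidueField V).toRingHom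
      (Matrix.of fun a b => pderiv b (L.G i a))
  have h2 : (aeval (fun b => resv V (L.y i b)) :
      MvPolynomial (Fin (L.n i + 1)) k →ₐ[k] ResidueField V)
      (Matrix.of fun a b => pderiv b (L.G i a)).det ≠ 0 := by
    have h3 := resv_aeval2 hA (L.y i) (L.vy i) (Matrix.of fun a b => pderiv b (L.G i a)).det
    rw [← h3.2, resv_ne_zero_iff h3.1]
    exact L.det i
  intro h0
  apply h2
  refine h1.trans ?_
  rw [← h0]
  congr 1

theorem sum_single_eq {ι R : Type} [Fintype ι] [Ring R] (f : ι → R) (i : ι)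
    (h : ∀ j, j ≠ i → f j = 0) : ∑ j, f j = f i :=
  Finset.sum_eq_single i (fun j _ hj => h j hj) fun h => absurd (Finset.mem_univ _) h

theorem sum_zero_eq {ι R : Type} [Fintype ι] [Ring R] (f : ι → R)
    (h : ∀ j, f j = 0) : ∑ j, f j = 0 :=
  Finset.sum_eq_zero fun j _ => h j

/-- **Independence.** -/
theorem ρ_indep (hA : CompatA k V) (h : Ctx L M' C) (a : S.κ → ResidueField V)
    (hLα : ∀ α, ∑ j, a j * LL V L.τ L.Y C (S.cc j) (S.xx j) α = 0)
    (hTl : ∀ l, ∑ j, a j * TT V L.τ L.Y C (S.cc j) (S.xx j) l = 0) : ∀ j, a j = 0 := by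
  classical
  obtain ⟨aI, haI⟩ : ∃ f : I → ResidueField V, f = fun i => a (Sum.inl i) := ⟨_, rfl⟩
  obtain ⟨aG, haG⟩ : ∃ f : (Σ i : I, Fin (L.n i)) → ResidueField V,
    f = fun s => a (Sum.inr (Sum.inl s)) := ⟨_, rfl⟩
  obtain ⟨aP, haP⟩ : ∃ f : Xs k m₁ m₂ → ResidueField V,
    f = fun s => a (Sum.inr (Sum.inr (Sum.inl s))) := ⟨_, rfl⟩
  obtain ⟨aQ, haQ⟩ : ∃ f : {c : Xs k m₁ m₂ // c ∉ S.B} → ResidueField V,
    f = fun s => a (Sum.inr (Sum.inr (Sum.inr (Sum.inl s)))) := ⟨_, rfl⟩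
  obtain ⟨aJ, haJ⟩ : ∃ f : S.J → ResidueField V,
    f = fun s => a (Sum.inr (Sum.inr (Sum.inr (Sum.inr (Sum.inl s))))) := ⟨_, rfl⟩
  obtain ⟨aW, haW⟩ : ∃ f : Fin r → ResidueField V,
    f = fun s => a (Sum.inr (Sum.inr (Sum.inr (Sum.inr (Sum.inr (Sum.inl s)))))) := ⟨_, rfl⟩
  obtain ⟨aK, haK⟩ : ∃ f : k → ResidueField V,
    f = fun s => a (Sum.inr (Sum.inr (Sum.inr (Sum.inr (Sum.inr (Sum.inr s)))))) := ⟨_, rfl⟩
  have hL : ∀ α, ∑ i, aI i * LL V L.τ L.Y C (L.cI i) (L.xI i) α +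
      (∑ s, aG s * LL V L.τ L.Y C (L.cG s.1 s.2) 0 α +
      (∑ c, aP c * LL V L.τ L.Y C (L.cP c) (L.xP c) α +
      (∑ c, aQ c * LL V L.τ L.Y C (S.cQ c) (S.xQ c) α +
      (∑ j, aJ j * LL V L.τ L.Y C (S.cJ (S.μ j)) S.xJ α +
      (∑ b, aW b * LL V L.τ L.Y C (L.cW b) (L.xW b) α +
        ∑ b, aK b * LL V L.τ L.Y C (L.cK b) 0 α))))) = 0 := by
    intro α
    have := hLα α
    rw [Fintype.sum_sum_type, Fintype.sum_sum_type, Fintype.sum_sum_type,
      Fintype.sum_sum_type, Fintype.sum_sum_type, Fintype.sum_sum_type] at this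
    rw [haI, haG, haP, haQ, haJ, haW, haK]
    exact this
  have hT : ∀ l, ∑ i, aI i * TT V L.τ L.Y C (L.cI i) (L.xI i) l +
      (∑ s, aG s * TT V L.τ L.Y C (L.cG s.1 s.2) 0 l +
      (∑ c, aP c * TT V L.τ L.Y C (L.cP c) (L.xP c) l +
      (∑ c, aQ c * TT V L.τ L.Y C (S.cQ c) (S.xQ c) l +
      (∑ j, aJ j * TT V L.τ L.Y C (S.cJ (S.μ j)) S.xJ l +
      (∑ b, aW b * TT V L.τ L.Y C (L.cW b) (L.xW b) l +
        ∑ b, aK b * TT V L.τ L.Y C (L.cK b) 0 l))))) = 0 := by
    intro l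
    have := hTl l
    rw [Fintype.sum_sum_type, Fintype.sum_sum_type, Fintype.sum_sum_type,
      Fintype.sum_sum_type, Fintype.sum_sum_type, Fintype.sum_sum_type] at this
    rw [haI, haG, haP, haQ, haJ, haW, haK]
    exact this
  suffices hall : (∀ i, aI i = 0) ∧ (∀ s, aG s = 0) ∧ (∀ c, aP c = 0) ∧ (∀ c, aQ c = 0) ∧
      (∀ j, aJ j = 0) ∧ (∀ b, aW b = 0) ∧ ∀ b, aK b = 0 by
    obtain ⟨h1, h2, h3, h4, h5, h6, h7⟩ := hall
    rw [haI] at h1
    rw [haG] at h2
    rw [haP] at h3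
    rw [haQ] at h4
    rw [haJ] at h5
    rw [haW] at h6
    rw [haK] at h7
    rintro (i | s | c | c | j | b | b)
    exacts [h1 i, h2 s, h3 c, h4 c, h5 j, h6 b, h7 b]
  clear haI haG haP haQ haJ haW haK hLα hTl
  -- the trivial sums
  have zG : ∀ α, ∑ s, aG s * LL V L.τ L.Y C (L.cG s.1 s.2) 0 α = 0 := fun α =>
    sum_zero_eq _ fun s => by rw [LL_zero, mul_zero]
  have zK : ∀ α, ∑ b, aK b * LL V L.τ L.Y C (L.cK b) 0 α = 0 := fun α =>
    sum_zero_eq _ fun s => by rw [LL_zero, mul_zero]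
  have tI : ∀ l : Xs k m₁ m₂ ⊕ k, ∑ i, aI i * TT V L.τ L.Y C (L.cI i) (L.xI i) (Sum.inr l) = 0 :=
    fun l => sum_zero_eq _ fun i => by rw [TT_I_inr h, mul_zero]
  have tG : ∀ l : Xs k m₁ m₂ ⊕ k, ∑ s, aG s * TT V L.τ L.Y C (L.cG s.1 s.2) 0 (Sum.inr l) = 0 :=
    fun l => sum_zero_eq _ fun s => by
      rw [TT_G_of_notMem _ _ _ (fun b => Sum.inr_ne_inl), mul_zero]
  -- the Kummer coordinates
  have hW : ∀ b, aW b = 0 := by
    intro b
    have h1 := hL (Sum.inr (Sum.inr b))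
    have hne : ∀ c : Xs k m₁ m₂, (Sum.inr (Sum.inr b) : Ix k I m₁ m₂ r) ≠ Sum.inr (Sum.inl c) :=
      fun c h' => Sum.inr_ne_inl (Sum.inr_injective h')
    rw [zG, zK, sum_zero_eq _ (fun i => by rw [LL_I_of_ne Sum.inr_ne_inl, mul_zero]),
      sum_zero_eq (fun c => aP c * _) (fun c => by rw [LL_P_of_ne (hne c), mul_zero]),
      sum_zero_eq (fun c => aQ c * _) (fun c => by
        rw [LL_Q_of_ne (hne c) (fun b _ => hne b), mul_zero]),
      sum_zero_eq (fun j => aJ j * _) (fun j => by rw [LL_J_w, mul_zero]),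
      zero_add, zero_add, zero_add, zero_add, zero_add, add_zero,
      sum_single_eq _ b fun b' hb => by rw [LL_W_of_ne (Ne.symm hb), mul_zero]] at h1
    exact (mul_eq_zero.mp h1).resolve_right (LL_W_self h b)
  -- the constants
  have hK : ∀ b, aK b = 0 := by
    intro b
    have h1 := hT (Sum.inr (Sum.inr b))
    have hne : ∀ c : Xs k m₁ m₂, (Sum.inr (Sum.inr b) : L.υ) ≠ Sum.inr (Sum.inl c) :=
      fun c h' => Sum.inr_ne_inl (Sum.inr_injective h')
    rw [tI, tG, sum_zero_eq (fun c => aP c * _) (fun c => by rw [TT_P_of_ne (hne c), mul_zero]),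
      sum_zero_eq (fun c => aQ c * _) (fun c => by
        rw [TT_Q_of_ne (hne c) (fun b _ => hne b), mul_zero]),
      sum_zero_eq (fun j => aJ j * _) (fun j => by rw [TT_J_K, mul_zero]),
      sum_zero_eq (fun j => aW j * _) (fun j => by rw [hW, zero_mul]),
      zero_add, zero_add, zero_add, zero_add, zero_add, zero_add,
      sum_single_eq _ b fun b' hb => by
        rw [TT_K, if_neg (fun h' => hb (Sum.inr_injective (Sum.inr_injective h')).symm),
          mul_zero], TT_K, if_pos rfl, mul_one] at h1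
    exact h1
  have hL1 : ∀ α, ∑ i, aI i * LL V L.τ L.Y C (L.cI i) (L.xI i) α +
      (∑ c, aP c * LL V L.τ L.Y C (L.cP c) (L.xP c) α +
      (∑ c, aQ c * LL V L.τ L.Y C (S.cQ c) (S.xQ c) α +
      ∑ j, aJ j * LL V L.τ L.Y C (S.cJ (S.μ j)) S.xJ α)) = 0 := by
    intro α
    have := hL α
    rwa [zG, zK, sum_zero_eq (fun j => aW j * _) (fun j => by rw [hW, zero_mul]), add_zero,
      add_zero, zero_add] at this
  have hT1 : ∀ l, ∑ i, aI i * TT V L.τ L.Y C (L.cI i) (L.xI i) l +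
      (∑ s, aG s * TT V L.τ L.Y C (L.cG s.1 s.2) 0 l +
      (∑ c, aP c * TT V L.τ L.Y C (L.cP c) (L.xP c) l +
      (∑ c, aQ c * TT V L.τ L.Y C (S.cQ c) (S.xQ c) l +
      ∑ j, aJ j * TT V L.τ L.Y C (S.cJ (S.μ j)) S.xJ l))) = 0 := by
    intro l
    have := hT l
    rwa [sum_zero_eq (fun j => aK j * _) (fun j => by rw [hK, zero_mul]),
      sum_zero_eq (fun j => aW j * _) (fun j => by rw [hW, zero_mul]), add_zero,
      add_zero] at this
  clear hL hT zG zK
  -- the equations for the coordinate and the variable of `c`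
  have hLc : ∀ c, aP c * LL V L.τ L.Y C (L.cP c) (L.xP c) (Sum.inr (Sum.inl c)) +
      (∑ c' : {c : Xs k m₁ m₂ // c ∉ S.B}, aQ c' *
          LL V L.τ L.Y C (S.cQ c') (S.xQ c') (Sum.inr (Sum.inl c)) +
      ∑ j, aJ j * LL V L.τ L.Y C (S.cJ (S.μ j)) S.xJ (Sum.inr (Sum.inl c))) = 0 := by
    intro c
    have h1 := hL1 (Sum.inr (Sum.inl c))
    rwa [sum_zero_eq _ (fun i => by rw [LL_I_of_ne Sum.inr_ne_inl, mul_zero]), zero_add,
      sum_single_eq (fun c => aP c * _) c fun c' hc => by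
        rw [LL_P_of_ne (fun h' => hc (Sum.inl_injective (Sum.inr_injective h')).symm),
          mul_zero]] at h1
  have hTc : ∀ c, aP c * TT V L.τ L.Y C (L.cP c) (L.xP c) (Sum.inr (Sum.inl c)) +
      (∑ c' : {c : Xs k m₁ m₂ // c ∉ S.B}, aQ c' *
          TT V L.τ L.Y C (S.cQ c') (S.xQ c') (Sum.inr (Sum.inl c)) +
      ∑ j, aJ j * TT V L.τ L.Y C (S.cJ (S.μ j)) S.xJ (Sum.inr (Sum.inl c))) = 0 := by
    intro c
    have h1 := hT1 (Sum.inr (Sum.inl c))
    rwa [tI, tG, zero_add, zero_add,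
      sum_single_eq (fun c => aP c * _) c fun c' hc => by
        rw [TT_P_of_ne (fun h' => hc (Sum.inl_injective (Sum.inr_injective h')).symm),
          mul_zero]] at h1
  -- the linear relations
  have hQ : ∀ c, aQ c = 0 := by
    intro c
    have h1 := hLc c
    have h2 := hTc c
    have hz : ∀ j : S.J, S.a (p1 (S.μ j)) c = 0 := fun j => S.a_ne c.2
    have hB : ∀ b ∈ S.B, (Sum.inr (Sum.inl (c : Xs k m₁ m₂)) : Ix k I m₁ m₂ r) ≠
        Sum.inr (Sum.inl b) := fun b hb h' => c.2 (by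
      rw [Sum.inl_injective (Sum.inr_injective h')]; exact hb)
    have hB' : ∀ b ∈ S.B, (Sum.inr (Sum.inl (c : Xs k m₁ m₂)) : L.υ) ≠
        Sum.inr (Sum.inl b) := fun b hb h' => c.2 (by
      rw [Sum.inl_injective (Sum.inr_injective h')]; exact hb)
    rw [sum_zero_eq (fun j => aJ j * _) (fun j => by rw [LL_J_c (hz j), mul_zero]), add_zero,
      sum_single_eq _ c fun c' hc => by
        rw [LL_Q_of_ne (fun h' => hc (Subtype.ext (Sum.inl_injective (Sum.inr_injective h')).symm))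
          hB, mul_zero]] at h1
    rw [sum_zero_eq (fun j => aJ j * _) (fun j => by rw [TT_J_c (hz j), mul_zero]), add_zero,
      sum_single_eq _ c fun c' hc => by
        rw [TT_Q_of_ne (fun h' => hc (Subtype.ext (Sum.inl_injective (Sum.inr_injective h')).symm))
          hB', mul_zero]] at h2
    by_cases hc : L.isZ (c : Xs k m₁ m₂)
    · rw [LL_P_isZ hc, mul_zero, zero_add] at h1
      exact (mul_eq_zero.mp h1).resolve_right (LL_Q_self h hc c.2)
    · rw [TT_P_not hc, mul_zero, zero_add] at h2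
      exact (mul_eq_zero.mp h2).resolve_right (TT_Q_self h c.2)
  have hLc' : ∀ c, aP c * LL V L.τ L.Y C (L.cP c) (L.xP c) (Sum.inr (Sum.inl c)) +
      ∑ j, aJ j * LL V L.τ L.Y C (S.cJ (S.μ j)) S.xJ (Sum.inr (Sum.inl c)) = 0 := by
    intro c
    have h1 := hLc c
    rwa [sum_zero_eq (fun j => aQ j * _) (fun j => by rw [hQ, zero_mul]), zero_add] at h1
  have hTc' : ∀ c, aP c * TT V L.τ L.Y C (L.cP c) (L.xP c) (Sum.inr (Sum.inl c)) +
      ∑ j, aJ j * TT V L.τ L.Y C (S.cJ (S.μ j)) S.xJ (Sum.inr (Sum.inl c)) = 0 := by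
    intro c
    have h1 := hTc c
    rwa [sum_zero_eq (fun j => aQ j * _) (fun j => by rw [hQ, zero_mul]), zero_add] at h1
  clear hLc hTc
  -- the pivots `inl b`
  have hJl : ∀ j : S.J, (∃ b, (j : Xs k m₁ m₂ ⊕ I) = Sum.inl b) → aJ j = 0 := by
    rintro ⟨j, hj⟩ ⟨b, hb⟩
    have hb' : j = Sum.inl b := hb
    subst hb'
    have hz : ∀ j' : S.J, j' ≠ ⟨Sum.inl b, hj⟩ → S.a (p1 (S.μ j')) b = 0 := fun j' hne =>
      S.hμ0 j' j'.2 (Sum.inl b) hj (fun h' => hne (Subtype.ext h'))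
    by_cases hc : L.isZ b
    · have h1 := hLc' b
      rw [LL_P_isZ hc, mul_zero, zero_add, sum_single_eq _ ⟨Sum.inl b, hj⟩ fun j' hne => by
        rw [LL_J_c (hz j' hne), mul_zero]] at h1
      exact (mul_eq_zero.mp h1).resolve_right (LL_J_c_self h hj hc)
    · have h1 := hTc' b
      rw [TT_P_not hc, mul_zero, zero_add, sum_single_eq _ ⟨Sum.inl b, hj⟩ fun j' hne => by
        rw [TT_J_c (hz j' hne), mul_zero]] at h1
      exact (mul_eq_zero.mp h1).resolve_right (TT_J_c_self h hj)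
  have hLi : ∀ i, ∑ i', aI i' * LL V L.τ L.Y C (L.cI i') (L.xI i') (Sum.inl i) +
      ∑ j, aJ j * LL V L.τ L.Y C (S.cJ (S.μ j)) S.xJ (Sum.inl i) = 0 := by
    intro i
    have h1 := hL1 (Sum.inl i)
    rwa [sum_zero_eq (fun c => aP c * _) (fun c => by rw [LL_P_of_ne Sum.inl_ne_inr, mul_zero]),
      sum_zero_eq (fun c => aQ c * _) (fun c => by rw [hQ, zero_mul]), zero_add,
      zero_add] at h1
  have hTi : ∀ i b, ∑ i', aI i' * TT V L.τ L.Y C (L.cI i') (L.xI i') (Sum.inl ⟨i, b⟩ : L.υ) +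
      (∑ s, aG s * TT V L.τ L.Y C (L.cG s.1 s.2) 0 (Sum.inl ⟨i, b⟩ : L.υ) +
      ∑ j, aJ j * TT V L.τ L.Y C (S.cJ (S.μ j)) S.xJ (Sum.inl ⟨i, b⟩ : L.υ)) = 0 := by
    intro i b
    have h1 := hT1 (Sum.inl ⟨i, b⟩)
    rwa [sum_zero_eq (fun c => aP c * _) (fun c => by rw [TT_P_of_ne Sum.inl_ne_inr, mul_zero]),
      sum_zero_eq (fun c => aQ c * _) (fun c => by rw [hQ, zero_mul]), zero_add,
      zero_add] at h1
  clear hL1 hT1
  -- the special pivots `inr i`
  have hJs : ∀ j : S.J, (∃ i, (j : Xs k m₁ m₂ ⊕ I) = Sum.inr i ∧ L.t i ≠ 1) → aJ j = 0 := by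
    rintro ⟨j, hj⟩ ⟨i, hb, ht⟩
    have hb' : j = Sum.inr i := hb
    subst hb'
    have hz : ∀ j' : S.J, j' ≠ ⟨Sum.inr i, hj⟩ → S.μ j' ⬝ᵥ dl L.γ D i = 0 := fun j' hne =>
      S.hμ0 j' j'.2 (Sum.inr i) hj (fun h' => hne (Subtype.ext h'))
    have h1 := hLi i
    rw [sum_zero_eq (fun i => aI i * _) (fun i' => by
        by_cases hi : i' = i
        · rw [LL_I_unif h (by rw [hi]; exact ht), mul_zero]
        · rw [LL_I_of_ne (fun h' => hi (Sum.inl_injective h').symm), mul_zero]), zero_add,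
      sum_single_eq _ ⟨Sum.inr i, hj⟩ fun j' hne => by
        rw [LL_J_i (Or.inl (hz j' hne)), mul_zero]] at h1
    refine (mul_eq_zero.mp h1).resolve_right ?_
    rcases L.typ i with ⟨h2, h3⟩ | ⟨-, h2, -⟩ | ⟨h2, h3, -⟩
    · exfalso
      have h4 : S.μ (Sum.inr i) ⬝ᵥ dl L.γ D i = 1 := hμi hj
      have h5 : dl L.γ D i = 0 := by
        funext s
        rcases s with a | b
        · exact congrFun h2 a
        · exact congrFun h3 b
      rw [h5, dotProduct_zero] at h4
      exact zero_ne_one h4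
    · exact absurd h2 ht
    · exact LL_J_i_self h hj h2 h3
  -- the trivial coordinates
  have hI1 : ∀ i, L.t i = 1 → aI i = 0 := by
    intro i hi
    have h1 := hLi i
    rw [sum_zero_eq (fun j => aJ j * _) (fun j => by
        rcases L.typ i with ⟨h2, h3⟩ | ⟨h2, -⟩ | ⟨-, -, h2, -⟩
        · have h5 : dl L.γ D i = 0 := by
            funext s
            rcases s with a | b
            · exact congrFun h2 a
            · exact congrFun h3 b
          rw [LL_J_i (Or.inl (by rw [h5, dotProduct_zero])), mul_zero]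
        · rw [LL_J_i (Or.inr h2), mul_zero]
        · exact absurd hi h2), add_zero, sum_single_eq _ i fun i' hne => by
        rw [LL_I_of_ne (fun h' => hne (Sum.inl_injective h').symm), mul_zero]] at h1
    exact (mul_eq_zero.mp h1).resolve_right (LL_I_one h hi)
  -- the remaining pivots
  have hJins : ∀ j : S.J, aJ j ≠ 0 → ∃ i, (j : Xs k m₁ m₂ ⊕ I) = Sum.inr i ∧
      L.e i = 0 ∧ L.t i = 1 ∧ L.u i = L.l i := by
    rintro ⟨j, hj⟩ hne
    rcases j with b | i
    · exact absurd (hJl _ ⟨b, rfl⟩) hne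
    · have ht : L.t i = 1 := by
        by_contra hcon
        exact hne (hJs _ ⟨i, rfl, hcon⟩)
      refine ⟨i, rfl, ?_⟩
      rcases L.typ i with ⟨h2, h3⟩ | ⟨h2, -, h3, -⟩ | ⟨-, -, h2, -⟩
      · exfalso
        have h4 : S.μ (Sum.inr i) ⬝ᵥ dl L.γ D i = 1 := hμi hj
        have h5 : dl L.γ D i = 0 := by
          funext s
          rcases s with a | b
          · exact congrFun h2 a
          · exact congrFun h3 b
        rw [h5, dotProduct_zero] at h4
        exact zero_ne_one h4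
      · exact ⟨h2, ht, h3⟩
      · exact absurd ht h2
  have hJIns : ∀ j : S.J, aJ j ≠ 0 → Ins (S.μ j) := by
    intro j hne
    obtain ⟨i, hi, he, -⟩ := hJins j hne
    have hj := j.2
    rw [hi] at hj
    rw [hi]
    exact S.ins_of_le hj he.ge
  -- the blocks
  have block : ∀ (i : I) (A w : ResidueField V),
      (∀ b : Fin (L.n i + 1), aI i * TT V L.τ L.Y C (L.cI i) (L.xI i) (Sum.inl ⟨i, b⟩ : L.υ) +
        ∑ j, aJ j * TT V L.τ L.Y C (S.cJ (S.μ j)) S.xJ (Sum.inl ⟨i, b⟩ : L.υ) =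
        A * w * if b = L.l i then 1 else 0) → (w ≠ 0 → A = 0) ∧
      ∀ j : Fin (L.n i), aG ⟨i, j⟩ = 0 := by
    intro i A w hw
    have key : ∀ b : Fin (L.n i + 1), ∑ j : Fin (L.n i + 1),
        (Fin.cons (A * w) (fun j => aG ⟨i, j⟩) : Fin (L.n i + 1) → ResidueField V) j *
        aeval (fun b => resv V (L.y i b)) (pderiv b (L.G i j)) = 0 := by
      intro b
      rw [Fin.sum_univ_succ]
      simp only [Fin.cons_zero, Fin.cons_succ]
      rw [L.G0 i, pderiv_X, Pi.single_apply]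
      have h1 := hTi i b
      rw [sum_single_eq (fun i => aI i * _) i fun i' hne => by
        by_cases hi : L.t i' = 1
        · rw [TT_I_one hi, mul_zero]
        · obtain ⟨w', -, hw'⟩ := TT_I_unif (L := L) h hi
          rw [hw', if_neg (by
            intro h'
            apply hne
            have := Sum.inl_injective h'
            exact (congrArg Sigma.fst this).symm), mul_zero], Fintype.sum_sigma,
        sum_single_eq (fun i' => ∑ j, aG ⟨i', j⟩ * _) i fun i' hne => sum_zero_eq _ fun j => by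
          rw [TT_G_of_notMem _ _ _ (by
            intro b' h'
            apply hne
            have := Sum.inl_injective h'
            exact (congrArg Sigma.fst this).symm), mul_zero]] at h1
      have h2 : (aeval (fun b => resv V (L.y i b))
          (if L.l i = b then (1 : MvPolynomial (Fin (L.n i + 1)) k) else 0)) =
          (if b = L.l i then (1 : ResidueField V) else 0) := by
        by_cases hb : b = L.l i
        · rw [if_pos hb.symm, if_pos hb, map_one]
        · rw [if_neg (Ne.symm hb), if_neg hb, map_zero]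
      rw [h2, ← hw b]
      have h3 : ∀ j : Fin (L.n i), TT V L.τ L.Y C (L.cG i j) 0 (Sum.inl ⟨i, b⟩ : L.υ) =
          aeval (fun b => resv V (L.y i b)) (pderiv b (L.G i j.succ)) := fun j => TT_G_same i j b
      simp only [h3] at h1
      rw [← h1]; ring
    have hvec : Matrix.vecMul (Fin.cons (A * w) (fun j => aG ⟨i, j⟩) :
        Fin (L.n i + 1) → ResidueField V) (Matrix.of fun a b =>
        aeval (fun b => resv V (L.y i b)) (pderiv b (L.G i a))) = 0 := by
      funext b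
      exact key b
    have hz := Matrix.eq_zero_of_vecMul_eq_zero (det_ne_zero hA i) hvec
    refine ⟨fun hi => ?_, fun j => ?_⟩
    · have h1 := congrFun hz 0
      rw [Fin.cons_zero, Pi.zero_apply] at h1
      exact (mul_eq_zero.mp h1).resolve_right hi
    · have h1 := congrFun hz j.succ
      rw [Fin.cons_succ, Pi.zero_apply] at h1
      exact h1
  -- the smooth pivots
  have hJ : ∀ j, aJ j = 0 := by
    intro j
    by_contra hne
    obtain ⟨i, hi, he, ht, hu⟩ := hJins j hne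
    obtain ⟨j, hj⟩ := j
    have hi' : j = Sum.inr i := hi
    subst hi'
    have hins : Ins (S.μ (Sum.inr i)) := S.ins_of_le hj he.ge
    obtain ⟨w, hw0, hw⟩ := TT_J_y_self (S := S) h hj hins
    refine hne ((block i _ w fun b => ?_).1 hw0)
    rw [TT_I_one ht, mul_zero, zero_add, sum_single_eq _ ⟨Sum.inr i, hj⟩ fun j' hne' => by
      by_cases h0 : aJ j' = 0
      · rw [h0, zero_mul]
      · rw [TT_J_y (hJIns j' h0) (S.hμ0 j' j'.2 (Sum.inr i) hj
          (fun h' => hne' (Subtype.ext h'))), mul_zero]]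
    show aJ ⟨Sum.inr i, hj⟩ * TT V L.τ L.Y C (S.cJ (S.μ (Sum.inr i))) S.xJ (Sum.inl ⟨i, b⟩) = _
    rw [hw, hu]
    by_cases hb : b = L.l i
    · rw [if_pos hb, if_pos hb, mul_one]
    · rw [if_neg hb, if_neg hb, mul_zero, mul_zero]
  -- the curves
  have hcurve : ∀ i, (L.t i ≠ 1 → aI i = 0) ∧ ∀ j : Fin (L.n i), aG ⟨i, j⟩ = 0 := by
    intro i
    by_cases hi : L.t i = 1
    · refine ⟨fun h' => absurd hi h', (block i 0 0 fun b => ?_).2⟩
      rw [hI1 i hi, zero_mul, zero_add, sum_zero_eq _ (fun j => by rw [hJ, zero_mul]),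
        zero_mul, zero_mul]
    · obtain ⟨w, hw0, hw⟩ := TT_I_unif (L := L) h hi
      have := block i (aI i) w fun b => by
        rw [hw, sum_zero_eq _ (fun j => by rw [hJ, zero_mul]), add_zero]
        by_cases hb : b = L.l i
        · rw [if_pos (by rw [hb]), if_pos hb, mul_one]
        · rw [if_neg (by
            intro h'
            apply hb
            simpa using h'), if_neg hb, mul_zero, mul_zero]
      exact ⟨fun _ => this.1 hw0, this.2⟩
  -- the relations of the coordinates `ω_c`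
  have hP : ∀ c, aP c = 0 := by
    intro c
    have h1 := hLc' c
    have h2 := hTc' c
    rw [sum_zero_eq (fun j => aJ j * _) (fun j => by rw [hJ, zero_mul]), add_zero] at h1 h2
    by_cases hc : L.isZ c
    · rw [TT_P_isZ hc, if_pos rfl, mul_one] at h2
      exact h2
    · exact (mul_eq_zero.mp h1).resolve_right (LL_P_not h hc)
  refine ⟨fun i => ?_, fun s => (hcurve s.1).2 s.2, hP, hQ, hJ, hW, hK⟩
  by_cases hi : L.t i = 1
  · exact hI1 i hi
  · exact (hcurve i).1 hi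

/-- **Local regularity.** -/
theorem isRegular_local (S : ED L) (hA : CompatA k V) (h : Ctx L M' C)
    (halg : Algebra.IsAlgebraic (Algebra.adjoin k
      (Set.range (Sum.elim (fun j => mon L.τ (C.b j)) L.Y))) K)
    (htr : (Fintype.card I : Cardinal.{0}) ≤ Algebra.trdeg k K) :
    IsRegularLocalRing (vloc V (Algebra.adjoin ℤ
      (Set.range (Sum.elim (fun j => mon L.τ (C.b j)) L.Y)))) := by
  refine isRegular_of_mrel2 V hA L.τ_ne_zero h.hC
    h.hb L.vY (fun a => ⟨Sum.inr (Sum.inr a), rfl⟩) halg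
    (fun j : S.κ => mrel C (S.cc j) (S.xx j))
    (fun j => mrel_ok fun s _ s' _ => h.hS _ (xx_mem h j s) _ (xx_mem h j s')) ρ_rel ?_ ?_
  · have h1 := card_le S
    calc ((Fintype.card (Ix k I m₁ m₂ r) : Cardinal.{0}) + Fintype.card L.υ) =
          ((Fintype.card (Ix k I m₁ m₂ r) + Fintype.card L.υ : ℕ) : Cardinal.{0}) := by
            push_cast; rfl
      _ ≤ ((Fintype.card I + Fintype.card S.κ : ℕ) : Cardinal.{0}) := by exact_mod_cast h1
      _ = (Fintype.card I : Cardinal.{0}) + Fintype.card S.κ := by push_cast; rfl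
      _ ≤ _ := by gcongr
  · intro a ha1 ha2
    exact ρ_indep hA h a ha1 ha2

end Pool.Agent.H96.W4
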