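import Pool.Agent.H96.W0.Gauge0

/-!
# Presentations with a prescribed smooth coordinate and prescribed elements
-/

set_option autoImplicit false
set_option linter.unusedSectionVars false

namespace Pool.Agent.H96.W4

open MvPolynomial IsLocalRing Pool.Agent.H96.VL Pool.Agent.H96.W Pool.Agent.H96.W0

variable {p : ℕ} [Fact p.Prime]

variable {R F : Type} [CommRing R] [IsDedekindDomain R] [Field F]
  [Algebra R F] [IsFractionRing R F] [Algebra (ZMod p) R] [Algebra.FiniteType (ZMod p) R]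
  [Algebra (ZMod p) F] [IsScalarTower (ZMod p) R F]

/-- Presentations at the smooth places. -/
theorem exists_presE {W : ValuationSubring F} (hW : Le R W) (hq : cen W hW ≠ ⊥) {f g : F}
    [CharP F p] (hf : W.valuation f ≤ 1) (hg : W.valuation g ≤ 1)
    (h : ∀ w, W.valuation w ≤ 1 → w ∈ pring p W.toSubring f) (E : Finset F)
    (hE : ∀ e ∈ E, W.valuation e ≤ 1) :
    ∃ (n : ℕ) (y : Fin (n + 1) → F) (G : Fin (n + 1) → MvPolynomial (Fin (n + 1)) (ZMod p))
      (l : Fin (n + 1)), Pres W n y G l ∧ (∀ e ∈ E, ∃ b, y b = e) ∧ y l = f - g ^ p := by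
  obtain ⟨t, ht⟩ := exists_place hW hq
  have hqm : (cen W hW).IsMaximal := (cen_isPrime hW).isMaximal hq
  obtain ⟨c, hc, hfc⟩ := exists_root_res (p := p) hW hq hf
  have hu := unif_of_pring ht.unif hf hc hfc (h _ (hW t))
  have h1 : f - c ^ p = (f - g ^ p) - (c - g) ^ p := by
    rw [sub_pow_char]; ring
  have hg' : W.valuation (f - g ^ p) ≤ 1 := by
    refine (W.valuation.map_sub _ _).trans (max_le hf ?_)
    rw [map_pow]
    exact pow_le_one' hg _
  rw [h1] at hu
  exact exists_pres' hW hq hg' ((W.valuation.map_sub c g).trans (max_le hc hg)) hu E hE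

/-- The trivial place. -/
theorem exists_presE_triv {W : ValuationSubring F} (hnf : ¬ IsField R)
    (htriv : ∀ w, w ≠ 0 → W.valuation w = 1) {b : R} (hb0 : b ≠ 0) {f g : F} [CharP F p]
    (hb : ∀ W : ValuationSubring F, Le R W → W.valuation (algebraMap R F b) = 1 →
      W.valuation f ≤ 1 ∧ ∀ w, W.valuation w ≤ 1 → w ∈ pring p W.toSubring f)
    (hg : ∀ W : ValuationSubring F, Le R W → W.valuation (algebraMap R F b) = 1 →
      W.valuation g ≤ 1) (E : Finset F) :
    ∃ (n : ℕ) (y : Fin (n + 1) → F) (G : Fin (n + 1) → MvPolynomial (Fin (n + 1)) (ZMod p))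
      (l : Fin (n + 1)), Pres W n y G l ∧ (∀ e ∈ E, ∃ b, y b = e) ∧ y l = f - g ^ p := by
  classical
  have hbF := algebraMap_ne_zero (F := F) hb0
  obtain ⟨W', hW', hq', hE'⟩ := exists_nontrivial p hnf (insert (algebraMap R F b)⁻¹ E)
  have hvb : W'.valuation (algebraMap R F b) = 1 := by
    apply le_antisymm (hW' b)
    have h1 := hE' _ (Finset.mem_insert_self _ _)
    rw [map_inv₀] at h1
    have h2 : 0 < W'.valuation (algebraMap R F b) := by rw [Valuation.pos_iff]; exact hbF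
    exact (inv_le_one₀ h2).mp h1
  obtain ⟨h3, h4⟩ := hb W' hW' hvb
  obtain ⟨n, y, G, l, h1, hyE, h2⟩ := exists_presE (p := p) hW' hq' h3 (hg W' hW' hvb) h4 E
    (fun e he => hE' e (Finset.mem_insert_of_mem he))
  have hv : ∀ w : F, W.valuation w ≤ 1 := by
    intro w
    by_cases hw : w = 0
    · rw [hw, map_zero]; exact zero_le
    · exact (htriv w hw).le
  have hne : ∀ {w : F}, W'.valuation w = 1 → w ≠ 0 := by
    intro w hw h0
    rw [h0, map_zero] at hw
    exact zero_ne_one hw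
  refine ⟨n, y, G, l, ⟨fun b => hv _, fun w _ => ?_, h1.G0, h1.rel, htriv _ (hne h1.det)⟩, hyE, h2⟩
  obtain ⟨a, b, hb, rfl⟩ := IsFractionRing.div_surjective (A := R) w
  have hb0 : b ≠ 0 := nonZeroDivisors.ne_zero hb
  have hb0' := algebraMap_ne_zero (F := F) hb0
  obtain ⟨P1, Q1, hQ1, h3⟩ := h1.gen _ (hW' a)
  obtain ⟨P2, Q2, hQ2, h4⟩ := h1.gen _ (hW' b)
  have hP2 : aeval y P2 ≠ 0 := by
    intro h0
    rw [h0, zero_div] at h4
    exact hb0' h4
  have h5 := hne hQ1
  have h6 := hne hQ2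
  refine ⟨P1 * Q2, Q1 * P2, ?_, ?_⟩
  · rw [map_mul]
    exact htriv _ (mul_ne_zero h5 hP2)
  · rw [h3, h4, map_mul, map_mul]
    field_simp

end Pool.Agent.H96.W4
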